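import Pool.Agent.H1.Mal.Formal2

set_option autoImplicit false
set_option maxRecDepth 100000
namespace Pool.Agent.H1.Mal
open Tr

def tgt_B2 : List Tm :=
  (fsc 2 (fmul (fE (v 0) (v 1) (v 2) (v 3) (v 4)) (v 0))) ++ ((fsc 2 (fneg (fsc 3 (fG (v 0) (v 1) (fJ (v 2) (v 3) (v 4)) (v 0))))) ++ ((fmul (fE (v 0) (v 0) (v 2) (v 3) (v 4)) (v 1)) ++ (fneg (fsc 3 (fG (v 0) (v 0) (fJ (v 2) (v 3) (v 4)) (v 1))))))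

def crt_B2 : List Ce := [
  .cyc 3 0 (m (v 0) (v 2)) (m (v 3) (v 4)) (v 0) [(v 1)],
  .cyc 3 0 (m (v 0) (v 2)) (m (v 3) (v 4)) (v 1) [(v 0)],
  .cyc 0 3 (m (v 0) (v 3)) (m (v 2) (v 4)) (v 1) [(v 0)],
  .cyc 3 0 (m (v 1) (v 2)) (m (v 3) (v 4)) (v 0) [(v 0)],
  .cyc 0 3 (m (v 1) (v 3)) (m (v 2) (v 4)) (v 0) [(v 0)],
  .cyc 3 0 (m (v 2) (v 3)) (m (v 0) (v 4)) (v 0) [(v 1)],
  .cyc 0 3 (m (v 0) (v 3)) (m (v 2) (v 4)) (v 0) [(v 1)],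
  .cyc 3 0 (m (v 2) (v 3)) (m (v 0) (v 4)) (v 1) [(v 0)],
  .cyc 0 3 (m (m (v 1) (v 2)) (v 0)) (m (v 3) (v 4)) (v 0) [],
  .cyc 3 0 (m (m (v 1) (v 3)) (v 0)) (m (v 2) (v 4)) (v 0) [],
  .cyc 3 0 (m (v 2) (v 3)) (m (v 1) (v 4)) (v 0) [(v 0)],
  .cyc 0 3 (m (m (v 0) (v 2)) (v 1)) (m (v 3) (v 4)) (v 0) [],
  .cyc 0 3 (m (m (v 0) (v 2)) (v 0)) (m (v 3) (v 4)) (v 1) [],
  .cyc 3 0 (m (m (v 0) (v 3)) (v 1)) (m (v 2) (v 4)) (v 0) [],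
  .cyc 3 0 (m (m (v 0) (v 3)) (v 0)) (m (v 2) (v 4)) (v 1) [],
  .cyc 0 3 (m (m (v 1) (v 4)) (v 0)) (m (v 2) (v 3)) (v 0) [],
  .cyc 0 3 (m (m (v 0) (v 4)) (v 0)) (m (v 2) (v 3)) (v 1) [],
  .cyc 0 3 (m (m (v 0) (v 4)) (v 1)) (m (v 2) (v 3)) (v 0) []]

theorem chk_B2 : check 3 0 (fsc 1 tgt_B2) crt_B2 = true := by decide +kernel

end Pool.Agent.H1.Mal
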