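import Pool.Agent.H1.Mal.Formal2

set_option autoImplicit false
set_option maxRecDepth 100000
namespace Pool.Agent.H1.Mal
open Tr

def tgt_Comm : List Tm :=
  (fneg ((fsc 10 (fmul (fmul (fE (v 4) (v 4) (v 0) (v 1) (v 2)) (v 3)) (v 3))) ++ ((fsc 2 (fmul (fmul (fE (v 4) (v 4) (v 0) (v 1) (v 3)) (v 2)) (v 3))) ++ ((fsc 6 (fmul (fmul (fE (v 4) (v 4) (v 0) (v 1) (v 3)) (v 3)) (v 2))) ++ ((fsc 2 (fmul (fmul (fE (v 4) (v 4) (v 1) (v 2) (v 3)) (v 0)) (v 3))) ++ ((fsc 6 (fmul (fmul (fE (v 4) (v 4) (v 1) (v 2) (v 3)) (v 3)) (v 0))) ++ ((fsc 2 (fmul (fmul (fE (v 4) (v 4) (v 2) (v 0) (v 3)) (v 1)) (v 3))) ++ (fsc 6 (fmul (fmul (fE (v 4) (v 4) (v 2) (v 0) (v 3)) (v 3)) (v 1)))))))))) ++ (fneg (fneg ((fsc 10 (fmul (fmul (fE (v 3) (v 3) (v 0) (v 1) (v 2)) (v 4)) (v 4))) ++ ((fsc 2 (fmul (fmul (fE (v 3) (v 3) (v 0) (v 1) (v 4)) (v 2)) (v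 4))) ++ ((fsc 6 (fmul (fmul (fE (v 3) (v 3) (v 0) (v 1) (v 4)) (v 4)) (v 2))) ++ ((fsc 2 (fmul (fmul (fE (v 3) (v 3) (v 1) (v 2) (v 4)) (v 0)) (v 4))) ++ ((fsc 6 (fmul (fmul (fE (v 3) (v 3) (v 1) (v 2) (v 4)) (v 4)) (v 0))) ++ ((fsc 2 (fmul (fmul (fE (v 3) (v 3) (v 2) (v 0) (v 4)) (v 1)) (v 4))) ++ (fsc 6 (fmul (fmul (fE (v 3) (v 3) (v 2) (v 0) (v 4)) (v 4)) (v 1)))))))))))

def crt_Comm : List Ce := [
  .cyc 942508637860032360 0 (m (m (v 0) (v 1)) (v 4)) (m (v 3) (v 4)) (v 2) [(v 3)],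
  .cyc 877043641529668500 0 (m (m (v 0) (v 1)) (v 3)) (m (v 3) (v 4)) (v 2) [(v 4)],
  .cyc 853147743784649640 0 (m (m (v 1) (v 2)) (v 3)) (m (v 3) (v 4)) (v 0) [(v 4)],
  .cyc 0 712671357253985820 (m (m (v 0) (v 2)) (v 4)) (m (v 3) (v 4)) (v 1) [(v 3)],
  .cyc 0 693140265046111392 (m (m (v 2) (v 4)) (v 4)) (m (v 0) (v 3)) (v 3) [(v 1)],
  .cyc 0 692193246221035992 (m (v 0) (v 3)) (m (v 2) (v 4)) (v 3) [(v 4), (v 1)],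
  .cyc 636113222001133920 0 (m (m (m (v 0) (v 2)) (v 4)) (v 3)) (m (v 3) (v 4)) (v 1) [],
  .cyc 627829501269298608 0 (m (v 3) (v 4)) (m (v 0) (v 4)) (m (v 2) (v 3)) [(v 1)],
  .cyc 0 599739166358311152 (m (v 0) (v 3)) (m (v 3) (v 4)) (v 2) [(v 4), (v 1)],
  .flipA 0 597235718534592240 (v 0) (v 2) (v 3) [] (v 3) (v 4) (v 4) [(v 1)],
  .cyc 0 574613941680214920 (m (m (v 0) (v 2)) (v 3)) (m (v 3) (v 4)) (v 1) [(v 4)],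
  .cyc 0 555832988220287520 (m (v 1) (v 2)) (m (v 3) (v 4)) (v 0) [(v 3), (v 4)],
  .cyc 502273331723062080 0 (m (v 0) (v 2)) (m (v 1) (v 3)) (v 4) [(m (v 3) (v 4))],
  .cyc 495369150502508865 0 (m (m (v 1) (v 4)) (v 4)) (m (v 0) (v 3)) (v 3) [(v 2)],
  .cyc 0 494632336052202120 (m (m (m (v 1) (v 2)) (v 4)) (v 3)) (m (v 3) (v 4)) (v 0) [],
  .cyc 487774067973079320 0 (m (v 2) (v 3)) (m (v 1) (v 4)) (v 0) [(v 4), (v 3)],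
  .cyc 0 487520476420266720 (m (m (v 0) (v 3)) (v 3)) (m (v 2) (v 4)) (v 4) [(v 1)],
  .cyc 0 475249697665447320 (m (v 2) (v 3)) (m (v 0) (v 4)) (v 1) [(v 3), (v 4)],
  .cyc 0 473269776958564200 (m (m (v 1) (v 4)) (v 3)) (m (v 2) (v 3)) (v 0) [(v 4)],
  .cyc 0 466588314507002445 (m (m (v 1) (v 3)) (v 3)) (m (v 0) (v 4)) (v 4) [(v 2)],
  .cyc 458547721405214895 0 (m (v 0) (v 4)) (m (v 3) (v 4)) (v 1) [(v 3), (v 2)],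
  .cyc 0 455719983309536040 (m (m (v 2) (v 4)) (v 3)) (m (v 0) (v 3)) (v 1) [(v 4)],
  .cyc 0 454093294185392400 (m (m (v 0) (v 4)) (v 3)) (m (v 1) (v 3)) (v 2) [(v 4)],
  .cyc 451340657796893220 0 (m (m (v 1) (v 3)) (v 4)) (m (v 2) (v 4)) (v 0) [(v 3)],
  .cyc 442866165059481840 0 (m (v 0) (v 1)) (m (v 2) (v 4)) (v 3) [(v 4), (v 3)],
  .flipA 430782066889937040 0 (v 0) (v 1) (v 2) [] (v 3) (v 4) (v 4) [(v 3)],
  .flipA 430106951042903280 0 (v 0) (v 1) (v 2) [(v 3)] (v 3) (v 4) (v 4) [],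
  .cyc 418920036539128380 0 (m (m (v 1) (v 2)) (v 4)) (m (v 3) (v 4)) (v 0) [(v 3)],
  .cyc 398175057236795985 0 (m (m (v 1) (v 4)) (v 3)) (m (v 3) (v 4)) (v 0) [(v 2)],
  .cyc 0 397008535445448000 (m (v 3) (v 4)) (m (v 1) (v 4)) (m (v 2) (v 3)) [(v 0)],
  .flipA 0 381920499838213920 (v 0) (v 2) (v 3) [] (v 1) (v 4) (v 4) [(v 3)],
  .flipA 0 374928538294479600 (v 0) (v 2) (v 3) [(v 1)] (v 3) (v 4) (v 4) [],
  .cyc 0 374275284607252620 (m (m (v 1) (v 3)) (v 4)) (m (v 0) (v 4)) (v 2) [(v 3)],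
  .cyc 372586671769096800 0 (m (v 0) (v 3)) (m (v 2) (v 4)) (v 1) [(v 4), (v 3)],
  .flipA 365536101197014800 0 (v 0) (v 2) (v 4) [] (v 1) (v 3) (v 3) [(v 4)],
  .cyc 0 365329798844375520 (m (v 1) (v 3)) (m (v 2) (v 4)) (v 0) [(v 3), (v 4)],
  .cyc 356977470285164880 0 (m (m (m (v 1) (v 2)) (v 3)) (v 0)) (m (v 3) (v 4)) (v 4) [],
  .cyc 354609922673602080 0 (m (m (v 0) (v 4)) (v 4)) (m (v 2) (v 3)) (v 3) [(v 1)],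
  .cyc 353121456523630680 0 (m (m (v 2) (v 3)) (v 4)) (m (v 0) (v 4)) (v 1) [(v 3)],
  .cyc 0 348095531162042100 (m (m (v 2) (v 3)) (v 4)) (m (v 1) (v 4)) (v 0) [(v 3)],
  .cyc 348084284260636035 0 (m (v 0) (v 3)) (m (v 3) (v 4)) (v 1) [(v 4), (v 2)],
  .cyc 346371269334021000 0 (m (m (v 2) (v 4)) (v 3)) (m (v 1) (v 3)) (v 0) [(v 4)],
  .cyc 345338977654744965 0 (m (m (v 1) (v 3)) (v 4)) (m (v 3) (v 4)) (v 0) [(v 2)],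
  .cyc 0 340070507658640080 (m (v 1) (v 2)) (m (v 3) (v 4)) (v 0) [(v 4), (v 3)],
  .cyc 0 337684724885656710 (m (m (m (v 0) (v 1)) (v 3)) (v 4)) (m (v 3) (v 4)) (v 2) [],
  .cyc 336393540508988700 0 (m (m (v 0) (v 3)) (v 4)) (m (v 1) (v 4)) (v 2) [(v 3)],
  .cyc 0 324122529187142640 (m (m (m (v 0) (v 1)) (v 4)) (v 3)) (m (v 3) (v 4)) (v 2) [],
  .cyc 321415876138379160 0 (m (v 1) (v 2)) (m (v 3) (v 4)) (v 3) [(v 0), (v 4)],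
  .cyc 316522765771565160 0 (m (m (v 2) (v 4)) (v 4)) (m (v 1) (v 3)) (v 3) [(v 0)],
  .cyc 311021405412485220 0 (m (m (v 0) (v 2)) (v 4)) (m (v 1) (v 4)) (v 3) [(v 3)],
  .cyc 309396749792751360 0 (m (v 0) (v 2)) (m (v 3) (v 4)) (v 1) [(v 3), (v 4)],
  .flipA 309359339292662370 0 (v 0) (v 1) (v 3) [] (v 3) (v 4) (v 4) [(v 2)],
  .cyc 309306914828810640 0 (m (v 0) (v 2)) (m (v 1) (v 4)) (v 3) [(m (v 3) (v 4))],
  .cyc 308483499769755480 0 (m (m (v 2) (v 4)) (v 3)) (m (v 3) (v 4)) (v 1) [(v 0)],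
  .cyc 307967728519568880 0 (m (v 0) (v 2)) (m (v 3) (v 4)) (v 3) [(m (v 1) (v 4))],
  .cyc 0 302951562266371320 (m (v 0) (v 1)) (m (v 2) (v 3)) (v 4) [(v 3), (v 4)],
  .cyc 0 300850364477753840 (m (v 2) (v 3)) (m (v 3) (v 4)) (v 4) [(v 1), (v 0)],
  .flipA 295127455301129280 0 (v 0) (v 2) (v 4) [(v 4)] (v 1) (v 3) (v 3) [],
  .flipA 0 281696248288208400 (v 0) (v 2) (v 4) [] (m (v 3) (v 4)) (v 1) (v 3) [],
  .cyc 274607174183443200 0 (m (v 0) (v 2)) (m (v 3) (v 4)) (v 1) [(v 4), (v 3)],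
  .cyc 0 272609461748182500 (m (m (v 1) (v 2)) (v 4)) (m (v 0) (v 4)) (v 3) [(v 3)],
  .cyc 270260727900358320 0 (m (m (m (v 0) (v 1)) (v 4)) (v 2)) (m (v 3) (v 4)) (v 3) [],
  .cyc 0 263775480160007700 (m (m (v 0) (v 3)) (v 4)) (m (v 2) (v 4)) (v 1) [(v 3)],
  .cyc 0 262758277030526280 (m (m (v 0) (v 4)) (v 1)) (m (v 2) (v 3)) (v 3) [(v 4)],
  .cyc 0 261459335516670120 (m (v 2) (v 4)) (m (v 3) (v 4)) (v 1) [(v 3), (v 0)],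
  .cyc 258578647612945680 0 (m (v 3) (v 4)) (m (v 2) (v 3)) (m (v 1) (v 4)) [(v 0)],
  .cyc 258527862448580970 0 (m (m (v 0) (v 4)) (v 1)) (m (v 3) (v 4)) (v 3) [(v 2)],
  .cyc 256885670937331872 0 (m (v 2) (v 3)) (m (v 3) (v 4)) (v 4) [(v 0), (v 1)],
  .cyc 256182672150358650 0 (m (m (m (v 0) (v 1)) (v 3)) (v 2)) (m (v 3) (v 4)) (v 4) [],
  .cyc 252094871363638320 0 (m (m (m (v 0) (v 2)) (v 3)) (v 4)) (m (v 3) (v 4)) (v 1) [],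
  .cyc 241704563183021880 0 (m (m (v 1) (v 4)) (v 3)) (m (v 0) (v 3)) (v 2) [(v 4)],
  .cyc 238191425963675736 0 (m (v 0) (v 2)) (m (v 3) (v 4)) (v 4) [(v 3), (v 1)],
  .cyc 237161633701554360 0 (m (v 1) (v 2)) (m (v 0) (v 3)) (v 4) [(v 4), (v 3)],
  .flipA 234769222535728440 0 (v 0) (v 1) (v 2) [(v 4)] (v 3) (v 3) (v 4) [],
  .flipA 232638883957561200 0 (v 0) (v 1) (v 2) [] (v 3) (v 3) (v 4) [(v 4)],
  .cyc 0 226045269046185120 (m (m (m (v 1) (v 3)) (v 2)) (v 4)) (m (v 0) (v 4)) (v 3) [],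
  .cyc 224748308759383680 0 (m (m (v 1) (v 3)) (v 3)) (m (v 2) (v 4)) (v 4) [(v 0)],
  .flipA 222918941817776480 0 (v 1) (v 2) (v 3) [] (v 3) (v 4) (v 4) [(v 0)],
  .flipA 0 222541383230321040 (v 0) (v 1) (v 4) [] (v 2) (v 3) (v 3) [(v 4)],
  .flipA 218472803864352240 0 (v 2) (v 3) (v 4) [] (v 3) (v 4) (m (v 0) (v 1)) [],
  .cyc 217035979693110000 0 (m (v 2) (v 4)) (m (v 3) (v 4)) (v 0) [(m (v 1) (v 3))],
  .flipA 214266702940381440 0 (v 0) (v 1) (v 3) [(v 2)] (v 3) (v 4) (v 4) [],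
  .flipA 209240651088980160 0 (v 1) (v 2) (v 4) [] (v 3) (v 4) (v 0) [(v 3)],
  .cyc 0 208964673224358840 (m (m (v 1) (v 3)) (v 3)) (m (v 0) (v 4)) (v 2) [(v 4)],
  .flipA 0 208285665210737280 (v 2) (v 3) (v 4) [(v 3)] (v 1) (v 4) (v 0) [],
  .flipA 207491332316988060 0 (v 1) (v 3) (v 4) [] (v 3) (v 4) (v 0) [(v 2)],
  .cyc 0 207537901425061960 (m (v 2) (v 3)) (m (v 3) (v 4)) (v 1) [(v 4), (v 0)],
  .flipA 0 206204609885873760 (v 0) (v 2) (v 3) [] (m (v 3) (v 4)) (v 1) (v 4) [],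
  .cyc 0 205371333521077680 (m (m (m (v 1) (v 2)) (v 3)) (v 4)) (m (v 0) (v 3)) (v 4) [],
  .cyc 0 202671326493758460 (m (v 1) (v 2)) (m (v 0) (v 4)) (v 4) [(v 3), (v 3)],
  .cyc 202576064279837220 0 (m (v 0) (v 1)) (m (v 3) (v 4)) (v 4) [(v 2), (v 3)],
  .cyc 201894855836622480 0 (m (v 0) (v 3)) (m (v 3) (v 4)) (v 4) [(m (v 1) (v 2))],
  .flipA 0 201681789467343120 (v 1) (v 2) (v 4) [(v 3)] (v 0) (v 4) (v 3) [],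
  .cyc 0 200176297453721232 (m (m (v 2) (v 4)) (v 3)) (m (v 3) (v 4)) (v 0) [(v 1)],
  .flipA 198438695560634400 0 (v 1) (v 3) (v 4) [(v 3)] (v 2) (v 4) (v 0) [],
  .cyc 197982889563631680 0 (m (m (v 0) (v 2)) (v 3)) (m (v 3) (v 4)) (m (v 1) (v 4)) [],
  .cyc 0 197795101634377920 (m (m (m (v 2) (v 3)) (v 0)) (v 4)) (m (v 1) (v 4)) (v 3) [],
  .flipA 0 195287455257957360 (v 0) (v 2) (v 3) [(v 3)] (v 1) (v 4) (v 4) [],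
  .cyc 190546379338122720 0 (m (m (m (v 2) (v 3)) (v 3)) (v 4)) (m (v 1) (v 4)) (v 0) [],
  .cyc 190379661898286610 0 (m (m (v 0) (v 3)) (v 1)) (m (v 3) (v 4)) (v 4) [(v 2)],
  .flipA 0 188553074061852000 (v 0) (v 3) (v 4) [(v 3)] (v 2) (v 4) (v 1) [],
  .flipA 187848816276856176 0 (v 0) (v 3) (v 4) [] (v 3) (v 4) (v 2) [(v 1)],
  .cyc 0 187650178503811344 (m (v 2) (v 4)) (m (v 3) (v 4)) (m (v 0) (v 3)) [(v 1)],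
  .cyc 0 186785605334701575 (m (v 0) (v 1)) (m (v 3) (v 4)) (v 4) [(v 3), (v 2)],
  .cyc 185435211772875240 0 (m (v 1) (v 3)) (m (v 0) (v 4)) (v 2) [(v 4), (v 3)],
  .flipA 182384210768885280 0 (v 0) (v 3) (v 4) [] (v 3) (v 4) (m (v 1) (v 2)) [],
  .cyc 0 181999030712757660 (m (v 0) (v 2)) (m (v 3) (v 4)) (v 4) [(v 1), (v 3)],
  .flipA 180316195136358240 0 (v 1) (v 2) (v 3) [(v 3)] (v 0) (v 4) (v 4) [],
  .cyc 0 180036382530858075 (m (v 0) (v 1)) (m (v 3) (v 4)) (v 3) [(v 4), (v 2)],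
  .cyc 0 179964285185835360 (m (v 0) (v 1)) (m (v 2) (v 3)) (v 4) [(m (v 3) (v 4))],
  .cyc 0 178838742255807060 (m (m (v 0) (v 1)) (v 4)) (m (v 2) (v 4)) (v 3) [(v 3)],
  .cyc 178776390490262400 0 (m (v 0) (v 3)) (m (v 3) (v 4)) (v 2) [(v 1), (v 4)],
  .cyc 178918021326410160 0 (m (v 0) (v 1)) (m (v 3) (v 4)) (v 3) [(v 2), (v 4)],
  .flipA 177501608362339440 0 (v 2) (v 3) (v 4) [] (v 0) (v 1) (v 4) [(v 3)],
  .flipA 174806066637268320 0 (v 1) (v 2) (v 3) [] (v 0) (v 4) (v 4) [(v 3)],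
  .flipA 0 172104523055947440 (v 0) (v 3) (v 4) [(v 4)] (v 2) (v 3) (v 1) [],
  .cyc 170133156032145000 0 (m (v 1) (v 3)) (m (v 3) (v 4)) (v 0) [(v 2), (v 4)],
  .flipA 0 167281294518158400 (v 0) (v 1) (v 4) [(v 4)] (v 2) (v 3) (v 3) [],
  .flipA 166722034869588480 0 (v 0) (v 1) (v 3) [] (v 2) (v 4) (v 3) [(v 4)],
  .cyc 165905932315705920 0 (m (v 1) (v 2)) (m (v 3) (v 4)) (m (v 0) (v 4)) [(v 3)],
  .cyc 0 164727405085183920 (m (m (m (v 2) (v 4)) (v 4)) (v 3)) (m (v 1) (v 3)) (v 0) [],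
  .flipA 164685820485746880 0 (v 0) (v 1) (v 3) [(v 3)] (v 2) (v 4) (v 4) [],
  .cyc 0 164581998862458780 (m (v 1) (v 2)) (m (v 3) (v 4)) (v 4) [(v 0), (v 3)],
  .flipA 0 163734962407973280 (v 1) (v 3) (v 4) [] (v 0) (v 2) (v 4) [(v 3)],
  .cyc 163253674117714752 0 (m (v 0) (v 3)) (m (v 3) (v 4)) (v 4) [(v 2), (v 1)],
  .cyc 0 161693647456657680 (m (v 0) (v 1)) (m (v 2) (v 4)) (v 3) [(m (v 3) (v 4))],
  .flipA 160331142150745200 0 (v 1) (v 3) (v 4) [(v 4)] (v 2) (v 3) (v 0) [],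
  .flipA 160277943190855680 0 (v 0) (v 1) (v 3) [] (v 2) (v 4) (v 4) [(v 3)],
  .cyc 157883402862331280 0 (m (v 1) (v 3)) (m (v 3) (v 4)) (v 2) [(v 4), (v 0)],
  .cyc 155322121840636680 0 (m (v 2) (v 3)) (m (v 1) (v 4)) (v 0) [(v 3), (v 4)],
  .cyc 154785098221045020 0 (m (m (v 0) (v 1)) (v 3)) (m (v 2) (v 3)) (v 4) [(v 4)],
  .cyc 0 154179414485269920 (m (m (v 2) (v 4)) (v 1)) (m (v 3) (v 4)) (v 3) [(v 0)],
  .cyc 0 152754284779927920 (m (v 1) (v 2)) (m (v 3) (v 4)) (v 0) [(m (v 3) (v 4))],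
  .cyc 0 152262051374069280 (m (v 1) (v 2)) (m (v 0) (v 4)) (v 3) [(v 3), (v 4)],
  .flipA 0 151322338935314160 (v 2) (v 3) (v 4) [(v 4)] (v 1) (v 3) (v 0) [],
  .cyc 0 150669635777470080 (m (m (m (v 1) (v 3)) (v 3)) (v 4)) (m (v 2) (v 4)) (v 0) [],
  .cyc 149128190334909360 0 (m (v 0) (v 3)) (m (v 2) (v 4)) (v 1) [(v 3), (v 4)],
  .cyc 149060255933070720 0 (m (v 2) (v 3)) (m (v 1) (v 4)) (v 3) [(m (v 0) (v 4))],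
  .flipA 0 148327038094701600 (v 1) (v 3) (v 4) [] (v 0) (v 2) (v 3) [(v 4)],
  .flipA 0 147538527755444256 (v 2) (v 3) (v 4) [] (v 3) (v 4) (v 0) [(v 1)],
  .flipA 0 145888065941454720 (v 1) (v 2) (v 4) [(v 4)] (v 0) (v 3) (v 3) [],
  .cyc 0 145250575172726400 (m (v 0) (v 2)) (m (v 3) (v 4)) (m (v 1) (v 4)) [(v 3)],
  .cyc 0 142161540949856160 (m (m (v 1) (v 3)) (m (v 2) (v 3))) (m (v 0) (v 4)) (v 4) [],
  .flipA 140695929096725400 0 (v 0) (v 2) (v 4) [] (v 1) (v 3) (v 4) [(v 3)],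
  .cyc 0 136623464963032320 (m (v 1) (v 2)) (m (v 0) (v 3)) (v 3) [(v 4), (v 4)],
  .flipA 0 134110015705378560 (v 1) (v 2) (v 3) [] (v 3) (v 4) (v 0) [(v 4)],
  .cyc 0 133252458357761280 (m (m (m (v 0) (v 2)) (v 4)) (v 3)) (m (v 1) (v 3)) (v 4) [],
  .cyc 132175813457035440 0 (m (m (m (v 0) (v 2)) (v 4)) (v 3)) (m (v 1) (v 4)) (v 3) [],
  .flipA 130614743444858600 0 (v 1) (v 2) (v 4) [] (v 3) (v 3) (v 4) [(v 0)],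
  .flipA 0 129790078911575280 (v 1) (v 2) (v 4) [] (v 0) (v 3) (v 3) [(v 4)],
  .flipB 129456506535542640 0 (v 0) (v 2) (v 3) [] (m (v 1) (v 4)) (m (v 3) (v 4)) [],
  .cyc 0 127937414288633440 (m (v 1) (v 3)) (m (v 3) (v 4)) (v 4) [(v 2), (v 0)],
  .cyc 0 127578580094392260 (m (v 2) (v 4)) (m (v 3) (v 4)) (v 0) [(v 1), (v 3)],
  .cyc 126992992228859880 0 (m (m (v 3) (v 4)) (v 3)) (m (v 0) (v 1)) (v 2) [(v 4)],
  .flipA 126097774820781120 0 (v 0) (v 1) (v 4) [] (m (v 3) (v 4)) (v 2) (v 3) [],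
  .flipA 0 125213098060001520 (v 1) (v 3) (v 4) [] (v 3) (v 4) (m (v 0) (v 2)) [],
  .flipA 119265460508021120 0 (v 1) (v 3) (v 4) [] (v 2) (v 4) (v 3) [(v 0)],
  .flipA 115696507036526640 0 (v 0) (v 2) (v 3) [(v 4)] (v 1) (v 3) (v 4) [],
  .cyc 112974626975281920 0 (m (m (m (v 1) (v 3)) (v 0)) (v 4)) (m (v 2) (v 4)) (v 3) [],
  .flipA 111302042117902720 0 (v 2) (v 3) (v 4) [] (v 3) (v 4) (v 1) [(v 0)],
  .cyc 0 110142802212472800 (m (m (v 1) (v 3)) (v 3)) (m (v 0) (v 2)) (v 4) [(v 4)],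
  .flipA 109886865829741200 0 (v 0) (v 2) (v 4) [(v 3)] (v 1) (v 3) (v 4) [],
  .flipA 107795764971105120 0 (v 0) (v 1) (v 3) [] (m (v 3) (v 4)) (v 2) (v 4) [],
  .flipA 0 105004778096712600 (v 0) (v 2) (v 3) [] (v 1) (v 4) (v 3) [(v 4)],
  .cyc 102760477981157880 0 (m (v 2) (v 3)) (m (v 3) (v 4)) (v 0) [(v 4), (v 1)],
  .cyc 0 102280982536635840 (m (m (v 0) (v 3)) (v 3)) (m (m (v 1) (v 4)) (v 4)) (v 2) [],
  .flipA 101823488589805800 0 (v 2) (v 3) (v 4) [] (v 0) (v 1) (v 3) [(v 4)],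
  .flipA 101647402359012405 0 (v 0) (v 1) (v 4) [] (v 3) (v 3) (v 4) [(v 2)],
  .cyc 0 100287452928394800 (m (v 0) (v 2)) (m (v 3) (v 4)) (v 1) [(m (v 3) (v 4))],
  .cyc 100101723991033860 0 (m (m (v 0) (v 1)) (v 3)) (m (v 2) (v 4)) (v 4) [(v 3)],
  .cyc 0 99031745265697080 (m (m (v 0) (v 2)) (v 3)) (m (v 1) (v 3)) (v 4) [(v 4)],
  .cyc 0 98680743579025440 (m (m (m (v 1) (v 4)) (v 4)) (v 3)) (m (v 0) (v 3)) (v 2) [],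
  .flipA 0 98570476411675248 (v 2) (v 3) (v 4) [] (v 0) (v 4) (v 3) [(v 1)],
  .cyc 0 97000037514326520 (m (v 1) (v 3)) (m (v 2) (v 4)) (v 0) [(v 4), (v 3)],
  .cyc 0 95758372579270104 (m (v 0) (v 4)) (m (v 3) (v 4)) (v 2) [(v 3), (v 1)],
  .cyc 95594778589517640 0 (m (m (v 0) (v 3)) (v 3)) (m (v 1) (v 4)) (v 4) [(v 2)],
  .flipA 0 94164427241540640 (v 0) (v 2) (v 3) [(v 4)] (v 1) (v 4) (v 3) [],
  .cyc 0 94051612750635360 (m (v 2) (v 3)) (m (v 3) (v 4)) (v 4) [(m (v 0) (v 1))],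
  .flipA 0 93196114381376880 (v 0) (v 2) (v 4) [(v 3)] (v 1) (v 4) (v 3) [],
  .cyc 93027108196418400 0 (m (v 3) (v 4)) (m (v 1) (v 2)) (m (v 0) (v 3)) [(v 4)],
  .cyc 92190107969639460 0 (m (m (v 2) (v 3)) (v 0)) (m (v 1) (v 4)) (v 4) [(v 3)],
  .cyc 0 90454589049366720 (m (m (m (v 0) (v 3)) (v 2)) (v 1)) (m (v 3) (v 4)) (v 4) [],
  .flipB 0 89947983793803600 (v 1) (v 2) (v 3) [] (m (v 4) (v 4)) (m (v 0) (v 3)) [],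
  .flipA 88596794270326320 0 (v 1) (v 2) (v 3) [(v 0)] (v 3) (v 4) (v 4) [],
  .flipA 0 87110710505936880 (v 1) (v 3) (v 4) [] (v 3) (v 4) (v 2) [(v 0)],
  .cyc 86972089251022200 0 (m (m (v 0) (v 3)) (v 3)) (m (v 1) (v 4)) (v 2) [(v 4)],
  .flipA 86793591737723040 0 (v 0) (v 1) (v 3) [] (m (v 2) (v 3)) (v 4) (v 4) [],
  .flipA 86726065607266680 0 (v 1) (v 2) (v 4) [] (v 3) (v 3) (m (v 0) (v 4)) [],
  .cyc 85371283055517360 0 (m (v 3) (v 4)) (m (v 3) (v 4)) (m (v 1) (v 2)) [(v 0)],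
  .cyc 83578123730015640 0 (m (m (v 0) (v 4)) (v 3)) (m (v 2) (v 3)) (v 1) [(v 4)],
  .flipA 82376392764370560 0 (v 1) (v 2) (v 3) [(v 4)] (v 0) (v 3) (v 4) [],
  .cyc 82297260696579840 0 (m (v 0) (v 2)) (m (v 3) (v 4)) (v 4) [(m (v 1) (v 3))],
  .cyc 80987716026173580 0 (m (v 1) (v 4)) (m (v 3) (v 4)) (v 0) [(v 2), (v 3)],
  .cyc 80827724268909000 0 (m (m (v 2) (v 4)) (v 4)) (m (v 1) (v 3)) (v 0) [(v 3)],
  .flipA 79945973092449000 0 (v 1) (v 2) (v 3) [] (v 0) (v 4) (v 3) [(v 4)],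
  .flipA 79426503977784000 0 (v 0) (v 1) (v 4) [] (v 3) (v 4) (v 2) [(v 3)],
  .cyc 0 78074221053139560 (m (v 0) (v 2)) (m (v 3) (v 4)) (v 3) [(v 1), (v 4)],
  .flipA 0 75608241905004240 (v 0) (v 1) (v 3) [] (v 3) (v 4) (v 2) [(v 4)],
  .cyc 0 72859515503524440 (m (v 2) (v 3)) (m (v 3) (v 4)) (v 0) [(v 1), (v 4)],
  .cyc 0 71822595841581600 (m (m (m (v 1) (v 4)) (v 0)) (v 3)) (m (v 2) (v 3)) (v 4) [],
  .cyc 0 71169433512515560 (m (v 1) (v 2)) (m (v 3) (v 4)) (v 4) [(v 3), (v 0)],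
  .flipA 70930278792730800 0 (v 1) (v 2) (v 4) [(v 0)] (v 3) (v 3) (v 4) [],
  .flipA 0 70129252405388160 (v 1) (v 3) (v 4) [(v 0)] (v 2) (v 3) (v 4) [],
  .cyc 0 69768236577643140 (m (v 0) (v 4)) (m (v 3) (v 4)) (v 2) [(v 1), (v 3)],
  .cyc 68919652346220576 0 (m (m (v 2) (v 3)) (v 3)) (m (v 0) (v 4)) (v 4) [(v 1)],
  .flipA 68745654646337520 0 (v 1) (v 2) (v 4) [(v 3)] (v 0) (v 3) (v 4) [],
  .flipA 68470734507312960 0 (v 0) (v 3) (v 4) [(v 4)] (v 1) (v 2) (v 3) [],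
  .flipA 0 68392798313338800 (v 0) (v 3) (v 4) [] (m (v 1) (v 2)) (v 4) (v 3) [],
  .cyc 0 67701991726172880 (m (v 1) (v 3)) (m (v 0) (v 4)) (v 3) [(m (v 2) (v 4))],
  .cyc 0 66675181980381120 (m (v 0) (v 4)) (m (v 1) (v 4)) (v 3) [(m (v 2) (v 3))],
  .cyc 66079274866730640 0 (m (v 0) (v 4)) (m (v 2) (v 4)) (v 3) [(m (v 1) (v 3))],
  .cyc 65245340844305280 0 (m (m (m (v 1) (v 3)) (v 3)) (v 4)) (m (v 0) (v 4)) (v 2) [],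
  .flipA 64440960086075040 0 (v 1) (v 3) (v 4) [] (m (v 0) (v 2)) (v 4) (v 3) [],
  .cyc 0 64106704310982705 (m (v 1) (v 3)) (m (v 3) (v 4)) (v 0) [(v 4), (v 2)],
  .flipA 63295498103843520 0 (v 0) (v 3) (v 4) [] (v 1) (v 2) (v 3) [(v 4)],
  .flipA 0 62671236687165360 (v 1) (v 2) (v 3) [(v 4)] (v 0) (v 4) (v 3) [],
  .flipA 61802563052768400 0 (v 0) (v 2) (v 4) [] (m (v 1) (v 3)) (v 4) (v 3) [],
  .flipA 60319985117602920 0 (v 0) (v 3) (v 4) [] (v 1) (v 2) (v 4) [(v 3)],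
  .flipA 60321846496334400 0 (v 0) (v 3) (v 4) [(v 2)] (v 3) (v 4) (v 1) [],
  .cyc 59773317595031760 0 (m (v 1) (v 3)) (m (v 3) (v 4)) (v 2) [(v 0), (v 4)],
  .cyc 0 59144570409276000 (m (m (m (v 0) (v 4)) (v 4)) (v 3)) (m (v 2) (v 3)) (v 1) [],
  .cyc 0 57799544150770650 (m (m (m (v 0) (v 1)) (v 3)) (v 4)) (m (v 2) (v 3)) (v 4) [],
  .cyc 0 57467930122648740 (m (v 1) (v 4)) (m (v 2) (v 4)) (v 3) [(v 0), (v 3)],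
  .flipA 0 56239182719377080 (v 0) (v 2) (v 4) [(v 1)] (v 3) (v 3) (v 4) [],
  .flipA 55110497051431920 0 (v 2) (v 3) (v 4) [(v 0)] (v 1) (v 3) (v 4) [],
  .flipA 0 54925209733734990 (v 0) (v 3) (v 4) [] (v 3) (v 4) (v 1) [(v 2)],
  .cyc 54828020756897280 0 (m (m (m (v 2) (v 3)) (v 1)) (v 4)) (m (v 0) (v 4)) (v 3) [],
  .flipA 53438985868212720 0 (v 0) (v 1) (v 4) [(v 3)] (v 3) (v 4) (v 2) [],
  .cyc 0 52887953321253720 (m (m (v 0) (v 4)) (v 4)) (m (v 1) (v 2)) (v 3) [(v 3)],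
  .cyc 0 50078355758585580 (m (v 0) (v 1)) (m (v 2) (v 4)) (v 4) [(v 3), (v 3)],
  .cyc 49940411615781120 0 (m (v 1) (v 4)) (m (v 2) (v 4)) (v 3) [(m (v 0) (v 3))],
  .cyc 49136179823377920 0 (m (m (m (v 0) (v 4)) (v 1)) (v 3)) (m (v 2) (v 3)) (v 4) [],
  .cyc 0 48860451860384520 (m (v 0) (v 3)) (m (v 3) (v 4)) (v 1) [(v 2), (v 4)],
  .cyc 0 48452518348186320 (m (v 1) (v 3)) (m (v 3) (v 4)) (v 2) [(m (v 0) (v 4))],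
  .flipA 0 48357155617604640 (v 0) (v 3) (v 4) [(v 2)] (v 1) (v 3) (v 4) [],
  .flipA 48374601479199360 0 (v 1) (v 3) (v 4) [] (m (v 2) (v 3)) (v 0) (v 4) [],
  .flipA 47628709320142800 0 (v 0) (v 1) (v 3) [(v 4)] (v 2) (v 3) (v 4) [],
  .cyc 0 44522978486706720 (m (v 0) (v 1)) (m (v 2) (v 3)) (v 3) [(v 4), (v 4)],
  .cyc 0 44436302520585540 (m (v 0) (v 2)) (m (v 1) (v 4)) (v 4) [(v 3), (v 3)],
  .cyc 0 44058641724013680 (m (v 0) (v 3)) (m (v 2) (v 3)) (v 4) [(m (v 1) (v 4))],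
  .cyc 0 43961938188164064 (m (v 3) (v 4)) (m (v 3) (v 4)) (m (v 0) (v 2)) [(v 1)],
  .flipA 0 42188405151482160 (v 2) (v 3) (v 4) [] (v 0) (v 1) (m (v 3) (v 4)) [],
  .cyc 39804989091315420 0 (m (v 0) (v 4)) (m (v 3) (v 4)) (v 1) [(v 2), (v 3)],
  .flipA 37990098244148280 0 (v 1) (v 2) (v 4) [] (v 0) (v 3) (v 4) [(v 3)],
  .cyc 37774633475855520 0 (m (m (m (v 0) (v 3)) (v 2)) (v 4)) (m (v 1) (v 4)) (v 3) [],
  .cyc 36521456569794000 0 (m (m (m (v 1) (v 4)) (v 4)) (v 3)) (m (v 2) (v 3)) (v 0) [],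
  .flipA 0 36360491626530240 (v 0) (v 3) (v 4) [] (v 1) (v 3) (v 2) [(v 4)],
  .flipA 34530381927033120 0 (v 0) (v 1) (v 4) [(v 2)] (v 3) (v 3) (v 4) [],
  .flipA 0 34002046928931840 (v 0) (v 3) (v 4) [] (m (v 1) (v 4)) (v 2) (v 3) [],
  .flipA 0 33553585400758320 (v 0) (v 1) (v 4) [] (v 2) (v 3) (v 4) [(v 3)],
  .flipA 33129000085235280 0 (v 2) (v 3) (v 4) [(v 1)] (v 3) (v 4) (v 0) [],
  .cyc 0 31495418492822280 (m (v 0) (v 1)) (m (v 3) (v 4)) (v 2) [(v 4), (v 3)],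
  .cyc 29730229770325860 0 (m (v 0) (v 3)) (m (v 3) (v 4)) (v 4) [(v 1), (v 2)],
  .cyc 0 28718976255099525 (m (v 1) (v 4)) (m (v 3) (v 4)) (v 0) [(v 3), (v 2)],
  .flipA 28139312813197200 0 (v 1) (v 3) (v 4) [] (v 0) (v 4) (v 2) [(v 3)],
  .flipA 27118790416349712 0 (v 0) (v 2) (v 4) [] (v 3) (v 3) (v 4) [(v 1)],
  .flipA 0 26887294809835200 (v 1) (v 3) (v 4) [(v 4)] (v 0) (v 2) (v 3) [],
  .flipA 26565607263540600 0 (v 0) (v 1) (v 4) [] (v 3) (v 3) (m (v 2) (v 4)) [],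
  .flipB 0 26280100337713200 (v 1) (v 3) (v 4) [] (m (v 0) (v 2)) (m (v 3) (v 4)) [],
  .cyc 0 26117371414095120 (m (v 0) (v 3)) (m (v 1) (v 3)) (v 2) [(v 4), (v 4)],
  .flipA 0 24586268291672880 (v 2) (v 3) (v 4) [] (v 0) (v 3) (v 1) [(v 4)],
  .cyc 23864151131264160 0 (m (v 1) (v 3)) (m (v 0) (v 4)) (v 4) [(m (v 2) (v 3))],
  .flipA 23753334850089360 0 (v 2) (v 3) (v 4) [(v 4)] (v 0) (v 1) (v 3) [],
  .flipA 0 22923632137836960 (v 0) (v 3) (v 4) [] (m (v 2) (v 3)) (v 1) (v 4) [],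
  .cyc 0 22834576163259360 (m (m (v 3) (v 4)) (v 3)) (m (v 1) (v 2)) (m (v 0) (v 4)) [],
  .cyc 0 21928638693586320 (m (v 1) (v 3)) (m (v 3) (v 4)) (v 4) [(m (v 0) (v 2))],
  .cyc 21578337057058560 0 (m (v 0) (v 1)) (m (v 3) (v 4)) (v 2) [(v 3), (v 4)],
  .cyc 0 21463657461263160 (m (m (v 2) (v 4)) (v 4)) (m (v 0) (v 1)) (v 3) [(v 3)],
  .flipA 0 20302731874041840 (v 1) (v 3) (v 4) [(v 3)] (v 0) (v 2) (v 4) [],
  .flipA 0 20101019788748160 (v 1) (v 2) (v 4) [] (m (v 3) (v 4)) (v 0) (v 3) [],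
  .flipA 0 19216343268244880 (v 2) (v 3) (v 4) [] (v 1) (v 4) (v 3) [(v 0)],
  .cyc 18202545771157440 0 (m (m (v 2) (v 4)) (v 4)) (m (m (v 0) (v 3)) (v 3)) (v 1) [],
  .flipA 18133591411325040 0 (v 2) (v 3) (v 4) [(v 3)] (v 0) (v 4) (v 1) [],
  .flipA 17488943950511040 0 (v 0) (v 1) (v 2) [] (m (v 3) (v 4)) (v 3) (v 4) [],
  .cyc 17200231056293480 0 (m (v 1) (v 4)) (m (v 3) (v 4)) (v 2) [(v 3), (v 0)],
  .cyc 16734522325336680 0 (m (v 2) (v 4)) (m (v 3) (v 4)) (v 1) [(v 0), (v 3)],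
  .flipA 0 15933752762983200 (v 0) (v 1) (v 3) [(v 4)] (v 3) (v 4) (v 2) [],
  .cyc 15809083916494680 0 (m (m (m (v 1) (v 2)) (v 4)) (v 4)) (m (v 0) (v 3)) (v 3) [],
  .cyc 0 15560413583523120 (m (m (m (v 0) (v 1)) (v 3)) (v 3)) (m (v 2) (v 4)) (v 4) [],
  .cyc 15199535768451840 0 (m (v 2) (v 4)) (m (v 3) (v 4)) (v 1) [(m (v 0) (v 3))],
  .cyc 14951993914670400 0 (m (v 1) (v 2)) (m (v 3) (v 4)) (v 4) [(m (v 0) (v 3))],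
  .flipA 13854714714039360 0 (v 2) (v 3) (v 4) [] (v 0) (v 3) (m (v 1) (v 4)) [],
  .cyc 13773565568004480 0 (m (m (v 0) (v 1)) (m (v 2) (v 3))) (m (v 3) (v 4)) (v 4) [],
  .flipA 13580004161273640 0 (v 0) (v 2) (v 4) [] (v 3) (v 3) (m (v 1) (v 4)) [],
  .flipA 13452952794274080 0 (v 0) (v 3) (v 4) [] (m (v 1) (v 3)) (v 2) (v 4) [],
  .cyc 0 12974885288403120 (m (v 1) (v 3)) (m (v 0) (v 4)) (v 2) [(m (v 3) (v 4))],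
  .cyc 12840396162721920 0 (m (m (m (v 1) (v 2)) (v 4)) (v 0)) (m (v 3) (v 4)) (v 3) [],
  .flipA 0 12065789585788320 (v 2) (v 3) (v 4) [] (m (v 3) (v 4)) (v 1) (v 0) [],
  .flipA 0 11996224161811200 (v 1) (v 3) (v 4) [(v 2)] (v 3) (v 4) (v 0) [],
  .flipA 11642694656594400 0 (v 0) (v 1) (v 4) [(v 3)] (v 2) (v 3) (v 4) [],
  .flipA 0 10689300869263200 (v 2) (v 3) (v 4) [(v 0)] (v 1) (v 4) (v 3) [],
  .flipB 0 10185916691959920 (v 1) (v 3) (v 4) [] (m (v 0) (v 4)) (m (v 2) (v 3)) [],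
  .cyc 9682301747179640 0 (m (v 1) (v 3)) (m (v 2) (v 4)) (v 3) [(v 4), (v 0)],
  .flipA 8778495934869840 0 (v 1) (v 3) (v 4) [(v 2)] (v 0) (v 3) (v 4) [],
  .flipA 0 8529194716361520 (v 2) (v 3) (v 4) [(v 1)] (v 0) (v 4) (v 3) [],
  .cyc 8443886573986560 0 (m (v 1) (v 2)) (m (v 3) (v 4)) (v 3) [(m (v 0) (v 4))],
  .flipA 7030103912820360 0 (v 1) (v 3) (v 4) [] (v 0) (v 4) (v 3) [(v 2)],
  .flipA 0 5897756425544640 (v 0) (v 3) (v 4) [] (v 2) (v 4) (m (v 1) (v 3)) [],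
  .cyc 0 5297529560182200 (m (v 2) (v 3)) (m (v 3) (v 4)) (v 1) [(v 0), (v 4)],
  .flipA 5160565708706880 0 (v 1) (v 3) (v 4) [] (v 0) (v 3) (v 2) [(v 4)],
  .flipA 4115387147361120 0 (v 0) (v 2) (v 3) [] (m (v 1) (v 3)) (v 4) (v 4) [],
  .flipA 4045010171368320 0 (v 0) (v 3) (v 4) [(v 3)] (v 1) (v 2) (v 4) [],
  .flipA 3892541899088400 0 (v 0) (v 3) (v 4) [] (v 2) (v 4) (v 1) [(v 3)],
  .cyc 0 3966263055875160 (m (m (v 1) (v 2)) (v 0)) (m (v 3) (v 4)) (v 3) [(v 4)],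
  .flipA 0 3575573267100000 (v 1) (v 2) (v 3) [] (m (v 3) (v 4)) (v 0) (v 4) [],
  .flipA 0 3542983565285520 (v 1) (v 3) (v 4) [(v 0)] (v 3) (v 4) (v 2) [],
  .flipA 3169775741009760 0 (v 0) (v 3) (v 4) [(v 1)] (v 3) (v 4) (v 2) [],
  .cyc 0 3033757628526240 (m (v 0) (v 3)) (m (v 3) (v 4)) (v 1) [(m (v 2) (v 4))],
  .flipA 0 2909142237578400 (v 0) (v 3) (v 4) [(v 1)] (v 2) (v 3) (v 4) [],
  .cyc 1874420797156560 0 (m (v 0) (v 3)) (m (v 3) (v 4)) (v 2) [(m (v 1) (v 4))],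
  .cyc 0 1399717106951040 (m (v 0) (v 4)) (m (v 3) (v 4)) (v 1) [(m (v 2) (v 3))],
  .cyc 730965847785300 0 (m (v 1) (v 3)) (m (v 3) (v 4)) (v 4) [(v 0), (v 2)],
  .flipA 596655119147040 0 (v 2) (v 3) (v 4) [] (v 0) (v 4) (v 1) [(v 3)],
  .flipA 0 327885472044960 (v 2) (v 3) (v 4) [] (m (v 1) (v 3)) (v 4) (v 0) [],
  .cyc 195748632016056 0 (m (v 2) (v 4)) (m (v 3) (v 4)) (v 0) [(v 3), (v 1)]]

theorem chk_Comm : check 4 0 (fsc 10635778973783520 tgt_Comm) crt_Comm = true := by decide +kernel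

end Pool.Agent.H1.Mal
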