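import Pool.Agent.H1.Mal.Formal3

set_option autoImplicit false
set_option maxRecDepth 100000
namespace Pool.Agent.H1.Mal
open Tr

def tgt_F6_03 : List Tm :=
  fB (v 0) (v 1) (v 2) (v 0) (v 3) (v 0)

def crt_F6_03 : List Ce := [
  .cyc 72 0 (m (v 0) (v 1)) (m (v 0) (v 3)) (v 2) [(v 0)],
  .cyc 0 36 (m (m (v 0) (v 1)) (v 0)) (m (v 0) (v 3)) (v 2) [],
  .cyc 36 0 (m (v 0) (v 2)) (m (v 1) (v 3)) (v 0) [(v 0)],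
  .flipA 0 21 (v 0) (v 1) (v 2) [] (v 0) (v 0) (v 3) [],
  .cyc 18 0 (m (m (v 0) (v 3)) (v 0)) (m (v 0) (v 2)) (v 1) [],
  .cyc 18 0 (m (m (v 0) (v 2)) (v 0)) (m (v 0) (v 3)) (v 1) [],
  .cyc 0 18 (m (v 0) (v 2)) (m (v 0) (v 3)) (v 1) [(v 0)],
  .flipA 0 9 (v 0) (v 1) (v 3) [] (v 0) (v 0) (v 2) [],
  .flipA 6 0 (v 0) (v 2) (v 3) [] (v 0) (v 0) (v 1) []]

theorem chk_F6_03 : check 3 1 (fsc 2 tgt_F6_03) crt_F6_03 = true := by decide +kernel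

end Pool.Agent.H1.Mal
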