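import Pool.Agent.H1.Mal.Formal3

set_option autoImplicit false
set_option maxRecDepth 100000
namespace Pool.Agent.H1.Mal
open Tr

def tgt_F6s_01 : List Tm :=
  (fB (v 0) (v 1) (v 2) (v 0) (v 1) (v 3)) ++ (fB (v 3) (v 1) (v 2) (v 0) (v 1) (v 0))

def crt_F6s_01 : List Ce := [
  .cyc 0 522 (m (v 0) (v 1)) (m (v 1) (v 3)) (v 2) [(v 0)],
  .cyc 285 0 (m (v 0) (v 1)) (m (v 0) (v 1)) (v 2) [(v 3)],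
  .cyc 0 270 (m (m (v 1) (v 3)) (v 2)) (m (v 0) (v 1)) (v 0) [],
  .flipA 0 210 (v 0) (v 1) (v 2) [] (v 0) (v 3) (v 1) [],
  .cyc 0 180 (m (m (v 0) (v 2)) (v 0)) (m (v 1) (v 3)) (v 1) [],
  .cyc 165 0 (m (v 0) (v 1)) (m (v 0) (v 1)) (v 3) [(v 2)],
  .flipA 0 165 (v 1) (v 2) (v 3) [] (v 0) (v 0) (v 1) [],
  .cyc 0 144 (m (v 0) (v 1)) (m (v 0) (v 1)) (m (v 2) (v 3)) [],
  .cyc 90 0 (m (m (v 1) (v 3)) (v 0)) (m (v 0) (v 1)) (v 2) [],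
  .flipA 90 0 (v 0) (v 2) (v 3) [] (v 0) (v 1) (v 1) [],
  .cyc 0 90 (m (m (v 1) (v 3)) (v 1)) (m (v 0) (v 2)) (v 0) [],
  .cyc 0 90 (m (m (v 0) (v 2)) (v 1)) (m (v 0) (v 1)) (v 3) [],
  .cyc 90 0 (m (v 0) (v 1)) (m (v 0) (v 3)) (m (v 1) (v 2)) [],
  .cyc 0 72 (m (m (v 2) (v 3)) (v 0)) (m (v 0) (v 1)) (v 1) [],
  .cyc 72 0 (m (v 1) (v 2)) (m (v 1) (v 3)) (v 0) [(v 0)],
  .flipA 60 0 (v 0) (v 1) (v 2) [] (v 1) (v 3) (v 0) [],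
  .cyc 0 48 (m (v 1) (v 2)) (m (v 0) (v 3)) (v 1) [(v 0)],
  .flipA 30 0 (v 0) (v 1) (v 3) [] (v 1) (v 2) (v 0) []]

theorem chk_F6s_01 : check 3 1 (fsc 10 tgt_F6s_01) crt_F6s_01 = true := by decide +kernel

end Pool.Agent.H1.Mal
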