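import Pool.Agent.H1.Mal.Formal3

set_option autoImplicit false
set_option maxRecDepth 100000
namespace Pool.Agent.H1.Mal
open Tr

def tgt_F7B1 : List Tm :=
  fC (v 0) (v 1) (v 2) (v 3) (v 0) (v 1) (v 1)

def crt_F7B1 : List Ce := [
  .cyc 0 94257 (m (m (m (v 0) (v 3)) (v 2)) (v 1)) (m (v 0) (v 1)) (v 1) [],
  .cyc 62208 0 (m (m (m (v 2) (v 3)) (v 1)) (v 1)) (m (v 0) (v 1)) (v 0) [],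
  .cyc 0 48096 (m (m (v 1) (v 3)) (v 2)) (m (v 0) (v 1)) (v 0) [(v 1)],
  .cyc 46548 0 (m (v 0) (v 1)) (m (v 0) (v 1)) (v 2) [(v 3), (v 1)],
  .cyc 0 44928 (m (m (v 0) (v 1)) (v 1)) (m (v 0) (v 2)) (v 1) [(v 3)],
  .cyc 0 38088 (m (m (v 0) (v 3)) (v 0)) (m (v 1) (v 2)) (v 1) [(v 1)],
  .cyc 38016 0 (m (m (v 0) (v 1)) (v 1)) (m (v 0) (v 3)) (v 1) [(v 2)],
  .cyc 0 32832 (m (m (v 1) (v 3)) (v 1)) (m (v 0) (v 1)) (v 2) [(v 0)],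
  .cyc 27612 0 (m (v 0) (v 1)) (m (v 0) (v 1)) (m (v 2) (v 3)) [(v 1)],
  .flipA 0 26208 (v 0) (v 1) (v 3) [] (v 0) (v 1) (v 1) [(v 2)],
  .cyc 25920 0 (m (m (v 1) (v 2)) (v 1)) (m (m (v 1) (v 3)) (v 0)) (v 0) [],
  .cyc 0 25416 (m (m (v 1) (v 3)) (v 1)) (m (v 0) (v 2)) (v 0) [(v 1)],
  .cyc 0 25056 (m (m (m (v 0) (v 3)) (v 1)) (v 1)) (m (v 1) (v 2)) (v 0) [],
  .cyc 25020 0 (m (v 0) (v 1)) (m (v 0) (v 1)) (v 3) [(v 2), (v 1)],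
  .cyc 24624 0 (m (v 0) (v 1)) (m (v 1) (v 3)) (v 2) [(v 1), (v 0)],
  .flipA 24120 0 (v 0) (v 1) (v 2) [] (v 1) (v 3) (v 0) [(v 1)],
  .flipA 23616 0 (v 1) (v 2) (v 3) [] (v 0) (v 1) (v 1) [(v 0)],
  .flipA 0 21312 (v 0) (v 1) (v 3) [(v 2)] (v 0) (v 1) (v 1) [],
  .cyc 20736 0 (m (v 0) (v 1)) (m (v 2) (v 3)) (v 1) [(m (v 0) (v 1))],
  .cyc 20580 0 (m (v 0) (v 2)) (m (v 1) (v 3)) (v 0) [(v 1), (v 1)],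
  .flipA 0 19800 (v 0) (v 1) (v 2) [] (v 0) (v 3) (v 1) [(v 1)],
  .cyc 19656 0 (m (v 0) (v 1)) (m (v 0) (v 1)) (v 3) [(v 1), (v 2)],
  .cyc 0 18144 (m (v 0) (v 1)) (m (v 1) (v 3)) (v 2) [(v 0), (v 1)],
  .cyc 18144 0 (m (v 1) (v 2)) (m (v 0) (v 3)) (v 1) [(v 1), (v 0)],
  .flipA 16704 0 (v 0) (v 1) (v 2) [(v 3)] (v 0) (v 1) (v 1) [],
  .cyc 16416 0 (m (m (m (v 0) (v 3)) (v 1)) (v 1)) (m (v 0) (v 1)) (v 2) [],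
  .flipA 0 16416 (v 0) (v 1) (v 2) [(v 1)] (v 1) (v 3) (v 0) [],
  .cyc 0 16344 (m (m (v 1) (v 2)) (v 1)) (m (v 0) (v 3)) (v 0) [(v 1)],
  .flipA 13536 0 (v 0) (v 1) (v 2) [] (v 0) (v 1) (v 1) [(v 3)],
  .cyc 0 13392 (m (v 0) (v 1)) (m (v 1) (v 2)) (v 3) [(v 1), (v 0)],
  .cyc 11232 0 (m (m (m (v 0) (v 2)) (v 1)) (v 1)) (m (v 1) (v 3)) (v 0) [],
  .cyc 0 10152 (m (v 0) (v 1)) (m (v 0) (v 1)) (v 2) [(v 1), (v 3)],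
  .cyc 0 9504 (m (m (m (v 0) (v 2)) (v 1)) (v 1)) (m (v 0) (v 1)) (v 3) [],
  .flipA 0 9504 (v 0) (v 1) (v 3) [(v 1)] (v 0) (v 1) (v 2) [],
  .flipA 9216 0 (v 0) (v 1) (v 3) [(v 0)] (v 1) (v 1) (v 2) [],
  .flipA 8832 0 (v 0) (v 2) (v 3) [] (v 0) (v 1) (v 1) [(v 1)],
  .flipA 8208 0 (v 0) (v 1) (v 2) [] (v 1) (v 1) (m (v 0) (v 3)) [],
  .cyc 7146 0 (m (m (v 0) (v 3)) (v 2)) (m (v 0) (v 1)) (v 1) [(v 1)],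
  .cyc 0 7128 (m (m (v 0) (v 2)) (v 0)) (m (v 1) (v 3)) (v 1) [(v 1)],
  .flipA 0 6912 (v 1) (v 2) (v 3) [] (m (v 0) (v 1)) (v 0) (v 1) [],
  .flipA 0 6912 (v 0) (v 2) (v 3) [(v 1)] (v 0) (v 1) (v 1) [],
  .flipB 0 5760 (v 1) (v 2) (v 3) [] (m (v 0) (v 1)) (m (v 0) (v 1)) [],
  .flipA 5760 0 (v 1) (v 2) (v 3) [(v 0)] (v 0) (v 1) (v 1) [],
  .cyc 5748 0 (m (v 0) (v 2)) (m (v 0) (v 3)) (v 1) [(v 1), (v 1)],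
  .flipA 5328 0 (v 0) (v 1) (v 2) [] (v 1) (v 1) (v 3) [(v 0)],
  .cyc 0 5184 (m (m (v 0) (v 1)) (v 1)) (m (v 1) (v 3)) (v 2) [(v 0)],
  .cyc 5184 0 (m (m (v 1) (v 2)) (v 1)) (m (v 0) (v 1)) (v 3) [(v 0)],
  .cyc 5184 0 (m (m (m (v 1) (v 2)) (v 0)) (v 1)) (m (v 0) (v 3)) (v 1) [],
  .flipA 0 4752 (v 0) (v 1) (v 3) [] (v 1) (v 1) (m (v 0) (v 2)) [],
  .flipA 4752 0 (v 0) (v 1) (v 3) [] (v 1) (v 1) (v 2) [(v 0)],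
  .flipA 3912 0 (v 0) (v 1) (v 3) [] (v 1) (v 2) (v 0) [(v 1)],
  .flipA 0 3744 (v 0) (v 1) (v 2) [(v 0)] (v 1) (v 1) (v 3) [],
  .flipA 3456 0 (v 1) (v 2) (v 3) [(v 1)] (v 0) (v 0) (v 1) [],
  .cyc 2820 0 (m (v 0) (v 1)) (m (v 2) (v 3)) (v 1) [(v 0), (v 1)],
  .cyc 0 2592 (m (v 1) (v 2)) (m (v 1) (v 3)) (v 0) [(v 0), (v 1)],
  .cyc 0 2592 (m (v 0) (v 1)) (m (v 0) (v 1)) (v 3) [(m (v 1) (v 2))],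
  .flipA 864 0 (v 0) (v 1) (v 3) [(v 1)] (v 0) (v 2) (v 1) [],
  .flipA 792 0 (v 0) (v 1) (v 3) [] (v 0) (v 2) (v 1) [(v 1)]]

theorem chk_F7B1 : check 4 2 (fsc 112 tgt_F7B1) crt_F7B1 = true := by decide +kernel

end Pool.Agent.H1.Mal
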