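import Pool.Agent.H1.Mal.Formal3

set_option autoImplicit false
set_option maxRecDepth 100000
namespace Pool.Agent.H1.Mal
open Tr

def tgt_F7B2 : List Tm :=
  (fC (v 0) (v 1) (v 2) (v 3) (v 0) (v 1) (v 2)) ++ (fC (v 0) (v 1) (v 2) (v 3) (v 0) (v 2) (v 1))

def crt_F7B2 : List Ce := [
  .cyc 2513100 0 (m (v 0) (v 1)) (m (v 0) (v 2)) (v 3) [(v 2), (v 1)],
  .cyc 0 2111832 (m (m (v 1) (v 3)) (v 2)) (m (v 0) (v 1)) (v 0) [(v 2)],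
  .cyc 0 1681110 (m (m (v 2) (v 3)) (v 2)) (m (v 0) (v 1)) (v 1) [(v 0)],
  .cyc 0 1666908 (m (m (v 2) (v 3)) (v 2)) (m (v 0) (v 1)) (v 0) [(v 1)],
  .cyc 0 1440912 (m (v 0) (v 2)) (m (v 0) (v 1)) (m (v 1) (v 2)) [(v 3)],
  .cyc 1425672 0 (m (v 0) (v 1)) (m (v 0) (v 1)) (v 2) [(v 3), (v 2)],
  .cyc 0 1378080 (m (m (v 1) (v 3)) (v 1)) (m (v 0) (v 2)) (v 0) [(v 2)],
  .cyc 0 1266987 (m (v 1) (v 2)) (m (v 0) (v 3)) (v 2) [(v 1), (v 0)],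
  .flipA 0 1230948 (v 0) (v 1) (v 3) [] (v 0) (v 2) (v 2) [(v 1)],
  .cyc 0 1223568 (m (m (v 0) (v 2)) (v 2)) (m (v 0) (v 1)) (v 3) [(v 1)],
  .cyc 0 1141560 (m (v 0) (v 1)) (m (v 1) (v 3)) (v 2) [(v 0), (v 2)],
  .cyc 1046844 0 (m (m (m (v 2) (v 3)) (v 1)) (v 1)) (m (v 0) (v 2)) (v 0) [],
  .cyc 0 1024290 (m (v 1) (v 2)) (m (v 2) (v 3)) (v 0) [(v 1), (v 0)],
  .cyc 1020519 0 (m (v 0) (v 1)) (m (v 0) (v 1)) (v 3) [(v 2), (v 2)],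
  .cyc 0 929556 (m (m (m (v 2) (v 3)) (v 0)) (v 0)) (m (v 1) (v 2)) (v 1) [],
  .flipA 0 910902 (v 0) (v 1) (v 2) [] (v 0) (v 3) (v 2) [(v 1)],
  .cyc 0 867960 (m (v 0) (v 1)) (m (v 2) (v 3)) (v 2) [(v 0), (v 1)],
  .cyc 0 844506 (m (m (v 0) (v 1)) (v 1)) (m (v 2) (v 3)) (v 2) [(v 0)],
  .cyc 0 842544 (m (m (v 0) (v 2)) (v 1)) (m (v 1) (v 3)) (v 2) [(v 0)],
  .flipA 0 813078 (v 0) (v 1) (v 2) [(v 3)] (v 1) (v 2) (v 0) [],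
  .cyc 798660 0 (m (m (m (v 2) (v 3)) (v 1)) (v 2)) (m (v 0) (v 1)) (v 0) [],
  .flipA 0 773982 (v 0) (v 1) (v 2) [] (v 0) (v 3) (v 1) [(v 2)],
  .cyc 766260 0 (m (m (v 1) (v 2)) (v 2)) (m (m (v 1) (v 3)) (v 0)) (v 0) [],
  .cyc 730470 0 (m (v 0) (v 1)) (m (v 0) (v 2)) (v 2) [(v 3), (v 1)],
  .cyc 0 693540 (m (m (v 0) (v 1)) (v 2)) (m (v 0) (v 2)) (v 3) [(v 1)],
  .cyc 0 670005 (m (m (v 0) (v 2)) (v 0)) (m (v 1) (v 3)) (v 1) [(v 2)],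
  .cyc 0 663165 (m (v 1) (v 2)) (m (v 1) (v 2)) (v 3) [(v 0), (v 0)],
  .cyc 659988 0 (m (m (m (v 0) (v 3)) (v 0)) (v 1)) (m (v 1) (v 2)) (v 2) [],
  .cyc 0 647028 (m (m (m (v 0) (v 3)) (v 2)) (v 1)) (m (v 0) (v 1)) (v 2) [],
  .cyc 615600 0 (m (m (m (v 0) (v 1)) (v 1)) (v 2)) (m (v 0) (v 2)) (v 3) [],
  .cyc 615168 0 (m (v 0) (v 1)) (m (v 2) (v 3)) (v 1) [(m (v 0) (v 2))],
  .cyc 613863 0 (m (v 0) (v 1)) (m (v 2) (v 3)) (v 0) [(v 1), (v 2)],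
  .cyc 596106 0 (m (m (v 0) (v 2)) (v 1)) (m (v 1) (v 2)) (v 3) [(v 0)],
  .cyc 593568 0 (m (v 0) (v 1)) (m (v 1) (v 2)) (v 2) [(m (v 0) (v 3))],
  .cyc 0 591714 (m (v 1) (v 2)) (m (v 2) (v 3)) (v 0) [(v 0), (v 1)],
  .cyc 0 587034 (m (v 0) (v 2)) (m (v 1) (v 2)) (v 3) [(v 0), (v 1)],
  .cyc 573480 0 (m (m (m (v 2) (v 3)) (v 2)) (v 1)) (m (v 0) (v 1)) (v 0) [],
  .flipA 0 522468 (v 0) (v 2) (v 3) [(v 1)] (v 0) (v 1) (v 2) [],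
  .cyc 0 521730 (m (v 0) (v 2)) (m (v 1) (v 2)) (v 3) [(v 1), (v 0)],
  .cyc 513378 0 (m (m (v 1) (v 3)) (v 1)) (m (v 0) (v 2)) (v 2) [(v 0)],
  .cyc 0 497025 (m (v 1) (v 2)) (m (v 1) (v 2)) (m (v 0) (v 3)) [(v 0)],
  .flipA 0 478656 (v 0) (v 1) (v 3) [(v 1)] (v 0) (v 2) (v 2) [],
  .flipA 451602 0 (v 0) (v 1) (v 2) [] (v 1) (v 3) (v 0) [(v 2)],
  .flipA 0 447516 (v 0) (v 2) (v 3) [] (v 0) (v 1) (v 1) [(v 2)],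
  .cyc 446256 0 (m (m (v 0) (v 3)) (v 0)) (m (v 1) (v 2)) (v 1) [(v 2)],
  .cyc 444933 0 (m (v 0) (v 1)) (m (v 0) (v 1)) (m (v 2) (v 3)) [(v 2)],
  .flipA 0 444618 (v 0) (v 1) (v 2) [(v 2)] (v 1) (v 3) (v 0) [],
  .flipA 0 429984 (v 1) (v 2) (v 3) [(v 0)] (v 0) (v 2) (v 1) [],
  .cyc 413688 0 (m (v 0) (v 2)) (m (v 0) (v 2)) (v 3) [(v 1), (v 1)],
  .cyc 0 410832 (m (v 0) (v 2)) (m (v 1) (v 3)) (v 2) [(m (v 0) (v 1))],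
  .cyc 410184 0 (m (m (m (v 1) (v 3)) (v 2)) (v 2)) (m (v 0) (v 1)) (v 0) [],
  .cyc 409536 0 (m (v 0) (v 2)) (m (v 1) (v 2)) (v 3) [(m (v 0) (v 1))],
  .flipA 0 389124 (v 0) (v 2) (v 3) [(v 2)] (v 0) (v 1) (v 1) [],
  .cyc 0 377190 (m (m (v 0) (v 3)) (v 2)) (m (v 0) (v 1)) (v 1) [(v 2)],
  .cyc 376506 0 (m (v 0) (v 1)) (m (v 0) (v 2)) (v 3) [(v 1), (v 2)],
  .flipA 0 368790 (v 0) (v 1) (v 2) [] (v 1) (v 2) (v 0) [(v 3)],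
  .cyc 0 367092 (m (m (v 0) (v 2)) (v 1)) (m (m (v 0) (v 2)) (v 1)) (v 3) [],
  .flipA 0 360360 (v 0) (v 1) (v 3) [(v 2)] (v 0) (v 1) (v 2) [],
  .flipA 0 345600 (v 0) (v 1) (v 2) [(v 1)] (v 2) (v 3) (v 0) [],
  .flipA 343908 0 (v 1) (v 2) (v 3) [] (m (v 0) (v 2)) (v 1) (v 0) [],
  .cyc 313956 0 (m (m (v 0) (v 2)) (v 2)) (m (m (v 0) (v 3)) (v 1)) (v 1) [],
  .cyc 312696 0 (m (m (v 0) (v 1)) (v 3)) (m (v 1) (v 2)) (v 2) [(v 0)],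
  .flipB 0 311274 (v 0) (v 1) (v 2) [] (m (v 0) (v 1)) (m (v 2) (v 3)) [],
  .flipA 311274 0 (v 0) (v 1) (v 2) [(v 0)] (v 1) (v 3) (v 2) [],
  .cyc 309348 0 (m (m (v 0) (v 1)) (v 0)) (m (v 1) (v 2)) (v 2) [(v 3)],
  .flipA 307440 0 (v 0) (v 1) (v 3) [] (v 1) (v 2) (v 0) [(v 2)],
  .cyc 296280 0 (m (m (v 0) (v 1)) (v 0)) (m (v 2) (v 3)) (v 2) [(v 1)],
  .cyc 293544 0 (m (m (v 0) (v 3)) (v 2)) (m (v 1) (v 2)) (v 0) [(v 1)],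
  .flipA 282402 0 (v 0) (v 1) (v 2) [] (v 1) (v 2) (m (v 0) (v 3)) [],
  .flipA 0 274671 (v 1) (v 2) (v 3) [] (v 0) (v 0) (v 1) [(v 2)],
  .cyc 0 273456 (m (v 1) (v 2)) (m (v 0) (v 3)) (v 0) [(m (v 1) (v 2))],
  .cyc 0 272133 (m (m (v 0) (v 2)) (v 1)) (m (v 0) (v 1)) (v 3) [(v 2)],
  .cyc 268920 0 (m (m (m (v 0) (v 3)) (v 1)) (v 1)) (m (v 0) (v 2)) (v 2) [],
  .cyc 0 236880 (m (m (v 2) (v 3)) (v 1)) (m (v 0) (v 1)) (v 2) [(v 0)],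
  .cyc 222666 0 (m (v 0) (v 1)) (m (v 1) (v 3)) (v 2) [(v 2), (v 0)],
  .cyc 218034 0 (m (m (v 0) (v 2)) (v 1)) (m (v 1) (v 2)) (v 0) [(v 3)],
  .cyc 0 206064 (m (v 0) (v 1)) (m (v 2) (v 3)) (v 0) [(m (v 1) (v 2))],
  .flipA 203004 0 (v 1) (v 2) (v 3) [] (m (v 0) (v 1)) (v 2) (v 0) [],
  .cyc 0 189468 (m (m (v 0) (v 3)) (v 1)) (m (v 0) (v 2)) (v 2) [(v 1)],
  .cyc 0 182709 (m (v 0) (v 2)) (m (v 1) (v 3)) (v 1) [(v 0), (v 2)],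
  .cyc 180402 0 (m (v 0) (v 1)) (m (v 2) (v 3)) (v 0) [(v 2), (v 1)],
  .cyc 0 174888 (m (v 0) (v 1)) (m (v 1) (v 2)) (v 2) [(v 3), (v 0)],
  .flipA 169776 0 (v 0) (v 2) (v 3) [(v 0)] (v 1) (v 1) (v 2) [],
  .flipB 160506 0 (v 0) (v 1) (v 2) [] (m (v 0) (v 3)) (m (v 1) (v 2)) [],
  .flipA 148344 0 (v 0) (v 1) (v 2) [] (v 2) (v 3) (v 1) [(v 0)],
  .flipA 0 137376 (v 0) (v 2) (v 3) [] (m (v 1) (v 2)) (v 1) (v 0) [],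
  .flipA 0 137298 (v 1) (v 2) (v 3) [] (v 1) (v 2) (v 0) [(v 0)],
  .flipA 0 133488 (v 0) (v 1) (v 3) [(v 0)] (v 1) (v 2) (v 2) [],
  .flipA 0 129312 (v 0) (v 1) (v 3) [] (v 0) (v 2) (v 1) [(v 2)],
  .flipA 124164 0 (v 0) (v 2) (v 3) [(v 1)] (v 1) (v 2) (v 0) [],
  .flipA 0 122436 (v 0) (v 1) (v 3) [] (v 1) (v 2) (v 2) [(v 0)],
  .cyc 0 105927 (m (v 1) (v 2)) (m (v 1) (v 3)) (v 0) [(v 2), (v 0)],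
  .flipA 0 105840 (v 0) (v 2) (v 3) [] (v 1) (v 1) (m (v 0) (v 2)) [],
  .flipA 0 100548 (v 0) (v 1) (v 2) [] (v 1) (v 3) (m (v 0) (v 2)) [],
  .flipA 79548 0 (v 0) (v 2) (v 3) [] (v 1) (v 1) (v 2) [(v 0)],
  .cyc 0 75464 (m (v 0) (v 1)) (m (v 1) (v 2)) (v 2) [(v 0), (v 3)],
  .cyc 0 75060 (m (v 0) (v 1)) (m (v 2) (v 3)) (v 2) [(m (v 0) (v 1))],
  .flipA 0 71892 (v 0) (v 1) (v 2) [(v 3)] (v 0) (v 1) (v 2) [],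
  .cyc 0 59164 (m (v 0) (v 1)) (m (v 0) (v 2)) (v 2) [(v 1), (v 3)],
  .flipA 55674 0 (v 0) (v 1) (v 2) [] (v 2) (v 3) (v 0) [(v 1)],
  .flipA 0 55452 (v 1) (v 2) (v 3) [] (v 0) (v 0) (v 2) [(v 1)],
  .flipA 51300 0 (v 0) (v 1) (v 3) [] (v 0) (v 2) (m (v 1) (v 2)) [],
  .cyc 0 50400 (m (m (v 2) (v 3)) (v 1)) (m (v 0) (v 2)) (v 0) [(v 1)],
  .flipA 0 37440 (v 1) (v 2) (v 3) [] (v 0) (v 0) (m (v 1) (v 2)) [],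
  .cyc 37332 0 (m (v 0) (v 2)) (m (v 0) (v 3)) (v 1) [(v 1), (v 2)],
  .flipA 35640 0 (v 0) (v 1) (v 2) [] (m (v 0) (v 3)) (v 1) (v 2) [],
  .flipA 35332 0 (v 0) (v 1) (v 2) [] (v 0) (v 1) (v 2) [(v 3)],
  .flipA 30726 0 (v 1) (v 2) (v 3) [(v 2)] (v 0) (v 0) (v 1) [],
  .cyc 27858 0 (m (v 0) (v 2)) (m (v 0) (v 3)) (v 1) [(v 2), (v 1)],
  .cyc 18288 0 (m (m (v 1) (v 2)) (v 0)) (m (v 0) (v 3)) (v 2) [(v 1)],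
  .cyc 14946 0 (m (m (v 1) (v 2)) (v 0)) (m (v 0) (v 2)) (v 1) [(v 3)],
  .flipA 12576 0 (v 0) (v 2) (v 3) [] (v 0) (v 2) (v 1) [(v 1)],
  .flipA 9684 0 (v 0) (v 1) (v 3) [(v 2)] (v 0) (v 2) (v 1) [],
  .cyc 0 6333 (m (v 0) (v 2)) (m (v 1) (v 3)) (v 1) [(v 2), (v 0)],
  .cyc 0 1215 (m (v 1) (v 2)) (m (v 0) (v 3)) (v 1) [(v 0), (v 2)]]

theorem chk_F7B2 : check 4 2 (fsc 3422 tgt_F7B2) crt_F7B2 = true := by decide +kernel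

end Pool.Agent.H1.Mal
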