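import Pool.Agent.H1.Mal.Formal3

set_option autoImplicit false
set_option maxRecDepth 100000
namespace Pool.Agent.H1.Mal
open Tr

def tgt_F7Ra : List Tm :=
  fK (v 0) (v 1) (v 2) (v 3) (v 0)

def crt_F7Ra : List Ce := [
  .cyc 39904 0 (m (v 0) (v 1)) (m (v 2) (v 3)) (v 1) [(v 0), (v 0)],
  .cyc 27684 0 (m (v 0) (v 1)) (m (v 2) (v 3)) (v 0) [(m (v 0) (v 1))],
  .cyc 0 27456 (m (v 0) (v 1)) (m (v 0) (v 1)) (m (v 2) (v 3)) [(v 0)],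
  .cyc 0 23094 (m (v 0) (v 1)) (m (v 2) (v 3)) (v 0) [(v 0), (v 1)],
  .cyc 0 17954 (m (m (v 0) (v 3)) (v 0)) (m (v 0) (v 2)) (v 1) [(v 1)],
  .cyc 0 16216 (m (v 1) (v 2)) (m (v 0) (v 3)) (v 0) [(v 0), (v 1)],
  .cyc 0 15972 (m (m (v 0) (v 3)) (v 2)) (m (v 0) (v 1)) (v 1) [(v 0)],
  .cyc 14134 0 (m (m (v 0) (v 2)) (v 0)) (m (v 0) (v 3)) (v 1) [(v 1)],
  .cyc 12384 0 (m (m (m (v 0) (v 3)) (v 0)) (v 0)) (m (v 1) (v 2)) (v 1) [],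
  .cyc 12060 0 (m (m (v 0) (v 3)) (v 0)) (m (v 0) (v 1)) (v 1) [(v 2)],
  .cyc 9284 0 (m (m (v 0) (v 3)) (v 0)) (m (v 0) (v 1)) (v 2) [(v 1)],
  .flipA 9228 0 (v 0) (v 2) (v 3) [] (m (v 0) (v 1)) (v 1) (v 0) [],
  .flipA 0 8120 (v 1) (v 2) (v 3) [(v 0)] (v 0) (v 0) (v 1) [],
  .cyc 8112 0 (m (v 1) (v 2)) (m (v 0) (v 3)) (v 0) [(m (v 0) (v 1))],
  .cyc 0 8028 (m (m (m (v 1) (v 2)) (v 0)) (v 0)) (m (v 0) (v 3)) (v 1) [],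
  .cyc 7752 0 (m (v 0) (v 1)) (m (v 0) (v 1)) (v 2) [(v 3), (v 0)],
  .flipA 7355 0 (v 0) (v 1) (v 3) [] (v 0) (v 0) (v 2) [(v 1)],
  .cyc 0 7344 (m (m (v 0) (v 2)) (v 0)) (m (m (v 0) (v 3)) (v 1)) (v 1) [],
  .cyc 7272 0 (m (m (m (v 0) (v 3)) (v 0)) (v 2)) (m (v 0) (v 1)) (v 1) [],
  .cyc 0 7060 (m (m (v 0) (v 1)) (v 0)) (m (v 0) (v 3)) (v 2) [(v 1)],
  .cyc 0 6242 (m (v 1) (v 2)) (m (v 0) (v 3)) (v 0) [(v 1), (v 0)],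
  .cyc 0 5670 (m (v 0) (v 1)) (m (v 0) (v 1)) (m (v 0) (v 2)) [(v 3)],
  .cyc 0 5184 (m (m (m (v 0) (v 2)) (v 1)) (v 1)) (m (v 0) (v 3)) (v 0) [],
  .flipA 0 5088 (v 0) (v 2) (v 3) [] (v 0) (v 1) (m (v 0) (v 1)) [],
  .flipA 0 4916 (v 0) (v 2) (v 3) [] (v 0) (v 0) (v 1) [(v 1)],
  .flipA 4850 0 (v 0) (v 1) (v 2) [(v 3)] (v 0) (v 0) (v 1) [],
  .cyc 0 4725 (m (v 0) (v 1)) (m (v 0) (v 1)) (v 2) [(v 0), (v 3)],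
  .flipB 4470 0 (v 0) (v 2) (v 3) [] (m (v 0) (v 1)) (m (v 0) (v 1)) [],
  .flipA 4092 0 (v 0) (v 1) (v 3) [] (v 1) (v 2) (v 0) [(v 0)],
  .cyc 4020 0 (m (m (v 0) (v 2)) (v 3)) (m (v 0) (v 1)) (v 1) [(v 0)],
  .flipA 0 3600 (v 0) (v 1) (v 3) [(v 0)] (v 0) (v 2) (v 1) [],
  .cyc 0 3360 (m (v 0) (v 1)) (m (v 0) (v 1)) (v 3) [(v 2), (v 0)],
  .cyc 3330 0 (m (v 0) (v 1)) (m (v 0) (v 1)) (v 3) [(v 0), (v 2)],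
  .cyc 3210 0 (m (v 0) (v 2)) (m (v 0) (v 3)) (v 1) [(v 1), (v 0)],
  .flipA 3008 0 (v 0) (v 2) (v 3) [(v 1)] (v 0) (v 0) (v 1) [],
  .cyc 0 2940 (m (m (v 1) (v 3)) (v 1)) (m (v 0) (v 2)) (v 0) [(v 0)],
  .cyc 0 2916 (m (m (m (v 2) (v 3)) (v 0)) (v 0)) (m (v 0) (v 1)) (v 1) [],
  .cyc 2916 0 (m (m (m (v 1) (v 3)) (v 0)) (v 0)) (m (v 0) (v 2)) (v 1) [],
  .cyc 2844 0 (m (v 0) (v 1)) (m (v 0) (v 1)) (v 2) [(m (v 0) (v 3))],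
  .cyc 2724 0 (m (m (v 1) (v 2)) (v 1)) (m (v 0) (v 3)) (v 0) [(v 0)],
  .cyc 0 2448 (m (v 0) (v 2)) (m (v 1) (v 3)) (v 0) [(m (v 0) (v 1))],
  .flipA 0 2343 (v 0) (v 1) (v 2) [] (v 0) (v 0) (v 3) [(v 1)],
  .flipA 0 2328 (v 0) (v 1) (v 3) [] (v 0) (v 0) (m (v 1) (v 2)) [],
  .flipA 0 2318 (v 0) (v 1) (v 3) [(v 2)] (v 0) (v 0) (v 1) [],
  .flipA 2232 0 (v 0) (v 1) (v 2) [] (m (v 0) (v 1)) (v 3) (v 0) [],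
  .flipA 0 2220 (v 0) (v 1) (v 3) [] (v 0) (v 0) (v 1) [(v 2)],
  .flipA 1884 0 (v 0) (v 1) (v 2) [] (v 0) (v 0) (v 1) [(v 3)],
  .flipA 0 1728 (v 0) (v 1) (v 2) [(v 1)] (v 0) (v 0) (v 3) [],
  .cyc 1632 0 (m (v 0) (v 1)) (m (v 1) (v 3)) (v 2) [(v 0), (v 0)],
  .flipA 0 1632 (v 0) (v 1) (v 3) [] (m (v 0) (v 2)) (v 1) (v 0) [],
  .flipA 0 1560 (v 0) (v 1) (v 2) [] (m (v 0) (v 1)) (v 0) (v 3) [],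
  .flipA 0 1552 (v 1) (v 2) (v 3) [] (v 0) (v 0) (v 1) [(v 0)],
  .flipA 0 1400 (v 0) (v 1) (v 2) [] (v 1) (v 3) (v 0) [(v 0)],
  .cyc 0 1224 (m (v 0) (v 1)) (m (v 0) (v 1)) (v 3) [(m (v 0) (v 2))],
  .cyc 0 1212 (m (v 1) (v 2)) (m (v 1) (v 3)) (v 0) [(v 0), (v 0)],
  .cyc 0 1186 (m (v 0) (v 1)) (m (v 0) (v 3)) (v 2) [(v 1), (v 0)],
  .flipA 1084 0 (v 0) (v 1) (v 2) [] (v 0) (v 1) (v 3) [(v 0)],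
  .cyc 0 1008 (m (m (v 0) (v 2)) (v 0)) (m (v 1) (v 3)) (v 1) [(v 0)],
  .flipA 0 932 (v 0) (v 1) (v 3) [] (v 0) (v 2) (v 1) [(v 0)],
  .flipA 564 0 (v 0) (v 1) (v 3) [(v 1)] (v 0) (v 0) (v 2) []]

theorem chk_F7Ra : check 4 2 (fsc 88 tgt_F7Ra) crt_F7Ra = true := by decide +kernel

end Pool.Agent.H1.Mal
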