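import Pool.Agent.H1.Mal.Formal3

set_option autoImplicit false
set_option maxRecDepth 100000
namespace Pool.Agent.H1.Mal
open Tr

def tgt_F7Rc : List Tm :=
  (fK (v 0) (v 1) (v 2) (v 3) (v 2)) ++ (fC (v 0) (v 1) (v 2) (v 3) (v 0) (v 1) (v 2))

def crt_F7Rc : List Ce := [
  .cyc 26076375 0 (m (v 0) (v 1)) (m (v 0) (v 1)) (v 2) [(v 3), (v 2)],
  .cyc 20054268 0 (m (m (v 1) (v 2)) (v 1)) (m (v 0) (v 2)) (v 0) [(v 3)],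
  .cyc 19418568 0 (m (m (v 0) (v 3)) (v 0)) (m (v 1) (v 2)) (v 2) [(v 1)],
  .cyc 17905368 0 (m (m (v 1) (v 2)) (v 2)) (m (v 0) (v 3)) (v 0) [(v 1)],
  .cyc 17897724 0 (m (m (v 0) (v 2)) (v 0)) (m (v 1) (v 2)) (v 1) [(v 3)],
  .cyc 16653780 0 (m (v 0) (v 1)) (m (v 0) (v 2)) (m (v 1) (v 3)) [(v 2)],
  .cyc 16391340 0 (m (v 0) (v 1)) (m (v 2) (v 3)) (v 1) [(v 2), (v 0)],
  .cyc 0 15893748 (m (v 0) (v 1)) (m (v 1) (v 2)) (v 2) [(v 0), (v 3)],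
  .cyc 0 14890356 (m (v 0) (v 1)) (m (v 2) (v 3)) (v 0) [(m (v 1) (v 2))],
  .cyc 0 14514552 (m (m (m (v 0) (v 3)) (v 2)) (v 0)) (m (v 1) (v 2)) (v 1) [],
  .cyc 13327236 0 (m (m (v 0) (v 2)) (v 3)) (m (v 0) (v 1)) (v 1) [(v 2)],
  .cyc 12768822 0 (m (v 0) (v 2)) (m (v 2) (v 3)) (v 1) [(v 1), (v 0)],
  .cyc 0 12659634 (m (m (v 0) (v 2)) (v 0)) (m (v 1) (v 3)) (v 1) [(v 2)],
  .cyc 0 12149982 (m (v 0) (v 2)) (m (v 1) (v 2)) (v 3) [(v 0), (v 1)],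
  .flipA 0 12029862 (v 0) (v 1) (v 2) [] (v 0) (v 3) (v 1) [(v 2)],
  .cyc 0 11751048 (m (m (v 2) (v 3)) (v 2)) (m (v 0) (v 1)) (v 1) [(v 0)],
  .cyc 10555200 0 (m (v 0) (v 1)) (m (v 1) (v 2)) (v 3) [(v 2), (v 0)],
  .cyc 10372245 0 (m (v 0) (v 1)) (m (v 0) (v 1)) (v 3) [(v 2), (v 2)],
  .flipA 0 9404616 (v 1) (v 2) (v 3) [(v 0)] (v 0) (v 2) (v 1) [],
  .cyc 9270612 0 (m (m (m (v 0) (v 3)) (v 2)) (v 2)) (m (v 0) (v 1)) (v 1) [],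
  .cyc 0 8596536 (m (m (v 2) (v 3)) (v 2)) (m (v 0) (v 1)) (v 0) [(v 1)],
  .flipA 0 8538588 (v 0) (v 1) (v 3) [] (v 1) (v 2) (v 2) [(v 0)],
  .cyc 0 8484102 (m (v 1) (v 2)) (m (v 1) (v 2)) (m (v 0) (v 3)) [(v 0)],
  .flipA 0 8196864 (v 0) (v 1) (v 2) [(v 3)] (v 1) (v 2) (v 0) [],
  .flipA 8097726 0 (v 0) (v 1) (v 2) [] (v 1) (v 3) (v 0) [(v 2)],
  .cyc 7780344 0 (m (v 0) (v 1)) (m (v 0) (v 2)) (v 2) [(v 3), (v 1)],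
  .cyc 7720596 0 (m (m (m (v 0) (v 1)) (v 1)) (v 2)) (m (v 0) (v 2)) (v 3) [],
  .cyc 0 7718220 (m (m (v 0) (v 2)) (v 2)) (m (v 1) (v 3)) (v 1) [(v 0)],
  .cyc 0 7440552 (m (m (v 0) (v 1)) (v 2)) (m (v 2) (v 3)) (v 1) [(v 0)],
  .flipA 0 7271316 (v 0) (v 1) (v 3) [(v 1)] (v 0) (v 2) (v 2) [],
  .cyc 7169760 0 (m (v 1) (v 2)) (m (v 0) (v 3)) (v 2) [(m (v 0) (v 1))],
  .cyc 0 7130292 (m (m (v 2) (v 3)) (v 1)) (m (v 0) (v 2)) (v 0) [(v 1)],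
  .flipA 0 7127412 (v 0) (v 2) (v 3) [(v 2)] (v 0) (v 1) (v 1) [],
  .cyc 7115628 0 (m (v 1) (v 2)) (m (v 0) (v 3)) (v 0) [(v 2), (v 1)],
  .cyc 6991764 0 (m (m (v 0) (v 1)) (v 0)) (m (v 2) (v 3)) (v 2) [(v 1)],
  .cyc 0 6963372 (m (v 0) (v 2)) (m (v 1) (v 3)) (v 1) [(m (v 0) (v 2))],
  .cyc 6963372 0 (m (v 0) (v 1)) (m (v 0) (v 2)) (v 2) [(m (v 1) (v 3))],
  .cyc 0 6888492 (m (v 0) (v 2)) (m (v 1) (v 3)) (v 2) [(m (v 0) (v 1))],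
  .flipA 0 5719740 (v 0) (v 2) (v 3) [] (v 0) (v 2) (v 1) [(v 1)],
  .cyc 0 5471388 (m (m (v 0) (v 1)) (v 1)) (m (m (v 0) (v 3)) (v 2)) (v 2) [],
  .cyc 0 5433480 (m (m (v 1) (v 2)) (v 2)) (m (m (v 1) (v 3)) (v 0)) (v 0) [],
  .cyc 5261724 0 (m (v 0) (v 1)) (m (v 0) (v 2)) (v 2) [(v 1), (v 3)],
  .cyc 0 5163912 (m (v 0) (v 1)) (m (v 0) (v 2)) (m (v 1) (v 2)) [(v 3)],
  .flipA 4741620 0 (v 0) (v 1) (v 2) [(v 0)] (v 2) (v 3) (v 1) [],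
  .cyc 4657770 0 (m (m (v 1) (v 3)) (v 0)) (m (v 0) (v 1)) (v 2) [(v 2)],
  .cyc 0 4651998 (m (v 0) (v 1)) (m (v 0) (v 1)) (v 2) [(v 2), (v 3)],
  .flipA 4511832 0 (v 1) (v 2) (v 3) [] (m (v 0) (v 1)) (v 2) (v 0) [],
  .flipA 0 4506606 (v 1) (v 2) (v 3) [] (v 0) (v 0) (v 1) [(v 2)],
  .cyc 4403529 0 (m (v 1) (v 2)) (m (v 0) (v 3)) (v 0) [(v 1), (v 2)],
  .cyc 4288284 0 (m (m (v 0) (v 1)) (v 2)) (m (v 0) (v 1)) (v 2) [(v 3)],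
  .cyc 4194216 0 (m (v 0) (v 1)) (m (v 2) (v 3)) (v 1) [(m (v 0) (v 2))],
  .cyc 0 4108221 (m (v 0) (v 1)) (m (v 0) (v 1)) (m (v 2) (v 3)) [(v 2)],
  .cyc 0 3997422 (m (m (v 0) (v 3)) (v 0)) (m (v 1) (v 2)) (v 1) [(v 2)],
  .cyc 0 3971916 (m (m (m (v 0) (v 3)) (v 2)) (v 1)) (m (v 0) (v 1)) (v 2) [],
  .cyc 0 3791151 (m (v 0) (v 1)) (m (v 1) (v 3)) (v 2) [(v 0), (v 2)],
  .flipA 0 3740672 (v 0) (v 2) (v 3) [] (m (v 0) (v 1)) (v 2) (v 1) [],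
  .cyc 0 3664440 (m (m (v 1) (v 2)) (v 1)) (m (m (v 2) (v 3)) (v 0)) (v 0) [],
  .flipA 3483948 0 (v 0) (v 1) (v 2) [] (m (v 0) (v 2)) (v 3) (v 1) [],
  .flipA 2948380 0 (v 0) (v 2) (v 3) [] (m (v 0) (v 1)) (v 1) (v 2) [],
  .flipA 0 2936064 (v 1) (v 2) (v 3) [] (v 0) (v 1) (v 2) [(v 0)],
  .cyc 2897856 0 (m (m (v 0) (v 1)) (v 2)) (m (m (v 0) (v 1)) (v 2)) (v 3) [],
  .flipA 0 2869640 (v 0) (v 2) (v 3) [] (v 0) (v 1) (v 1) [(v 2)],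
  .flipA 0 2815800 (v 0) (v 1) (v 2) [] (m (v 0) (v 3)) (v 2) (v 1) [],
  .flipA 2794116 0 (v 0) (v 2) (v 3) [(v 1)] (v 0) (v 2) (v 1) [],
  .cyc 0 2740218 (m (v 0) (v 1)) (m (v 2) (v 3)) (v 2) [(v 0), (v 1)],
  .cyc 2641431 0 (m (v 0) (v 2)) (m (v 1) (v 3)) (v 1) [(v 0), (v 2)],
  .cyc 2539836 0 (m (m (v 0) (v 2)) (v 0)) (m (m (v 2) (v 3)) (v 1)) (v 1) [],
  .flipA 2527632 0 (v 1) (v 2) (v 3) [] (v 1) (v 2) (v 0) [(v 0)],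
  .flipA 0 2485668 (v 0) (v 2) (v 3) [(v 0)] (v 1) (v 1) (v 2) [],
  .flipA 2484612 0 (v 0) (v 1) (v 2) [(v 3)] (v 0) (v 2) (v 1) [],
  .flipA 2294526 0 (v 0) (v 1) (v 3) [] (v 1) (v 2) (v 0) [(v 2)],
  .flipA 0 2246868 (v 0) (v 1) (v 2) [(v 1)] (v 2) (v 3) (v 0) [],
  .flipA 2220660 0 (v 0) (v 1) (v 3) [(v 2)] (v 1) (v 2) (v 0) [],
  .cyc 2203092 0 (m (m (v 2) (v 3)) (v 0)) (m (v 1) (v 2)) (v 1) [(v 0)],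
  .flipA 0 2177136 (v 0) (v 1) (v 2) [] (v 1) (v 2) (v 0) [(v 3)],
  .cyc 2175420 0 (m (v 0) (v 2)) (m (v 0) (v 2)) (v 3) [(v 1), (v 1)],
  .cyc 2116413 0 (m (v 0) (v 1)) (m (v 0) (v 2)) (v 3) [(v 1), (v 2)],
  .flipA 1963104 0 (v 0) (v 2) (v 3) [] (m (v 1) (v 2)) (v 0) (v 1) [],
  .cyc 0 1905498 (m (v 1) (v 2)) (m (v 1) (v 2)) (v 3) [(v 0), (v 0)],
  .cyc 0 1904058 (m (v 1) (v 2)) (m (v 0) (v 3)) (v 1) [(v 0), (v 2)],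
  .cyc 0 1853712 (m (m (v 1) (v 3)) (v 0)) (m (v 1) (v 2)) (v 2) [(v 0)],
  .cyc 0 1842672 (m (v 0) (v 1)) (m (v 2) (v 3)) (v 0) [(v 2), (v 1)],
  .flipA 0 1702948 (v 0) (v 1) (v 2) [] (v 0) (v 3) (v 2) [(v 1)],
  .cyc 0 1659177 (m (v 0) (v 2)) (m (v 0) (v 3)) (v 1) [(v 1), (v 2)],
  .cyc 1619694 0 (m (v 0) (v 1)) (m (v 1) (v 3)) (v 2) [(v 2), (v 0)],
  .flipA 0 1569984 (v 0) (v 1) (v 2) [] (v 0) (v 2) (m (v 1) (v 3)) [],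
  .cyc 1543776 0 (m (v 0) (v 2)) (m (v 0) (v 2)) (m (v 1) (v 3)) [(v 1)],
  .flipA 1533168 0 (v 0) (v 1) (v 3) [(v 0)] (v 1) (v 2) (v 2) [],
  .flipA 1517724 0 (v 0) (v 1) (v 3) [] (m (v 0) (v 1)) (v 2) (v 2) [],
  .cyc 1516320 0 (m (m (m (v 2) (v 3)) (v 0)) (v 1)) (m (v 0) (v 2)) (v 1) [],
  .cyc 0 1396908 (m (v 0) (v 1)) (m (v 1) (v 2)) (v 2) [(v 3), (v 0)],
  .flipB 1382628 0 (v 1) (v 2) (v 3) [] (m (v 0) (v 1)) (m (v 0) (v 2)) [],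
  .flipA 1340560 0 (v 1) (v 2) (v 3) [] (v 0) (v 0) (v 2) [(v 1)],
  .cyc 1326780 0 (m (m (v 2) (v 3)) (v 0)) (m (v 0) (v 1)) (v 2) [(v 1)],
  .cyc 0 1325142 (m (m (v 1) (v 2)) (v 1)) (m (v 0) (v 3)) (v 0) [(v 2)],
  .flipA 0 1274748 (v 0) (v 2) (v 3) [] (m (v 1) (v 2)) (v 1) (v 0) [],
  .flipA 0 1220934 (v 1) (v 2) (v 3) [(v 1)] (v 0) (v 0) (v 2) [],
  .flipA 0 1194960 (v 1) (v 2) (v 3) [(v 2)] (v 0) (v 0) (v 1) [],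
  .flipA 0 1158300 (v 0) (v 1) (v 2) [] (m (v 0) (v 2)) (v 1) (v 3) [],
  .cyc 1137864 0 (m (m (v 0) (v 1)) (v 3)) (m (v 0) (v 2)) (v 2) [(v 1)],
  .flipA 0 1099800 (v 0) (v 1) (v 3) [(v 2)] (v 0) (v 1) (v 2) [],
  .flipA 0 893496 (v 0) (v 1) (v 2) [] (v 2) (v 3) (v 1) [(v 0)],
  .flipA 850512 0 (v 0) (v 1) (v 2) [] (v 0) (v 3) (m (v 1) (v 2)) [],
  .flipA 0 812906 (v 0) (v 2) (v 3) [] (v 1) (v 1) (m (v 0) (v 2)) [],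
  .flipA 0 812736 (v 0) (v 1) (v 2) [] (v 1) (v 3) (v 2) [(v 0)],
  .cyc 0 758160 (m (v 0) (v 1)) (m (v 0) (v 1)) (v 2) [(m (v 2) (v 3))],
  .flipA 0 751140 (v 0) (v 1) (v 2) [(v 2)] (v 0) (v 3) (v 1) [],
  .flipA 0 690066 (v 0) (v 1) (v 3) [] (v 0) (v 2) (v 1) [(v 2)],
  .cyc 0 661464 (m (v 1) (v 2)) (m (v 0) (v 3)) (v 2) [(v 1), (v 0)],
  .cyc 614484 0 (m (v 1) (v 2)) (m (v 0) (v 3)) (v 0) [(m (v 1) (v 2))],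
  .cyc 558684 0 (m (m (v 1) (v 3)) (v 1)) (m (v 0) (v 2)) (v 2) [(v 0)],
  .flipA 0 505440 (v 0) (v 1) (v 2) [(v 0)] (v 1) (v 3) (v 2) [],
  .flipA 0 505440 (v 0) (v 1) (v 2) [(v 1)] (v 0) (v 2) (v 3) [],
  .cyc 453804 0 (m (v 1) (v 2)) (m (v 0) (v 3)) (v 2) [(v 0), (v 1)],
  .flipA 0 392964 (v 0) (v 1) (v 2) [] (v 0) (v 2) (v 3) [(v 1)],
  .cyc 362232 0 (m (v 1) (v 2)) (m (v 0) (v 3)) (v 1) [(m (v 0) (v 2))],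
  .cyc 362232 0 (m (m (m (v 0) (v 2)) (v 2)) (v 1)) (m (v 0) (v 1)) (v 3) [],
  .flipA 258180 0 (v 1) (v 2) (v 3) [] (v 0) (v 0) (m (v 1) (v 2)) [],
  .cyc 0 251784 (m (v 0) (v 1)) (m (v 1) (v 2)) (v 2) [(m (v 0) (v 3))],
  .flipA 83928 0 (v 0) (v 1) (v 2) [(v 2)] (v 1) (v 3) (v 0) [],
  .flipA 0 78832 (v 0) (v 1) (v 3) [] (v 0) (v 2) (v 2) [(v 1)]]

theorem chk_F7Rc : check 4 2 (fsc 45188 tgt_F7Rc) crt_F7Rc = true := by decide +kernel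

end Pool.Agent.H1.Mal
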