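import Pool.Agent.H1.Mal.Formal2

set_option autoImplicit false
set_option maxRecDepth 100000
namespace Pool.Agent.H1.Mal
open Tr

def tgt_H1 : List Tm :=
  (fE (v 3) (v 3) (m (v 0) (v 1)) (m (v 0) (v 2)) (v 4)) ++ ((fE (v 3) (v 3) (m (v 1) (m (v 0) (v 2))) (v 0) (v 4)) ++ ((fE (v 3) (v 3) (m (m (v 0) (v 2)) (v 0)) (v 1) (v 4)) ++ ((fneg (fE (v 3) (v 3) (v 0) (v 1) (m (v 4) (m (v 0) (v 2))))) ++ ((fneg (fE (v 3) (v 3) (v 1) (m (v 0) (v 2)) (m (v 4) (v 0)))) ++ ((fneg (fE (v 3) (v 3) (m (v 0) (v 2)) (v 0) (m (v 4) (v 1)))) ++ ((fE (v 3) (v 3) (m (v 0) (v 1)) (v 2) (m (v 4) (v 0))) ++ ((fE (v 3) (v 3) (m (v 1) (v 2)) (v 0) (m (v 4) (v 0))) ++ ((fE (v 3) (v 3) (m (v 2) (v 0)) (v 1) (m (v 4) (v 0))) ++ ((fneg (fE (v 3) (v 3) (v 0) (v 1) (m (m (v 4) (v 0)) (v 2))))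 ++ ((fneg (fE (v 3) (v 3) (v 1) (v 2) (m (m (v 4) (v 0)) (v 0)))) ++ ((fneg (fE (v 3) (v 3) (v 2) (v 0) (m (m (v 4) (v 0)) (v 1)))) ++ ((fneg (fE (v 3) (v 3) (m (m (v 0) (v 1)) (v 2)) (v 0) (v 4))) ++ ((fneg (fE (v 3) (v 3) (m (m (v 1) (v 2)) (v 0)) (v 0) (v 4))) ++ ((fneg (fE (v 3) (v 3) (m (m (v 2) (v 0)) (v 1)) (v 0) (v 4))) ++ ((fneg (fE (v 3) (v 3) (v 0) (v 2) (m (m (v 4) (v 0)) (v 1)))) ++ ((fneg (fE (v 3) (v 3) (v 0) (v 2) (m (m (v 0) (v 1)) (v 4)))) ++ (fneg (fE (v 3) (v 3) (v 0) (v 2) (m (m (v 1) (v 4)) (v 0))))))))))))))))))))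

def crt_H1 : List Ce := [
  .cyc 2195424 0 (m (v 0) (v 2)) (m (v 0) (v 4)) (v 3) [(v 3), (v 1)],
  .cyc 2176944 0 (m (m (v 1) (v 3)) (v 3)) (m (v 0) (v 4)) (v 0) [(v 2)],
  .cyc 2015244 0 (m (v 1) (v 2)) (m (v 0) (v 4)) (v 0) [(v 3), (v 3)],
  .cyc 1933542 0 (m (v 1) (v 3)) (m (v 0) (v 4)) (v 2) [(v 3), (v 0)],
  .cyc 1841472 0 (m (v 0) (v 2)) (m (v 1) (v 3)) (v 4) [(v 3), (v 0)],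
  .cyc 1746360 0 (m (m (v 1) (v 3)) (v 3)) (m (v 0) (v 2)) (v 0) [(v 4)],
  .cyc 1615152 0 (m (m (v 0) (v 4)) (v 0)) (m (v 1) (v 3)) (v 3) [(v 2)],
  .cyc 1410024 0 (m (v 1) (v 3)) (m (v 0) (v 4)) (v 3) [(v 0), (v 2)],
  .cyc 0 1368576 (m (m (v 1) (v 4)) (v 3)) (m (v 2) (v 3)) (v 0) [(v 0)],
  .cyc 1338606 0 (m (m (v 1) (v 2)) (v 3)) (m (v 3) (v 4)) (v 0) [(v 0)],
  .cyc 1302048 0 (m (m (v 1) (v 4)) (v 3)) (m (v 0) (v 3)) (v 2) [(v 0)],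
  .cyc 0 1245024 (m (m (v 0) (v 2)) (v 3)) (m (v 3) (v 4)) (v 1) [(v 0)],
  .cyc 1214028 0 (m (m (v 1) (v 2)) (v 3)) (m (v 0) (v 3)) (v 4) [(v 0)],
  .cyc 1147608 0 (m (m (v 1) (v 2)) (v 3)) (m (v 0) (v 3)) (v 0) [(v 4)],
  .cyc 0 1102230 (m (v 0) (v 1)) (m (v 3) (v 4)) (v 3) [(v 2), (v 0)],
  .cyc 1060164 0 (m (v 0) (v 2)) (m (v 1) (v 4)) (v 3) [(v 3), (v 0)],
  .cyc 1056132 0 (m (m (v 0) (v 4)) (v 1)) (m (v 2) (v 3)) (v 0) [(v 3)],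
  .cyc 0 1056132 (m (m (v 0) (v 2)) (v 1)) (m (v 3) (v 4)) (v 0) [(v 3)],
  .cyc 979440 0 (m (m (v 3) (v 4)) (v 3)) (m (v 0) (v 1)) (v 0) [(v 2)],
  .flipA 948024 0 (v 0) (v 1) (v 3) [(v 3)] (v 0) (v 2) (v 4) [],
  .cyc 948024 0 (m (m (v 0) (v 1)) (v 3)) (m (v 0) (v 3)) (v 2) [(v 4)],
  .flipA 0 931392 (v 0) (v 1) (v 2) [(v 3)] (v 3) (v 4) (v 0) [],
  .cyc 0 924669 (m (m (v 0) (v 4)) (v 3)) (m (v 1) (v 3)) (v 2) [(v 0)],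
  .cyc 912834 0 (m (v 0) (v 1)) (m (v 2) (v 3)) (v 3) [(v 4), (v 0)],
  .cyc 0 898128 (m (v 2) (v 3)) (m (v 3) (v 4)) (v 0) [(m (v 0) (v 1))],
  .flipA 887724 0 (v 0) (v 3) (v 4) [(v 3)] (v 0) (v 2) (v 1) [],
  .cyc 866412 0 (m (v 0) (v 3)) (m (v 1) (v 4)) (v 3) [(v 2), (v 0)],
  .cyc 848232 0 (m (m (v 0) (v 2)) (v 0)) (m (v 1) (v 3)) (v 3) [(v 4)],
  .cyc 835296 0 (m (v 0) (v 1)) (m (v 3) (v 4)) (v 3) [(v 0), (v 2)],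
  .flipA 0 833256 (v 0) (v 1) (v 3) [] (v 2) (v 4) (v 3) [(v 0)],
  .flipA 0 814968 (v 0) (v 1) (v 4) [(v 3)] (v 2) (v 3) (v 0) [],
  .flipA 798336 0 (v 0) (v 1) (v 4) [] (m (v 0) (v 2)) (v 3) (v 3) [],
  .cyc 798336 0 (m (v 0) (v 2)) (m (v 0) (v 3)) (v 3) [(m (v 1) (v 4))],
  .cyc 0 796356 (m (v 1) (v 2)) (m (v 0) (v 3)) (v 4) [(v 3), (v 0)],
  .cyc 0 765072 (m (v 0) (v 3)) (m (v 1) (v 3)) (v 2) [(v 0), (v 4)],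
  .cyc 0 757680 (m (v 0) (v 3)) (m (v 0) (v 3)) (m (v 1) (v 4)) [(v 2)],
  .cyc 757017 0 (m (v 1) (v 2)) (m (v 0) (v 3)) (v 3) [(v 4), (v 0)],
  .cyc 0 718956 (m (v 0) (v 3)) (m (v 1) (v 4)) (v 2) [(v 3), (v 0)],
  .cyc 681885 0 (m (m (v 0) (v 4)) (v 3)) (m (v 2) (v 3)) (v 1) [(v 0)],
  .cyc 0 672672 (m (v 0) (v 2)) (m (v 0) (v 4)) (v 1) [(v 3), (v 3)],
  .cyc 0 672672 (m (m (v 0) (v 1)) (v 4)) (m (v 0) (v 3)) (v 3) [(v 2)],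
  .cyc 0 641520 (m (m (v 0) (v 2)) (v 3)) (m (v 1) (v 3)) (v 4) [(v 0)],
  .cyc 0 609378 (m (v 0) (v 1)) (m (v 0) (v 4)) (v 3) [(v 2), (v 3)],
  .cyc 598824 0 (m (v 2) (v 3)) (m (v 3) (v 4)) (v 0) [(v 1), (v 0)],
  .cyc 598752 0 (m (m (v 2) (v 3)) (v 0)) (m (v 0) (v 4)) (v 3) [(v 1)],
  .cyc 0 598752 (m (m (v 3) (v 4)) (v 0)) (m (v 0) (v 2)) (v 3) [(v 1)],
  .cyc 598752 0 (m (m (v 0) (v 4)) (v 3)) (m (v 2) (v 3)) (v 0) [(v 1)],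
  .cyc 0 598752 (m (m (v 0) (v 2)) (v 3)) (m (v 3) (v 4)) (v 0) [(v 1)],
  .cyc 582120 0 (m (v 0) (v 1)) (m (v 0) (v 3)) (v 3) [(v 2), (v 4)],
  .flipA 575892 0 (v 0) (v 3) (v 4) [] (v 0) (v 3) (m (v 1) (v 2)) [],
  .cyc 567336 0 (m (m (v 0) (v 1)) (v 0)) (m (v 3) (v 4)) (v 3) [(v 2)],
  .cyc 0 548856 (m (m (v 2) (v 3)) (v 3)) (m (v 0) (v 1)) (v 0) [(v 4)],
  .flipA 540540 0 (v 1) (v 2) (v 3) [(v 3)] (v 0) (v 0) (v 4) [],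
  .flipA 0 532224 (v 0) (v 2) (v 3) [] (v 3) (v 4) (m (v 0) (v 1)) [],
  .cyc 0 521136 (m (m (v 2) (v 3)) (v 0)) (m (v 0) (v 1)) (v 4) [(v 3)],
  .cyc 521136 0 (m (m (v 3) (v 4)) (v 0)) (m (v 0) (v 1)) (v 2) [(v 3)],
  .cyc 0 507276 (m (v 0) (v 3)) (m (v 1) (v 4)) (v 0) [(v 3), (v 2)],
  .cyc 0 498960 (m (v 0) (v 1)) (m (v 2) (v 3)) (v 3) [(v 0), (v 4)],
  .flipA 0 498960 (v 0) (v 2) (v 3) [] (v 0) (v 3) (m (v 1) (v 4)) [],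
  .flipA 455292 0 (v 0) (v 3) (v 4) [] (v 2) (v 3) (m (v 0) (v 1)) [],
  .cyc 453114 0 (m (v 0) (v 4)) (m (v 2) (v 3)) (m (v 1) (v 3)) [(v 0)],
  .cyc 449064 0 (m (m (m (v 0) (v 1)) (v 2)) (v 3)) (m (v 0) (v 4)) (v 3) [],
  .cyc 449064 0 (m (m (m (v 0) (v 1)) (v 4)) (v 3)) (m (v 0) (v 2)) (v 3) [],
  .cyc 449064 0 (m (m (m (v 1) (v 2)) (v 0)) (v 3)) (m (v 0) (v 4)) (v 3) [],
  .cyc 449064 0 (m (m (m (v 1) (v 4)) (v 0)) (v 3)) (m (v 0) (v 2)) (v 3) [],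
  .cyc 440748 0 (m (v 0) (v 1)) (m (v 0) (v 2)) (v 3) [(v 3), (v 4)],
  .cyc 437184 0 (m (v 0) (v 2)) (m (v 1) (v 3)) (m (v 3) (v 4)) [(v 0)],
  .flipA 0 435204 (v 0) (v 1) (v 4) [] (v 2) (v 3) (v 0) [(v 3)],
  .cyc 417648 0 (m (v 0) (v 1)) (m (v 0) (v 3)) (v 3) [(v 4), (v 2)],
  .cyc 407484 0 (m (v 0) (v 2)) (m (v 1) (v 4)) (v 3) [(v 0), (v 3)],
  .cyc 404712 0 (m (m (v 2) (v 3)) (v 0)) (m (v 0) (v 4)) (v 1) [(v 3)],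
  .cyc 0 404712 (m (m (v 3) (v 4)) (v 0)) (m (v 0) (v 2)) (v 1) [(v 3)],
  .cyc 0 399168 (m (m (v 0) (v 2)) (v 3)) (m (v 0) (v 3)) (v 1) [(v 4)],
  .flipA 0 399168 (v 0) (v 1) (v 2) [] (v 3) (v 3) (m (v 0) (v 4)) [],
  .cyc 0 399168 (m (v 0) (v 3)) (m (v 0) (v 3)) (v 4) [(m (v 1) (v 2))],
  .cyc 0 399168 (m (v 0) (v 2)) (m (v 0) (v 3)) (v 3) [(v 4), (v 1)],
  .flipA 399168 0 (v 0) (v 1) (v 4) [(v 0)] (v 2) (v 3) (v 3) [],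
  .cyc 0 390852 (m (m (v 0) (v 1)) (v 4)) (m (v 2) (v 3)) (v 0) [(v 3)],
  .cyc 390852 0 (m (m (v 0) (v 1)) (v 2)) (m (v 3) (v 4)) (v 0) [(v 3)],
  .cyc 0 374220 (m (v 0) (v 1)) (m (v 0) (v 3)) (v 2) [(v 3), (v 4)],
  .cyc 0 370116 (m (v 2) (v 3)) (m (v 0) (v 4)) (v 3) [(v 1), (v 0)],
  .flipA 337320 0 (v 0) (v 3) (v 4) [] (v 1) (v 2) (v 3) [(v 0)],
  .cyc 333564 0 (m (v 0) (v 2)) (m (v 0) (v 4)) (v 3) [(v 1), (v 3)],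
  .flipA 332640 0 (v 0) (v 2) (v 3) [] (v 1) (v 3) (m (v 0) (v 4)) [],
  .cyc 324324 0 (m (v 0) (v 1)) (m (v 2) (v 3)) (v 0) [(v 3), (v 4)],
  .flipA 0 322236 (v 0) (v 3) (v 4) [] (v 1) (v 3) (m (v 0) (v 2)) [],
  .flipA 0 320184 (v 0) (v 3) (v 4) [] (m (v 0) (v 1)) (v 3) (v 2) [],
  .cyc 0 299376 (m (v 1) (v 3)) (m (v 0) (v 4)) (v 3) [(m (v 0) (v 2))],
  .cyc 0 299376 (m (v 0) (v 2)) (m (v 1) (v 3)) (v 3) [(m (v 0) (v 4))],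
  .flipA 298692 0 (v 0) (v 3) (v 4) [] (v 0) (v 2) (v 1) [(v 3)],
  .cyc 285363 0 (m (v 1) (v 3)) (m (v 2) (v 3)) (v 0) [(v 4), (v 0)],
  .flipA 0 285048 (v 0) (v 2) (v 3) [] (v 1) (v 4) (v 3) [(v 0)],
  .cyc 0 282744 (m (v 0) (v 1)) (m (v 3) (v 4)) (v 0) [(m (v 2) (v 3))],
  .cyc 0 282744 (m (v 0) (v 1)) (m (v 2) (v 3)) (v 0) [(m (v 3) (v 4))],
  .flipA 270072 0 (v 1) (v 3) (v 4) [] (v 2) (v 3) (v 0) [(v 0)],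
  .flipA 0 266112 (v 0) (v 2) (v 3) [] (v 3) (v 4) (v 0) [(v 1)],
  .flipA 256872 0 (v 0) (v 1) (v 4) [] (v 0) (v 2) (v 3) [(v 3)],
  .cyc 0 249480 (m (v 0) (v 3)) (m (v 1) (v 4)) (v 2) [(m (v 0) (v 3))],
  .cyc 0 249480 (m (v 1) (v 2)) (m (v 0) (v 3)) (v 4) [(m (v 0) (v 3))],
  .flipA 0 249480 (v 0) (v 1) (v 3) [(v 3)] (v 0) (v 4) (v 2) [],
  .cyc 0 249480 (m (m (m (v 0) (v 4)) (v 1)) (v 3)) (m (v 2) (v 3)) (v 0) [],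
  .flipA 249480 0 (v 0) (v 1) (v 2) [] (v 0) (v 3) (v 3) [(v 4)],
  .cyc 249480 0 (m (m (m (v 0) (v 2)) (v 1)) (v 3)) (m (v 3) (v 4)) (v 0) [],
  .cyc 0 246762 (m (v 2) (v 3)) (m (v 3) (v 4)) (v 1) [(v 0), (v 0)],
  .cyc 0 245322 (m (v 0) (v 3)) (m (v 1) (v 4)) (v 0) [(v 2), (v 3)],
  .flipA 0 243936 (v 0) (v 1) (v 3) [] (v 0) (v 4) (v 2) [(v 3)],
  .flipA 232848 0 (v 0) (v 2) (v 3) [] (m (v 0) (v 1)) (v 3) (v 4) [],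
  .cyc 230538 0 (m (v 0) (v 2)) (m (v 0) (v 3)) (v 1) [(v 4), (v 3)],
  .flipA 224532 0 (v 0) (v 1) (v 2) [] (v 0) (v 4) (v 3) [(v 3)],
  .cyc 0 210210 (m (v 0) (v 1)) (m (v 2) (v 3)) (v 0) [(v 4), (v 3)],
  .flipA 209988 0 (v 0) (v 3) (v 4) [(v 0)] (v 2) (v 3) (v 1) [],
  .flipA 207592 0 (v 0) (v 1) (v 4) [] (v 0) (v 3) (v 3) [(v 2)],
  .flipB 199584 0 (v 0) (v 1) (v 3) [] (m (v 0) (v 4)) (m (v 2) (v 3)) [],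
  .flipA 199584 0 (v 0) (v 2) (v 3) [(v 1)] (v 3) (v 4) (v 0) [],
  .cyc 199584 0 (m (v 0) (v 3)) (m (v 0) (v 3)) (v 4) [(v 2), (v 1)],
  .flipA 0 199584 (v 0) (v 2) (v 3) [(v 4)] (v 1) (v 3) (v 0) [],
  .cyc 0 199584 (m (m (v 0) (v 1)) (v 0)) (m (v 2) (v 3)) (v 3) [(v 4)],
  .cyc 190080 0 (m (m (v 0) (v 3)) (v 2)) (m (v 1) (v 4)) (v 3) [(v 0)],
  .cyc 190080 0 (m (m (v 1) (v 3)) (v 2)) (m (v 0) (v 4)) (v 3) [(v 0)],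
  .cyc 0 190080 (m (m (v 2) (v 3)) (v 0)) (m (v 1) (v 4)) (v 3) [(v 0)],
  .cyc 184005 0 (m (m (v 0) (v 4)) (v 3)) (m (v 1) (v 2)) (v 3) [(v 0)],
  .cyc 182952 0 (m (v 0) (v 2)) (m (v 0) (v 3)) (v 3) [(v 1), (v 4)],
  .cyc 182952 0 (m (m (v 1) (v 3)) (v 0)) (m (v 0) (v 2)) (v 4) [(v 3)],
  .cyc 182952 0 (m (v 0) (v 2)) (m (v 1) (v 3)) (v 3) [(v 0), (v 4)],
  .cyc 182952 0 (m (m (v 1) (v 3)) (v 0)) (m (v 0) (v 4)) (v 2) [(v 3)],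
  .flipA 0 182028 (v 0) (v 1) (v 2) [] (v 0) (v 3) (v 4) [(v 3)],
  .flipB 177408 0 (v 1) (v 2) (v 3) [] (m (v 0) (v 3)) (m (v 0) (v 4)) [],
  .flipA 0 166320 (v 0) (v 3) (v 4) [(v 3)] (v 1) (v 2) (v 0) [],
  .flipA 166320 0 (v 0) (v 2) (v 3) [] (m (v 1) (v 4)) (v 3) (v 0) [],
  .flipA 0 166320 (v 0) (v 3) (v 4) [] (m (v 1) (v 2)) (v 3) (v 0) [],
  .flipA 0 166320 (v 0) (v 2) (v 3) [(v 3)] (v 0) (v 1) (v 4) [],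
  .cyc 159390 0 (m (m (v 1) (v 4)) (v 0)) (m (v 0) (v 3)) (v 2) [(v 3)],
  .cyc 159390 0 (m (m (v 1) (v 2)) (v 0)) (m (v 0) (v 3)) (v 4) [(v 3)],
  .cyc 149688 0 (m (m (m (v 0) (v 2)) (v 1)) (v 3)) (m (v 0) (v 3)) (v 4) [],
  .cyc 149688 0 (m (m (m (v 0) (v 4)) (v 1)) (v 3)) (m (v 0) (v 3)) (v 2) [],
  .flipB 149688 0 (v 0) (v 1) (v 4) [] (m (v 0) (v 3)) (m (v 2) (v 3)) [],
  .flipA 0 149688 (v 0) (v 1) (v 2) [(v 4)] (v 0) (v 3) (v 3) [],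
  .flipA 0 149688 (v 0) (v 2) (v 3) [] (v 0) (v 1) (v 3) [(v 4)],
  .flipA 0 149688 (v 1) (v 2) (v 3) [(v 0)] (v 0) (v 3) (v 4) [],
  .cyc 149688 0 (m (m (v 0) (v 1)) (v 3)) (m (v 0) (v 3)) (v 4) [(v 2)],
  .cyc 0 146070 (m (m (v 2) (v 3)) (v 1)) (m (v 0) (v 4)) (v 3) [(v 0)],
  .flipA 0 141372 (v 1) (v 2) (v 3) [] (v 0) (v 0) (m (v 3) (v 4)) [],
  .flipA 141132 0 (v 0) (v 3) (v 4) [] (v 0) (v 3) (v 1) [(v 2)],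
  .flipA 133980 0 (v 0) (v 2) (v 3) [] (v 0) (v 4) (v 1) [(v 3)],
  .flipA 0 133056 (v 0) (v 2) (v 3) [(v 0)] (v 3) (v 4) (v 1) [],
  .flipA 0 128744 (v 0) (v 1) (v 3) [] (v 0) (v 4) (v 3) [(v 2)],
  .cyc 125664 0 (m (m (v 3) (v 4)) (v 1)) (m (v 0) (v 3)) (v 0) [(v 2)],
  .flipA 0 124740 (v 0) (v 1) (v 2) [(v 0)] (v 3) (v 3) (v 4) [],
  .flipA 0 122652 (v 0) (v 3) (v 4) [(v 1)] (v 2) (v 3) (v 0) [],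
  .flipA 122652 0 (v 0) (v 3) (v 4) [(v 2)] (v 1) (v 3) (v 0) [],
  .cyc 0 121044 (m (v 0) (v 1)) (m (v 0) (v 4)) (v 3) [(v 3), (v 2)],
  .cyc 0 119043 (m (v 1) (v 3)) (m (v 2) (v 3)) (v 4) [(v 0), (v 0)],
  .flipA 0 116424 (v 1) (v 3) (v 4) [] (v 0) (v 0) (m (v 2) (v 3)) [],
  .flipA 116424 0 (v 0) (v 1) (v 4) [(v 3)] (v 0) (v 3) (v 2) [],
  .flipA 0 116424 (v 0) (v 1) (v 2) [(v 3)] (v 0) (v 4) (v 3) [],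
  .flipA 115632 0 (v 0) (v 2) (v 3) [] (v 3) (v 4) (v 1) [(v 0)],
  .flipA 112112 0 (v 1) (v 3) (v 4) [] (v 0) (v 0) (v 3) [(v 2)],
  .flipA 110880 0 (v 1) (v 3) (v 4) [] (v 0) (v 0) (v 2) [(v 3)],
  .cyc 99792 0 (m (v 1) (v 3)) (m (v 0) (v 4)) (v 0) [(v 3), (v 2)],
  .flipA 99792 0 (v 0) (v 1) (v 3) [] (v 3) (v 4) (m (v 0) (v 2)) [],
  .flipA 0 99792 (v 0) (v 1) (v 3) [] (v 0) (v 2) (m (v 3) (v 4)) [],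
  .flipA 0 99792 (v 0) (v 1) (v 3) [] (v 2) (v 3) (v 4) [(v 0)],
  .flipA 0 99792 (v 0) (v 2) (v 3) [(v 1)] (v 0) (v 3) (v 4) [],
  .flipA 99792 0 (v 0) (v 3) (v 4) [(v 1)] (v 0) (v 3) (v 2) [],
  .cyc 0 99792 (m (v 2) (v 3)) (m (v 3) (v 4)) (v 0) [(v 0), (v 1)],
  .flipA 99792 0 (v 1) (v 3) (v 4) [(v 0)] (v 0) (v 3) (v 2) [],
  .cyc 99792 0 (m (m (m (v 0) (v 1)) (v 4)) (v 3)) (m (v 2) (v 3)) (v 0) [],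
  .cyc 0 99792 (m (m (m (v 1) (v 2)) (v 0)) (v 3)) (m (v 3) (v 4)) (v 0) [],
  .cyc 99792 0 (m (m (m (v 1) (v 4)) (v 0)) (v 3)) (m (v 2) (v 3)) (v 0) [],
  .cyc 0 99792 (m (m (m (v 0) (v 1)) (v 2)) (v 3)) (m (v 3) (v 4)) (v 0) [],
  .flipA 0 88704 (v 1) (v 2) (v 3) [] (v 0) (v 0) (v 3) [(v 4)],
  .flipA 87336 0 (v 0) (v 3) (v 4) [] (m (v 2) (v 3)) (v 1) (v 0) [],
  .flipA 83160 0 (v 0) (v 2) (v 3) [] (v 1) (v 3) (v 0) [(v 4)],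
  .flipA 0 83160 (v 0) (v 1) (v 3) [] (v 2) (v 3) (v 0) [(v 4)],
  .flipA 0 83160 (v 0) (v 1) (v 3) [] (v 2) (v 4) (m (v 0) (v 3)) [],
  .flipA 76932 0 (v 0) (v 3) (v 4) [] (v 0) (v 3) (v 2) [(v 1)],
  .cyc 0 72072 (m (m (v 1) (v 4)) (v 0)) (m (v 0) (v 2)) (v 3) [(v 3)],
  .flipB 0 66528 (v 0) (v 2) (v 3) [] (m (v 0) (v 3)) (m (v 1) (v 4)) [],
  .flipA 66528 0 (v 0) (v 2) (v 3) [(v 0)] (v 1) (v 3) (v 4) [],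
  .flipA 66528 0 (v 0) (v 2) (v 3) [(v 3)] (v 0) (v 4) (v 1) [],
  .cyc 66528 0 (m (v 0) (v 2)) (m (v 3) (v 4)) (v 1) [(v 0), (v 3)],
  .cyc 0 66528 (m (v 2) (v 3)) (m (v 0) (v 4)) (v 1) [(v 0), (v 3)],
  .cyc 0 66528 (m (m (v 0) (v 1)) (v 3)) (m (v 2) (v 3)) (v 4) [(v 0)],
  .cyc 66528 0 (m (m (v 0) (v 1)) (v 3)) (m (v 3) (v 4)) (v 2) [(v 0)],
  .flipA 55440 0 (v 1) (v 2) (v 3) [(v 0)] (v 3) (v 4) (v 0) [],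
  .flipA 55440 0 (v 0) (v 1) (v 3) [] (v 0) (v 2) (v 4) [(v 3)],
  .flipA 0 54576 (v 1) (v 3) (v 4) [] (v 0) (v 2) (v 3) [(v 0)],
  .flipA 0 54208 (v 0) (v 3) (v 4) [] (v 1) (v 3) (v 0) [(v 2)],
  .cyc 49896 0 (m (v 0) (v 3)) (m (v 1) (v 3)) (v 4) [(m (v 0) (v 2))],
  .flipA 0 49896 (v 0) (v 1) (v 3) [(v 2)] (v 0) (v 3) (v 4) [],
  .cyc 49896 0 (m (v 0) (v 3)) (m (v 1) (v 3)) (v 2) [(m (v 0) (v 4))],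
  .flipA 0 49896 (v 1) (v 3) (v 4) [] (v 0) (v 3) (m (v 0) (v 2)) [],
  .flipA 0 49896 (v 0) (v 1) (v 3) [(v 4)] (v 0) (v 2) (v 3) [],
  .flipA 49896 0 (v 0) (v 1) (v 3) [(v 2)] (v 3) (v 4) (v 0) [],
  .cyc 0 49896 (m (v 1) (v 3)) (m (v 2) (v 3)) (v 0) [(m (v 0) (v 4))],
  .cyc 49896 0 (m (v 1) (v 3)) (m (v 3) (v 4)) (v 0) [(m (v 0) (v 2))],
  .flipA 0 45720 (v 0) (v 3) (v 4) [] (v 2) (v 3) (v 0) [(v 1)],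
  .flipA 0 45486 (v 1) (v 2) (v 3) [] (v 0) (v 3) (v 4) [(v 0)],
  .cyc 0 44010 (m (m (v 1) (v 3)) (v 3)) (m (v 0) (v 4)) (v 2) [(v 0)],
  .flipA 0 43428 (v 0) (v 2) (v 3) [] (v 1) (v 4) (v 0) [(v 3)],
  .cyc 0 42966 (m (m (v 1) (v 2)) (v 0)) (m (v 0) (v 4)) (v 3) [(v 3)],
  .cyc 42426 0 (m (v 1) (v 3)) (m (v 3) (v 4)) (v 0) [(v 2), (v 0)],
  .flipA 0 41580 (v 1) (v 3) (v 4) [(v 2)] (v 0) (v 0) (v 3) [],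
  .flipA 41580 0 (v 1) (v 2) (v 3) [(v 4)] (v 0) (v 0) (v 3) [],
  .cyc 0 40656 (m (v 0) (v 3)) (m (v 0) (v 3)) (v 4) [(v 1), (v 2)],
  .cyc 0 38700 (m (v 2) (v 3)) (m (v 1) (v 4)) (v 0) [(v 3), (v 0)],
  .cyc 35112 0 (m (v 0) (v 2)) (m (v 1) (v 3)) (v 0) [(v 4), (v 3)],
  .cyc 34020 0 (m (v 0) (v 3)) (m (v 3) (v 4)) (v 2) [(v 1), (v 0)],
  .cyc 0 33264 (m (v 0) (v 1)) (m (v 0) (v 2)) (v 3) [(m (v 3) (v 4))],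
  .cyc 33264 0 (m (v 0) (v 1)) (m (v 0) (v 4)) (v 3) [(m (v 2) (v 3))],
  .flipA 33264 0 (v 1) (v 3) (v 4) [] (m (v 0) (v 2)) (v 3) (v 0) [],
  .flipA 33264 0 (v 1) (v 3) (v 4) [(v 3)] (v 0) (v 0) (v 2) [],
  .flipA 0 33264 (v 1) (v 2) (v 3) [] (m (v 0) (v 4)) (v 3) (v 0) [],
  .flipA 33264 0 (v 0) (v 1) (v 3) [] (v 0) (v 2) (v 3) [(v 4)],
  .flipA 0 33264 (v 0) (v 1) (v 3) [] (m (v 0) (v 4)) (v 3) (v 2) [],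
  .flipA 0 33264 (v 0) (v 1) (v 3) [] (m (v 0) (v 2)) (v 3) (v 4) [],
  .cyc 29970 0 (m (m (v 1) (v 2)) (v 0)) (m (v 3) (v 4)) (v 3) [(v 0)],
  .cyc 29106 0 (m (m (v 1) (v 2)) (v 0)) (m (v 3) (v 4)) (v 0) [(v 3)],
  .cyc 0 29106 (m (m (v 1) (v 4)) (v 3)) (m (v 0) (v 2)) (v 0) [(v 3)],
  .cyc 0 28080 (m (v 1) (v 2)) (m (v 3) (v 4)) (m (v 0) (v 3)) [(v 0)],
  .cyc 27720 0 (m (v 1) (v 2)) (m (v 0) (v 4)) (v 3) [(v 0), (v 3)],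
  .flipA 23100 0 (v 0) (v 3) (v 4) [] (v 0) (v 1) (v 2) [(v 3)],
  .flipA 20808 0 (v 0) (v 3) (v 4) [(v 0)] (v 1) (v 3) (v 2) [],
  .cyc 19404 0 (m (v 2) (v 3)) (m (v 1) (v 4)) (v 0) [(v 0), (v 3)],
  .flipA 0 18480 (v 0) (v 1) (v 3) [] (v 0) (v 3) (v 4) [(v 2)],
  .flipA 16632 0 (v 0) (v 1) (v 3) [(v 0)] (v 2) (v 4) (v 3) [],
  .flipA 16020 0 (v 0) (v 1) (v 4) [] (v 2) (v 3) (v 3) [(v 0)],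
  .cyc 0 14784 (m (v 0) (v 3)) (m (v 0) (v 4)) (v 1) [(v 2), (v 3)],
  .flipA 13770 0 (v 1) (v 2) (v 3) [] (v 0) (v 4) (v 3) [(v 0)],
  .flipA 9360 0 (v 1) (v 2) (v 4) [] (v 0) (v 3) (v 3) [(v 0)],
  .flipA 9360 0 (v 0) (v 2) (v 4) [] (v 1) (v 3) (v 3) [(v 0)],
  .cyc 7335 0 (m (v 1) (v 2)) (m (v 3) (v 4)) (v 3) [(v 0), (v 0)],
  .flipA 6660 0 (v 0) (v 1) (v 2) [] (v 3) (v 3) (v 4) [(v 0)],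
  .flipA 4680 0 (v 2) (v 3) (v 4) [] (v 0) (v 1) (v 3) [(v 0)]]

theorem chk_H1 : check 4 0 (fsc 199584 tgt_H1) crt_H1 = true := by decide +kernel

end Pool.Agent.H1.Mal
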