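import Pool.Agent.H1.Mal.Formal2

set_option autoImplicit false
set_option maxRecDepth 100000
namespace Pool.Agent.H1.Mal
open Tr

def tgt_H3 : List Tm :=
  (fE (v 3) (v 3) (m (v 0) (v 1)) (v 2) (v 4)) ++ ((fE (v 3) (v 3) (m (v 1) (v 2)) (v 0) (v 4)) ++ ((fE (v 3) (v 3) (m (v 2) (v 0)) (v 1) (v 4)) ++ ((fneg (fE (v 3) (v 3) (v 0) (v 1) (m (v 4) (v 2)))) ++ ((fneg (fE (v 3) (v 3) (v 1) (v 2) (m (v 4) (v 0)))) ++ ((fneg (fE (v 3) (v 3) (v 2) (v 0) (m (v 4) (v 1)))) ++ ((fneg (fsc 3 (fG (v 3) (v 3) (fJ (v 0) (v 1) (v 2)) (v 4)))) ++ ((fsc 3 (fG (v 3) (v 3) (fJ (v 4) (v 1) (v 2)) (v 0))) ++ ((fsc 3 (fG (v 3) (v 3) (fJ (v 4) (v 2) (v 0)) (v 1))) ++ (fsc 3 (fG (v 3) (v 3) (fJ (v 4) (v 0) (v 1)) (v 2)))))))))))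

def crt_H3 : List Ce := [
  .cyc 0 18 (m (m (v 2) (v 3)) (v 3)) (m (v 1) (v 4)) (v 0) [],
  .cyc 0 18 (m (m (v 1) (v 3)) (v 3)) (m (v 0) (v 4)) (v 2) [],
  .cyc 18 0 (m (m (v 3) (v 4)) (v 3)) (m (v 0) (v 2)) (v 1) [],
  .cyc 0 18 (m (m (v 0) (v 3)) (v 3)) (m (v 1) (v 2)) (v 4) [],
  .cyc 0 9 (m (m (v 0) (v 3)) (v 3)) (m (v 2) (v 4)) (v 1) [],
  .flipA 9 0 (v 0) (v 1) (v 2) [] (v 3) (v 3) (v 4) [],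
  .cyc 9 0 (m (v 2) (v 3)) (m (v 3) (v 4)) (v 1) [(v 0)],
  .cyc 9 0 (m (v 0) (v 3)) (m (v 1) (v 3)) (v 4) [(v 2)],
  .cyc 9 0 (m (v 0) (v 3)) (m (v 1) (v 3)) (v 2) [(v 4)],
  .cyc 0 9 (m (m (v 2) (v 3)) (v 3)) (m (v 0) (v 1)) (v 4) [],
  .cyc 9 0 (m (m (v 1) (v 3)) (v 3)) (m (v 2) (v 4)) (v 0) [],
  .cyc 0 9 (m (m (v 3) (v 4)) (v 3)) (m (v 0) (v 1)) (v 2) [],
  .cyc 9 0 (m (v 2) (v 3)) (m (v 3) (v 4)) (v 0) [(v 1)],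
  .cyc 6 0 (m (v 2) (v 3)) (m (v 1) (v 4)) (v 0) [(v 3)],
  .cyc 6 0 (m (v 1) (v 2)) (m (v 0) (v 3)) (v 4) [(v 3)],
  .cyc 6 0 (m (v 0) (v 1)) (m (v 3) (v 4)) (v 2) [(v 3)],
  .flipA 0 3 (v 1) (v 3) (v 4) [] (v 0) (v 2) (v 3) [],
  .flipA 3 0 (v 0) (v 2) (v 3) [] (v 1) (v 4) (v 3) [],
  .flipA 0 3 (v 0) (v 3) (v 4) [] (v 1) (v 2) (v 3) [],
  .cyc 3 0 (m (v 0) (v 3)) (m (v 2) (v 4)) (v 1) [(v 3)],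
  .flipA 3 0 (v 1) (v 2) (v 3) [] (v 0) (v 4) (v 3) [],
  .cyc 0 3 (m (v 1) (v 3)) (m (v 2) (v 4)) (v 0) [(v 3)],
  .cyc 0 3 (m (v 2) (v 3)) (m (v 0) (v 4)) (v 1) [(v 3)],
  .cyc 0 3 (m (v 0) (v 2)) (m (v 3) (v 4)) (v 1) [(v 3)],
  .cyc 3 0 (m (v 1) (v 3)) (m (v 0) (v 4)) (v 2) [(v 3)],
  .cyc 0 3 (m (v 0) (v 2)) (m (v 1) (v 3)) (v 4) [(v 3)]]

theorem chk_H3 : check 3 0 (fsc 2 tgt_H3) crt_H3 = true := by decide +kernel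

end Pool.Agent.H1.Mal
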