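import Pool.Agent.H1.Mal.Formal2

set_option autoImplicit false
set_option maxRecDepth 100000
namespace Pool.Agent.H1.Mal
open Tr

def tgt_H4 : List Tm :=
  (fE (v 3) (v 3) (v 0) (v 1) (m (v 0) (v 2))) ++ (fneg (fsc 3 (fG (v 3) (v 3) (fJ (v 0) (v 1) (v 2)) (v 0))))

def crt_H4 : List Ce := [
  .cyc 0 6 (m (m (v 0) (v 3)) (v 3)) (m (v 0) (v 2)) (v 1) [],
  .cyc 0 6 (m (m (v 0) (v 1)) (v 2)) (m (v 0) (v 3)) (v 3) [],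
  .cyc 0 4 (m (v 0) (v 1)) (m (v 0) (v 3)) (v 2) [(v 3)],
  .cyc 0 3 (m (v 1) (v 3)) (m (v 2) (v 3)) (v 0) [(v 0)],
  .cyc 0 3 (m (v 0) (v 3)) (m (v 0) (v 3)) (m (v 1) (v 2)) [],
  .cyc 0 3 (m (m (v 0) (v 2)) (v 3)) (m (v 0) (v 1)) (v 3) [],
  .cyc 3 0 (m (v 0) (v 3)) (m (v 1) (v 3)) (m (v 0) (v 2)) [],
  .cyc 0 2 (m (v 1) (v 2)) (m (v 0) (v 3)) (v 3) [(v 0)],
  .flipA 0 2 (v 0) (v 2) (v 3) [] (v 0) (v 3) (v 1) [],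
  .flipA 2 0 (v 0) (v 1) (v 3) [] (v 2) (v 3) (v 0) [],
  .cyc 2 0 (m (v 0) (v 1)) (m (v 0) (v 3)) (v 3) [(v 2)],
  .cyc 0 1 (m (v 0) (v 2)) (m (v 0) (v 3)) (v 3) [(v 1)],
  .cyc 1 0 (m (v 0) (v 1)) (m (v 0) (v 2)) (v 3) [(v 3)],
  .cyc 0 1 (m (v 0) (v 1)) (m (v 2) (v 3)) (v 0) [(v 3)]]

theorem chk_H4 : check 3 0 (fsc 1 tgt_H4) crt_H4 = true := by decide +kernel

end Pool.Agent.H1.Mal
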