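import Pool.Agent.H1.Mal.Formal2

set_option autoImplicit false
set_option maxRecDepth 100000
namespace Pool.Agent.H1.Mal
open Tr

def tgt_K1 : List Tm :=
  (fmul (fE (v 4) (v 4) (v 1) (v 2) (v 3)) (m (v 0) (v 1))) ++ ((fneg (fsc 3 (fG (v 4) (v 4) (fJ (v 1) (v 2) (v 3)) (m (v 0) (v 1))))) ++ ((fmul (fmul (fE (v 4) (v 4) (v 1) (v 2) (v 3)) (v 0)) (v 1)) ++ (fmul (fneg (fsc 3 (fG (v 4) (v 4) (fJ (v 1) (v 2) (v 3)) (v 0)))) (v 1))))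

def crt_K1 : List Ce := [
  .cyc 94050186870104363051712 0 (m (v 0) (v 1)) (m (v 2) (v 3)) (v 1) [(v 4), (v 4)],
  .flipA 0 67092054313674120030728 (v 1) (v 2) (v 3) [] (m (v 0) (v 1)) (v 4) (v 4) [],
  .cyc 0 52587320920441838198001 (m (v 1) (v 3)) (m (v 0) (v 4)) (v 4) [(v 2), (v 1)],
  .cyc 49109654120750111203884 0 (m (m (v 0) (v 2)) (v 4)) (m (v 3) (v 4)) (v 1) [(v 1)],
  .flipA 0 47555301879256602468224 (v 1) (v 2) (v 3) [] (v 0) (v 4) (v 4) [(v 1)],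
  .cyc 0 41727145072055860213911 (m (m (v 1) (v 3)) (v 4)) (m (v 2) (v 4)) (v 0) [(v 1)],
  .cyc 40018682702455652404962 0 (m (m (v 0) (v 3)) (v 4)) (m (v 1) (v 4)) (v 2) [(v 1)],
  .cyc 39788827506248754081423 0 (m (v 0) (v 4)) (m (v 2) (v 4)) (v 1) [(v 3), (v 1)],
  .cyc 0 39534455329629852667140 (m (m (v 2) (v 3)) (v 1)) (m (v 0) (v 4)) (v 4) [(v 1)],
  .cyc 36049984064020176705684 0 (m (m (v 2) (v 3)) (v 4)) (m (v 1) (v 4)) (v 0) [(v 1)],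
  .cyc 0 34500381410954194844121 (m (m (v 1) (v 2)) (v 3)) (m (v 0) (v 4)) (v 4) [(v 1)],
  .cyc 34271449293912623996178 0 (m (v 2) (v 3)) (m (v 0) (v 4)) (v 4) [(v 1), (v 1)],
  .cyc 33768647828853921056576 0 (m (v 0) (v 2)) (m (v 1) (v 4)) (v 4) [(v 1), (v 3)],
  .cyc 0 31511815726413552580134 (m (m (v 0) (v 1)) (v 4)) (m (v 3) (v 4)) (v 2) [(v 1)],
  .cyc 0 31402139720876234797848 (m (v 2) (v 3)) (m (v 1) (v 4)) (v 4) [(m (v 0) (v 1))],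
  .flipA 31289337209048496261184 0 (v 1) (v 3) (v 4) [] (v 0) (v 2) (v 4) [(v 1)],
  .flipA 0 31138475264302464532616 (v 2) (v 3) (v 4) [] (v 0) (v 1) (v 4) [(v 1)],
  .cyc 0 30336842760484030328526 (m (v 0) (v 2)) (m (v 3) (v 4)) (v 1) [(v 4), (v 1)],
  .cyc 30239248035254833034808 0 (m (v 1) (v 2)) (m (v 0) (v 3)) (v 4) [(v 4), (v 1)],
  .flipA 0 29529712754079425305352 (v 1) (v 2) (v 3) [(v 1)] (v 0) (v 4) (v 4) [],
  .cyc 0 29282670955772257600656 (m (v 1) (v 4)) (m (v 2) (v 4)) (v 3) [(v 1), (v 0)],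
  .cyc 0 29219582692118407365504 (m (v 2) (v 3)) (m (v 1) (v 4)) (v 1) [(v 0), (v 4)],
  .flipA 0 29019960020589573965200 (v 2) (v 3) (v 4) [(v 4)] (v 0) (v 1) (v 1) [],
  .cyc 27220083250487532615024 0 (m (v 2) (v 3)) (m (v 1) (v 4)) (v 4) [(v 0), (v 1)],
  .flipA 0 26741266642085911112768 (v 0) (v 1) (v 2) [] (v 1) (v 4) (v 4) [(v 3)],
  .cyc 0 26680507583444395969320 (m (v 0) (v 1)) (m (v 2) (v 3)) (v 4) [(m (v 1) (v 4))],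
  .flipA 0 26175911661539223974392 (v 1) (v 2) (v 4) [] (v 0) (v 3) (v 4) [(v 1)],
  .cyc 25773355715152651871616 0 (m (m (v 1) (v 3)) (v 2)) (m (m (v 0) (v 1)) (v 4)) (v 4) [],
  .cyc 25294010244225285567501 0 (m (m (v 1) (v 2)) (v 4)) (m (v 3) (v 4)) (v 0) [(v 1)],
  .cyc 25240581005093995147776 0 (m (m (v 2) (v 4)) (v 1)) (m (v 3) (v 4)) (v 1) [(v 0)],
  .cyc 0 24192839271742500760128 (m (m (v 3) (v 4)) (v 2)) (m (v 0) (v 1)) (v 1) [(v 4)],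
  .cyc 23578554739172968276440 0 (m (v 1) (v 2)) (m (v 0) (v 4)) (v 3) [(v 1), (v 4)],
  .cyc 22925207995135834542336 0 (m (m (v 2) (v 3)) (v 4)) (m (v 0) (v 1)) (v 1) [(v 4)],
  .flipA 22319147918653726773904 0 (v 2) (v 3) (v 4) [(v 1)] (v 0) (v 4) (v 1) [],
  .cyc 21272865890003805044490 0 (m (v 0) (v 3)) (m (v 2) (v 4)) (v 1) [(v 4), (v 1)],
  .cyc 20472609842318671797432 0 (m (v 0) (v 1)) (m (v 3) (v 4)) (v 2) [(v 4), (v 1)],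
  .cyc 20463718136972276466396 0 (m (m (v 3) (v 4)) (v 0)) (m (v 1) (v 2)) (v 4) [(v 1)],
  .cyc 0 20419965765281864139672 (m (v 1) (v 2)) (m (v 3) (v 4)) (v 4) [(m (v 0) (v 1))],
  .cyc 20128413123885957543840 0 (m (v 0) (v 1)) (m (v 1) (v 4)) (v 2) [(v 4), (v 3)],
  .cyc 19758828221816817818880 0 (m (m (m (v 1) (v 2)) (v 0)) (v 1)) (m (v 3) (v 4)) (v 4) [],
  .cyc 19028405210101812585216 0 (m (m (v 2) (v 4)) (v 1)) (m (v 1) (v 3)) (v 0) [(v 4)],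
  .cyc 19012500660584991096576 0 (m (m (v 1) (v 4)) (v 2)) (m (v 3) (v 4)) (v 0) [(v 1)],
  .cyc 0 18823094442787583071692 (m (v 1) (v 3)) (m (v 2) (v 4)) (v 4) [(v 0), (v 1)],
  .cyc 18601351886143645826688 0 (m (m (v 3) (v 4)) (v 2)) (m (v 1) (v 4)) (v 1) [(v 0)],
  .cyc 0 18251516136422856223872 (m (m (v 2) (v 4)) (v 3)) (m (v 1) (v 4)) (v 1) [(v 0)],
  .cyc 17994689967008099489856 0 (m (v 0) (v 2)) (m (v 1) (v 3)) (v 4) [(v 1), (v 4)],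
  .cyc 0 17742541274266737144696 (m (v 0) (v 1)) (m (v 1) (v 4)) (v 3) [(m (v 2) (v 4))],
  .cyc 17714782362150686382336 0 (m (v 2) (v 3)) (m (v 1) (v 4)) (v 0) [(m (v 1) (v 4))],
  .cyc 0 17322182618013608984064 (m (m (m (v 3) (v 4)) (v 4)) (v 1)) (m (v 0) (v 1)) (v 2) [],
  .cyc 0 17229938731580345025744 (m (m (v 1) (v 4)) (v 0)) (m (v 2) (v 4)) (v 3) [(v 1)],
  .cyc 17077572607778523259128 0 (m (v 0) (v 2)) (m (v 1) (v 4)) (v 3) [(v 4), (v 1)],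
  .cyc 16973362668466664748288 0 (m (m (v 0) (v 1)) (v 4)) (m (v 1) (v 2)) (v 3) [(v 4)],
  .cyc 16687764575352914522418 0 (m (m (v 0) (v 1)) (v 4)) (m (v 2) (v 4)) (v 3) [(v 1)],
  .cyc 16660678107127552751376 0 (m (m (v 3) (v 4)) (v 4)) (m (v 1) (v 2)) (v 0) [(v 1)],
  .cyc 16603635601874940435792 0 (m (v 1) (v 3)) (m (v 2) (v 4)) (v 4) [(m (v 0) (v 1))],
  .cyc 0 16601084204023420539864 (m (v 0) (v 1)) (m (v 2) (v 4)) (v 3) [(v 1), (v 4)],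
  .cyc 0 16582481907506435209392 (m (v 1) (v 3)) (m (v 0) (v 4)) (v 1) [(v 2), (v 4)],
  .cyc 0 16201470578023299848454 (m (m (v 0) (v 2)) (v 4)) (m (v 1) (v 4)) (v 3) [(v 1)],
  .cyc 16032385539976526925144 0 (m (v 1) (v 2)) (m (v 0) (v 4)) (v 4) [(m (v 1) (v 3))],
  .cyc 16001160588469984337280 0 (m (v 0) (v 1)) (m (v 1) (v 4)) (v 2) [(m (v 3) (v 4))],
  .flipB 0 15965570895462787174288 (v 1) (v 2) (v 3) [] (m (v 0) (v 4)) (m (v 1) (v 4)) [],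
  .cyc 0 15798818148922947576132 (m (m (v 0) (v 3)) (v 4)) (m (v 2) (v 4)) (v 1) [(v 1)],
  .cyc 0 15608250641860408346136 (m (v 2) (v 3)) (m (v 1) (v 4)) (v 1) [(m (v 0) (v 4))],
  .flipA 15449222070104994768176 0 (v 1) (v 3) (v 4) [(v 2)] (v 1) (v 4) (v 0) [],
  .flipA 15445404204030914000776 0 (v 1) (v 2) (v 4) [(v 4)] (v 1) (v 3) (v 0) [],
  .cyc 15438509856186878507904 0 (m (m (v 2) (v 4)) (v 4)) (m (v 1) (v 3)) (v 1) [(v 0)],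
  .flipA 15352415841557523679178 0 (v 1) (v 2) (v 4) [] (v 3) (v 4) (v 0) [(v 1)],
  .cyc 15328309447614492081792 0 (m (m (v 3) (v 4)) (v 1)) (m (v 0) (v 2)) (v 1) [(v 4)],
  .cyc 0 15237273341719258160736 (m (v 1) (v 2)) (m (v 3) (v 4)) (v 0) [(v 4), (v 1)],
  .cyc 15019451079492914510976 0 (m (m (m (v 0) (v 4)) (v 4)) (v 2)) (m (v 1) (v 3)) (v 1) [],
  .flipA 14761335903864159589216 0 (v 1) (v 3) (v 4) [] (m (v 0) (v 1)) (v 4) (v 2) [],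
  .flipA 0 14709644306746885228232 (v 1) (v 2) (v 4) [(v 3)] (v 1) (v 4) (v 0) [],
  .cyc 0 14627120334655115491776 (m (m (v 3) (v 4)) (v 1)) (m (v 1) (v 2)) (v 0) [(v 4)],
  .cyc 14453332205650959676632 0 (m (v 1) (v 3)) (m (v 2) (v 4)) (v 1) [(m (v 0) (v 4))],
  .cyc 0 14444733531566300796288 (m (m (v 3) (v 4)) (v 4)) (m (v 0) (v 1)) (v 1) [(v 2)],
  .cyc 0 13972703271742472325120 (m (m (v 1) (v 2)) (v 3)) (m (v 0) (v 1)) (v 4) [(v 4)],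
  .cyc 0 13868080910615487811344 (m (v 1) (v 2)) (m (v 1) (v 4)) (v 3) [(v 0), (v 4)],
  .flipA 13725736171841819618838 0 (v 0) (v 1) (v 4) [] (v 2) (v 3) (v 4) [(v 1)],
  .cyc 13407692426901898699392 0 (m (m (v 1) (v 2)) (v 1)) (m (m (v 0) (v 3)) (v 4)) (v 4) [],
  .flipA 13322324559495272750208 0 (v 0) (v 1) (v 2) [] (v 3) (v 4) (m (v 1) (v 4)) [],
  .cyc 13224855394091562683904 0 (m (m (v 0) (v 3)) (v 1)) (m (v 1) (v 2)) (v 4) [(v 4)],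
  .flipA 0 13223196257213187798928 (v 2) (v 3) (v 4) [] (v 0) (v 1) (v 1) [(v 4)],
  .cyc 0 13206454143387734376576 (m (m (v 1) (v 3)) (v 1)) (m (m (v 0) (v 2)) (v 4)) (v 4) [],
  .cyc 13125304584373942441728 0 (m (m (v 1) (v 2)) (m (v 1) (v 3))) (m (v 0) (v 4)) (v 4) [],
  .cyc 0 13113022321296272409960 (m (v 1) (v 2)) (m (v 3) (v 4)) (v 1) [(v 4), (v 0)],
  .cyc 0 12801930486721172968512 (m (v 1) (v 2)) (m (v 1) (v 4)) (v 4) [(v 0), (v 3)],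
  .cyc 12740816935043425683720 0 (m (m (v 0) (v 4)) (v 4)) (m (v 2) (v 3)) (v 1) [(v 1)],
  .cyc 12690689555533966879563 0 (m (m (v 1) (v 3)) (v 2)) (m (v 0) (v 4)) (v 4) [(v 1)],
  .flipA 0 12649646137122729753118 (v 1) (v 3) (v 4) [] (v 2) (v 4) (v 0) [(v 1)],
  .cyc 12512357467611327236728 0 (m (v 0) (v 4)) (m (v 1) (v 4)) (v 2) [(v 1), (v 3)],
  .cyc 0 12271111733953158323328 (m (m (m (v 0) (v 3)) (v 1)) (v 2)) (m (v 1) (v 4)) (v 4) [],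
  .cyc 11818046080752838857216 0 (m (v 0) (v 1)) (m (v 2) (v 4)) (m (v 1) (v 3)) [(v 4)],
  .cyc 0 11772758222817102296832 (m (m (v 0) (v 1)) (v 1)) (m (v 2) (v 4)) (v 4) [(v 3)],
  .cyc 0 11667700708779216471552 (m (m (v 1) (v 3)) (v 1)) (m (v 2) (v 4)) (v 4) [(v 0)],
  .flipA 0 11666727643767917221904 (v 1) (v 3) (v 4) [(v 4)] (v 1) (v 2) (v 0) [],
  .cyc 11459451516303183981120 0 (m (v 0) (v 1)) (m (v 3) (v 4)) (v 1) [(v 4), (v 2)],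
  .cyc 0 11440961194353885642240 (m (m (m (v 0) (v 1)) (v 3)) (v 4)) (m (v 1) (v 2)) (v 4) [],
  .flipA 0 11130376322443487869932 (v 0) (v 1) (v 2) [] (v 3) (v 4) (v 4) [(v 1)],
  .cyc 11024472198837982974336 0 (m (m (m (v 2) (v 3)) (v 1)) (v 4)) (m (v 0) (v 1)) (v 4) [],
  .flipB 10995725112810944972544 0 (v 0) (v 1) (v 2) [] (m (v 1) (v 4)) (m (v 3) (v 4)) [],
  .cyc 0 10847229900793722486816 (m (m (v 2) (v 4)) (v 1)) (m (v 0) (v 4)) (v 1) [(v 3)],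
  .flipA 0 10810708620656511588488 (v 2) (v 3) (v 4) [] (m (v 0) (v 1)) (v 4) (v 1) [],
  .flipA 0 10481189601302137087688 (v 1) (v 2) (v 4) [] (m (v 0) (v 1)) (v 4) (v 3) [],
  .flipA 0 10307792446652495598336 (v 0) (v 1) (v 2) [(v 4)] (v 1) (v 4) (v 3) [],
  .flipA 0 10136523437025320120430 (v 0) (v 2) (v 4) [] (v 1) (v 3) (v 4) [(v 1)],
  .flipA 10124051193260978276744 0 (v 2) (v 3) (v 4) [] (m (v 1) (v 4)) (v 0) (v 1) [],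
  .cyc 10064435839364479262976 0 (m (m (m (v 1) (v 3)) (v 1)) (v 4)) (m (v 0) (v 4)) (v 2) [],
  .cyc 9943057756375468276032 0 (m (m (m (v 2) (v 3)) (v 1)) (v 0)) (m (v 1) (v 4)) (v 4) [],
  .cyc 0 9874743102779583854736 (m (v 0) (v 1)) (m (v 3) (v 4)) (v 1) [(v 2), (v 4)],
  .cyc 9766373285667636778584 0 (m (v 0) (v 1)) (m (v 1) (v 2)) (v 4) [(v 3), (v 4)],
  .flipA 9661352803688979408368 0 (v 1) (v 2) (v 3) [(v 4)] (v 0) (v 1) (v 4) [],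
  .cyc 0 9544175483526700248960 (m (m (m (v 0) (v 3)) (v 4)) (v 1)) (m (v 2) (v 4)) (v 1) [],
  .cyc 0 9539767497954494601216 (m (v 1) (v 3)) (m (v 0) (v 4)) (v 4) [(m (v 1) (v 2))],
  .cyc 9500940037957797786240 0 (m (m (m (v 0) (v 2)) (v 1)) (v 3)) (m (v 1) (v 4)) (v 4) [],
  .cyc 9382548607223084796672 0 (m (m (m (v 0) (v 4)) (v 4)) (v 1)) (m (v 1) (v 2)) (v 3) [],
  .cyc 0 9279640867832678615508 (m (m (v 2) (v 4)) (v 0)) (m (v 1) (v 3)) (v 4) [(v 1)],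
  .flipA 0 9162582088315527584640 (v 0) (v 2) (v 3) [] (v 1) (v 4) (v 4) [(v 1)],
  .flipA 9099252742902550136064 0 (v 1) (v 3) (v 4) [] (v 1) (v 4) (v 2) [(v 0)],
  .cyc 0 9085599398906750034432 (m (m (m (v 2) (v 4)) (v 4)) (v 3)) (m (v 0) (v 1)) (v 1) [],
  .flipA 0 9083801263187769787936 (v 0) (v 2) (v 3) [(v 1)] (v 1) (v 4) (v 4) [],
  .cyc 0 9074179830759194601216 (m (m (v 0) (v 4)) (v 1)) (m (v 1) (v 3)) (v 2) [(v 4)],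
  .cyc 0 9000923707490426966304 (m (m (v 0) (v 4)) (v 2)) (m (v 1) (v 4)) (v 1) [(v 3)],
  .cyc 0 8905805737404663547608 (m (v 0) (v 1)) (m (v 1) (v 2)) (v 4) [(v 4), (v 3)],
  .cyc 8895745955095960210896 0 (m (v 2) (v 3)) (m (v 1) (v 4)) (v 0) [(v 1), (v 4)],
  .cyc 8742578564994955364736 0 (m (m (m (v 2) (v 4)) (v 4)) (v 1)) (m (v 0) (v 1)) (v 3) [],
  .cyc 0 8717387084187214897152 (m (v 0) (v 1)) (m (v 3) (v 4)) (v 2) [(m (v 1) (v 4))],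
  .cyc 0 8693188109061380167464 (m (v 1) (v 2)) (m (v 0) (v 3)) (v 4) [(m (v 1) (v 4))],
  .cyc 0 8392614344306673543528 (m (v 1) (v 4)) (m (v 3) (v 4)) (v 0) [(v 1), (v 2)],
  .cyc 8382902633196378273792 0 (m (m (v 0) (v 1)) (v 3)) (m (v 1) (v 2)) (v 4) [(v 4)],
  .cyc 7994228812073906002800 0 (m (v 0) (v 1)) (m (v 1) (v 4)) (v 4) [(m (v 2) (v 3))],
  .cyc 0 7948046615393468518272 (m (m (v 0) (v 2)) (v 1)) (m (v 1) (v 3)) (v 4) [(v 4)],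
  .cyc 7799381799686229602304 0 (m (m (m (v 0) (v 4)) (v 3)) (v 1)) (m (v 2) (v 4)) (v 1) [],
  .cyc 7779205555545843574272 0 (m (m (v 0) (v 4)) (v 3)) (m (v 1) (v 4)) (v 1) [(v 2)],
  .flipA 0 7726049395888320287592 (v 1) (v 2) (v 4) [] (v 1) (v 4) (v 0) [(v 3)],
  .cyc 0 7656361378394619455088 (m (v 0) (v 1)) (m (v 1) (v 4)) (v 4) [(v 2), (v 3)],
  .flipA 0 7632722029094887454204 (v 2) (v 3) (v 4) [] (v 1) (v 1) (v 4) [(v 0)],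
  .cyc 7468302812268257945856 0 (m (m (v 1) (v 3)) (v 0)) (m (v 1) (v 2)) (v 4) [(v 4)],
  .cyc 7396365054643590250368 0 (m (v 1) (v 2)) (m (v 3) (v 4)) (v 0) [(m (v 1) (v 4))],
  .cyc 0 7360032162148488830592 (m (m (v 3) (v 4)) (v 1)) (m (m (v 0) (v 2)) (v 1)) (v 4) [],
  .flipA 7121370504463038681232 0 (v 2) (v 3) (v 4) [] (v 1) (v 4) (v 0) [(v 1)],
  .cyc 0 7100136627480626296320 (m (m (m (v 3) (v 4)) (v 0)) (v 1)) (m (v 2) (v 4)) (v 1) [],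
  .flipA 0 7043986805800554561664 (v 1) (v 2) (v 4) [(v 0)] (v 1) (v 4) (v 3) [],
  .cyc 6769204739407044619776 0 (m (m (m (v 1) (v 2)) (v 1)) (v 4)) (m (v 3) (v 4)) (v 0) [],
  .flipA 6765132668422045264528 0 (v 1) (v 2) (v 4) [] (m (v 0) (v 4)) (v 3) (v 1) [],
  .cyc 0 6641627383391078765208 (m (v 0) (v 1)) (m (v 1) (v 2)) (v 4) [(m (v 3) (v 4))],
  .flipA 6486059213634019882312 0 (v 1) (v 2) (v 4) [(v 0)] (v 3) (v 4) (v 1) [],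
  .flipB 6415853238233910716232 0 (v 0) (v 3) (v 4) [] (m (v 1) (v 2)) (m (v 1) (v 4)) [],
  .cyc 6367310388813694716864 0 (m (v 0) (v 2)) (m (v 1) (v 4)) (v 1) [(v 3), (v 4)],
  .cyc 6306061991256351557976 0 (m (v 0) (v 1)) (m (v 3) (v 4)) (v 1) [(m (v 2) (v 4))],
  .flipA 0 6219170260041938273360 (v 1) (v 2) (v 4) [(v 1)] (v 0) (v 3) (v 4) [],
  .cyc 0 6160255062358171761792 (m (m (v 0) (v 1)) (v 4)) (m (m (v 1) (v 2)) (v 3)) (v 4) [],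
  .flipA 0 6078091800136712524880 (v 0) (v 2) (v 3) [] (m (v 1) (v 4)) (v 1) (v 4) [],
  .cyc 0 6020100502133929650066 (m (v 0) (v 4)) (m (v 2) (v 4)) (v 3) [(v 1), (v 1)],
  .cyc 0 6010514347935271833528 (m (v 0) (v 1)) (m (v 1) (v 4)) (v 3) [(v 4), (v 2)],
  .flipA 5999975139514521186640 0 (v 0) (v 1) (v 3) [] (m (v 1) (v 4)) (v 2) (v 4) [],
  .cyc 5918765359226447205504 0 (m (m (m (v 0) (v 3)) (v 2)) (v 1)) (m (v 1) (v 4)) (v 4) [],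
  .cyc 0 5788999858081098029040 (m (m (v 1) (v 3)) (v 4)) (m (v 0) (v 4)) (v 2) [(v 1)],
  .cyc 0 5701680562925360072472 (m (v 2) (v 3)) (m (v 0) (v 4)) (v 1) [(m (v 1) (v 4))],
  .cyc 0 5680042696530431448216 (m (v 2) (v 3)) (m (v 1) (v 4)) (v 1) [(v 4), (v 0)],
  .flipA 5659560489092758364464 0 (v 1) (v 3) (v 4) [(v 0)] (v 1) (v 4) (v 2) [],
  .cyc 5631157666420098212466 0 (m (v 0) (v 2)) (m (v 3) (v 4)) (v 4) [(v 1), (v 1)],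
  .cyc 0 5614232964556265871936 (m (v 1) (v 3)) (m (v 1) (v 4)) (v 4) [(v 2), (v 0)],
  .cyc 5472381684989254702680 0 (m (v 1) (v 4)) (m (v 3) (v 4)) (v 0) [(m (v 1) (v 2))],
  .cyc 5418686998407579206568 0 (m (v 1) (v 3)) (m (v 0) (v 4)) (v 1) [(m (v 2) (v 4))],
  .cyc 0 5418686998407579206568 (m (v 1) (v 4)) (m (v 2) (v 4)) (v 0) [(m (v 1) (v 3))],
  .flipA 0 5181839664139295298640 (v 1) (v 3) (v 4) [] (v 0) (v 2) (m (v 1) (v 4)) [],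
  .cyc 0 5169460281661673315136 (m (m (m (v 2) (v 3)) (v 1)) (v 4)) (m (v 0) (v 4)) (v 1) [],
  .cyc 5123940585280321793688 0 (m (m (v 0) (v 4)) (v 1)) (m (v 2) (v 3)) (v 4) [(v 1)],
  .flipA 5099757494615024765128 0 (v 0) (v 1) (v 3) [(v 2)] (v 1) (v 4) (v 4) [],
  .cyc 5004207762516405711336 0 (m (v 0) (v 3)) (m (v 2) (v 4)) (v 1) [(m (v 1) (v 4))],
  .flipA 0 4966422502876037832728 (v 0) (v 2) (v 3) [] (v 1) (v 1) (v 4) [(v 4)],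
  .flipA 4949149659780282697728 0 (v 0) (v 1) (v 2) [(v 3)] (v 1) (v 4) (v 4) [],
  .flipA 0 4794787456480334699400 (v 0) (v 1) (v 3) [] (m (v 1) (v 2)) (v 4) (v 4) [],
  .cyc 0 4701251225811283243776 (m (v 2) (v 4)) (m (v 1) (v 3)) (m (v 0) (v 1)) [(v 4)],
  .cyc 0 4698254022545586512712 (m (v 1) (v 3)) (m (v 1) (v 4)) (v 0) [(v 2), (v 4)],
  .cyc 0 4645648251489429722016 (m (m (v 1) (v 2)) (v 4)) (m (v 0) (v 4)) (v 1) [(v 3)],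
  .cyc 4625813623779965699904 0 (m (v 1) (v 2)) (m (v 1) (v 4)) (v 4) [(v 3), (v 0)],
  .flipA 4618381964908183040392 0 (v 1) (v 2) (v 4) [] (m (v 0) (v 3)) (v 1) (v 4) [],
  .flipA 4476039217163989091720 0 (v 1) (v 2) (v 3) [(v 0)] (v 1) (v 4) (v 4) [],
  .cyc 0 4445696132168158809768 (m (v 0) (v 2)) (m (v 1) (v 4)) (v 4) [(m (v 1) (v 3))],
  .flipA 4433610333987526086720 0 (v 0) (v 2) (v 4) [] (v 1) (v 1) (v 3) [(v 4)],
  .flipA 4393009914065804042816 0 (v 1) (v 2) (v 4) [] (v 1) (v 3) (v 0) [(v 4)],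
  .flipA 4385598162551225959904 0 (v 0) (v 1) (v 4) [] (m (v 2) (v 3)) (v 1) (v 4) [],
  .flipA 0 4369189563087856288752 (v 1) (v 3) (v 4) [] (v 1) (v 2) (v 4) [(v 0)],
  .flipA 0 4343059877083077018352 (v 0) (v 1) (v 4) [] (m (v 1) (v 2)) (v 3) (v 4) [],
  .flipA 4339149940502880709680 0 (v 1) (v 3) (v 4) [(v 1)] (v 0) (v 2) (v 4) [],
  .flipB 0 4316811988284022425696 (v 0) (v 2) (v 4) [] (m (v 1) (v 3)) (m (v 1) (v 4)) [],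
  .cyc 4313539545274406813184 0 (m (m (m (v 3) (v 4)) (v 2)) (v 1)) (m (v 0) (v 1)) (v 4) [],
  .flipA 0 4260935022432145951536 (v 1) (v 3) (v 4) [(v 0)] (v 2) (v 4) (v 1) [],
  .flipA 0 4228157888098797154480 (v 0) (v 1) (v 4) [] (v 2) (v 4) (v 1) [(v 3)],
  .flipA 0 4217667867958115445576 (v 0) (v 1) (v 4) [] (v 1) (v 2) (v 3) [(v 4)],
  .cyc 0 4204080233726578343424 (m (m (v 0) (v 4)) (v 4)) (m (v 1) (v 3)) (v 1) [(v 2)],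
  .flipA 4152884885421156564496 0 (v 1) (v 2) (v 3) [] (m (v 1) (v 4)) (v 0) (v 4) [],
  .flipA 4007009565290181222352 0 (v 0) (v 1) (v 3) [] (v 1) (v 4) (v 4) [(v 2)],
  .cyc 0 3995754946755376068624 (m (v 0) (v 1)) (m (v 2) (v 4)) (v 3) [(m (v 1) (v 4))],
  .flipA 3786695131020287632144 0 (v 1) (v 2) (v 3) [] (v 1) (v 4) (v 4) [(v 0)],
  .cyc 3678096513948027065856 0 (m (v 0) (v 1)) (m (v 1) (v 3)) (v 2) [(v 4), (v 4)],
  .flipA 3653977069040596734464 0 (v 1) (v 3) (v 4) [] (v 1) (v 4) (v 0) [(v 2)],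
  .flipA 3624867055999074605988 0 (v 0) (v 2) (v 4) [] (v 1) (v 4) (v 3) [(v 1)],
  .flipB 3533202799798001263168 0 (v 1) (v 3) (v 4) [] (m (v 0) (v 1)) (m (v 2) (v 4)) [],
  .cyc 3495783443102939169792 0 (m (m (m (v 2) (v 3)) (v 4)) (v 4)) (m (v 0) (v 1)) (v 1) [],
  .flipA 3386125396173532714788 0 (v 0) (v 1) (v 3) [] (v 2) (v 4) (v 4) [(v 1)],
  .cyc 3359419525059934231536 0 (m (v 0) (v 1)) (m (v 1) (v 4)) (v 4) [(v 3), (v 2)],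
  .flipB 0 3346939048647142958768 (v 0) (v 1) (v 3) [] (m (v 1) (v 4)) (m (v 2) (v 4)) [],
  .cyc 0 3318638655401273935392 (m (v 0) (v 1)) (m (v 2) (v 4)) (v 1) [(v 4), (v 3)],
  .flipA 0 3315849365332012315956 (v 0) (v 3) (v 4) [] (v 2) (v 4) (v 1) [(v 1)],
  .flipA 3202548098219386240896 0 (v 0) (v 1) (v 2) [] (m (v 1) (v 3)) (v 4) (v 4) [],
  .cyc 0 3193254302537420057664 (m (m (v 1) (v 3)) (v 4)) (m (v 1) (v 4)) (v 0) [(v 2)],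
  .cyc 0 3192582406941037244160 (m (m (v 3) (v 4)) (v 4)) (m (v 1) (v 2)) (v 1) [(v 0)],
  .flipA 3118983163519782246768 0 (v 0) (v 2) (v 4) [(v 1)] (v 1) (v 3) (v 4) [],
  .flipA 0 3065551565231939348152 (v 0) (v 1) (v 4) [] (m (v 2) (v 4)) (v 3) (v 1) [],
  .cyc 2997997023331938713880 0 (m (v 1) (v 4)) (m (v 3) (v 4)) (v 2) [(v 1), (v 0)],
  .cyc 2928597094517292052800 0 (m (v 1) (v 3)) (m (v 1) (v 4)) (v 4) [(v 0), (v 2)],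
  .cyc 0 2891556445876775883648 (m (v 1) (v 3)) (m (v 0) (v 4)) (v 4) [(v 1), (v 2)],
  .flipA 0 2859575366333697193884 (v 0) (v 3) (v 4) [] (v 1) (v 1) (m (v 2) (v 4)) [],
  .flipA 2753360104820856163932 0 (v 0) (v 3) (v 4) [] (v 1) (v 1) (v 2) [(v 4)],
  .flipA 2710741006801244667320 0 (v 1) (v 2) (v 4) [(v 1)] (v 0) (v 4) (v 3) [],
  .cyc 0 2697691727518389995328 (m (v 0) (v 3)) (m (v 2) (v 4)) (v 1) [(v 1), (v 4)],
  .flipA 2690307148368613944104 0 (v 0) (v 1) (v 4) [(v 1)] (v 3) (v 4) (v 2) [],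
  .flipA 2661830136607040097336 0 (v 0) (v 2) (v 4) [] (v 1) (v 1) (m (v 3) (v 4)) [],
  .cyc 0 2626866288162443796720 (m (v 1) (v 3)) (m (v 2) (v 4)) (v 0) [(v 1), (v 4)],
  .flipA 2615004053749093944008 0 (v 1) (v 2) (v 4) [] (v 3) (v 4) (v 1) [(v 0)],
  .flipA 0 2601888809063092576640 (v 1) (v 3) (v 4) [] (m (v 0) (v 2)) (v 1) (v 4) [],
  .flipA 0 2600113652446634952016 (v 0) (v 2) (v 4) [] (v 1) (v 1) (v 4) [(v 3)],
  .cyc 2594611607674522879221 0 (m (v 0) (v 2)) (m (v 1) (v 4)) (v 4) [(v 3), (v 1)],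
  .flipB 0 2587244741986566603224 (v 0) (v 1) (v 4) [] (m (v 1) (v 2)) (m (v 3) (v 4)) [],
  .flipA 0 2585916953963326033184 (v 1) (v 3) (v 4) [] (v 1) (v 2) (v 0) [(v 4)],
  .flipA 2576375847925927563688 0 (v 0) (v 1) (v 4) [] (v 2) (v 3) (v 1) [(v 4)],
  .cyc 2566160791948355966208 0 (m (m (m (v 3) (v 4)) (v 4)) (v 2)) (m (v 0) (v 1)) (v 1) [],
  .flipA 0 2438764250362073816988 (v 0) (v 3) (v 4) [(v 2)] (v 1) (v 1) (v 4) [],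
  .cyc 2396075241276527885568 0 (m (m (m (v 1) (v 2)) (v 3)) (v 4)) (m (v 0) (v 4)) (v 1) [],
  .flipA 2366928439423877239086 0 (v 0) (v 3) (v 4) [] (v 1) (v 2) (v 4) [(v 1)],
  .flipB 2352004871154817681584 0 (v 1) (v 2) (v 4) [] (m (v 0) (v 1)) (m (v 3) (v 4)) [],
  .cyc 2335212110004686625024 0 (m (m (v 1) (v 4)) (v 1)) (m (v 0) (v 3)) (v 2) [(v 4)],
  .cyc 2251579785184860114816 0 (m (m (v 0) (v 3)) (v 1)) (m (v 1) (v 4)) (v 2) [(v 4)],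
  .cyc 2224016464705654848960 0 (m (v 1) (v 3)) (m (v 1) (v 4)) (v 4) [(m (v 0) (v 2))],
  .flipA 2210197146387024484272 0 (v 0) (v 1) (v 4) [(v 4)] (v 1) (v 3) (v 2) [],
  .cyc 0 2193440139936110212992 (m (v 0) (v 1)) (m (v 1) (v 4)) (v 2) [(v 3), (v 4)],
  .cyc 2186809310758890487152 0 (m (v 0) (v 4)) (m (v 1) (v 4)) (v 3) [(v 1), (v 2)],
  .flipA 2136296754131697885156 0 (v 0) (v 3) (v 4) [(v 4)] (v 1) (v 1) (v 2) [],
  .cyc 2116433305150256104800 0 (m (m (v 2) (v 4)) (v 4)) (m (v 0) (v 1)) (v 1) [(v 3)],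
  .flipA 2093753428835681462872 0 (v 0) (v 1) (v 3) [(v 4)] (v 1) (v 4) (v 2) [],
  .flipA 0 2062228331699522429384 (v 1) (v 2) (v 4) [] (v 1) (v 4) (v 3) [(v 0)],
  .flipA 2042496541955298355400 0 (v 1) (v 2) (v 4) [] (v 0) (v 1) (v 3) [(v 4)],
  .flipA 0 2024403880314082802464 (v 0) (v 2) (v 3) [] (v 1) (v 4) (m (v 1) (v 4)) [],
  .flipA 0 1992565189275280843392 (v 2) (v 3) (v 4) [] (v 1) (v 1) (m (v 0) (v 4)) [],
  .flipA 1971086925792236690296 0 (v 1) (v 2) (v 3) [] (v 0) (v 4) (v 1) [(v 4)],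
  .flipA 0 1883133175717267825656 (v 1) (v 2) (v 4) [] (m (v 1) (v 4)) (v 3) (v 0) [],
  .cyc 1780917795245988667008 0 (m (m (m (v 0) (v 3)) (v 1)) (v 4)) (m (v 2) (v 4)) (v 1) [],
  .flipA 1726158088070132537296 0 (v 0) (v 1) (v 3) [] (v 1) (v 4) (m (v 2) (v 4)) [],
  .cyc 1724714006933036185920 0 (m (m (v 0) (v 4)) (v 4)) (m (v 1) (v 2)) (v 1) [(v 3)],
  .flipA 0 1698594377567130757264 (v 0) (v 1) (v 4) [] (v 2) (v 3) (m (v 1) (v 4)) [],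
  .cyc 0 1678816748888984016000 (m (m (m (v 0) (v 2)) (v 1)) (v 4)) (m (v 3) (v 4)) (v 1) [],
  .flipA 0 1626527836094439958200 (v 0) (v 2) (v 4) [(v 4)] (v 1) (v 1) (v 3) [],
  .cyc 0 1621306424598911346816 (m (m (m (v 2) (v 3)) (v 4)) (v 1)) (m (v 0) (v 4)) (v 1) [],
  .flipA 1591257626899129070216 0 (v 0) (v 1) (v 4) [] (v 1) (v 3) (m (v 2) (v 4)) [],
  .cyc 0 1582940295619124322816 (m (m (v 0) (v 4)) (v 2)) (m (v 1) (v 3)) (m (v 1) (v 4)) [],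
  .cyc 1572820567834512616896 0 (m (v 1) (v 2)) (m (v 1) (v 4)) (v 4) [(m (v 0) (v 3))],
  .flipA 1505314599597187389456 0 (v 1) (v 3) (v 4) [(v 2)] (v 0) (v 4) (v 1) [],
  .cyc 0 1503647544959665612416 (m (v 0) (v 1)) (m (v 2) (v 4)) (v 1) [(m (v 3) (v 4))],
  .cyc 1502241675680913133824 0 (m (m (m (v 2) (v 4)) (v 0)) (v 1)) (m (v 3) (v 4)) (v 1) [],
  .cyc 0 1481974403873161089552 (m (v 1) (v 2)) (m (v 3) (v 4)) (v 1) [(m (v 0) (v 4))],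
  .flipA 0 1481898710722719603256 (v 1) (v 2) (v 4) [(v 4)] (v 0) (v 1) (v 3) [],
  .flipA 0 1439464517260841956600 (v 1) (v 2) (v 3) [(v 4)] (v 0) (v 4) (v 1) [],
  .flipA 1380717008999620755840 0 (v 0) (v 1) (v 2) [] (v 1) (v 3) (v 4) [(v 4)],
  .cyc 1353867110641167060720 0 (m (v 0) (v 4)) (m (v 3) (v 4)) (v 1) [(m (v 1) (v 2))],
  .cyc 1255346239201490795184 0 (m (v 0) (v 2)) (m (v 1) (v 3)) (v 4) [(m (v 1) (v 4))],
  .flipB 0 1235800109902914577984 (v 1) (v 3) (v 4) [] (m (v 0) (v 2)) (m (v 1) (v 4)) [],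
  .cyc 0 1180168325271778594360 (m (v 1) (v 4)) (m (v 2) (v 4)) (v 0) [(v 1), (v 3)],
  .cyc 1162918326040169048064 0 (m (m (v 0) (v 3)) (v 4)) (m (v 1) (v 4)) (v 1) [(v 2)],
  .flipA 0 1151738118429695020380 (v 0) (v 3) (v 4) [] (v 1) (v 1) (v 4) [(v 2)],
  .flipA 0 1121961750255836602032 (v 0) (v 1) (v 4) [(v 3)] (v 1) (v 2) (v 4) [],
  .flipA 1113383927981904295684 0 (v 2) (v 3) (v 4) [(v 0)] (v 1) (v 1) (v 4) [],
  .cyc 0 1092986577455158204416 (m (m (v 0) (v 1)) (v 1)) (m (v 3) (v 4)) (v 4) [(v 2)],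
  .cyc 0 1082673260500172083092 (m (v 0) (v 4)) (m (v 1) (v 4)) (v 2) [(v 3), (v 1)],
  .flipA 0 996776734974035014640 (v 0) (v 1) (v 4) [] (v 3) (v 4) (v 2) [(v 1)],
  .cyc 895192825676909071104 0 (m (m (v 1) (v 2)) (v 4)) (m (v 0) (v 1)) (v 4) [(v 3)],
  .cyc 0 891435131052098662248 (m (v 0) (v 1)) (m (v 1) (v 3)) (v 4) [(v 4), (v 2)],
  .flipA 0 883009658257931191368 (v 1) (v 2) (v 4) [] (m (v 3) (v 4)) (v 1) (v 0) [],
  .flipA 880681353029083097856 0 (v 0) (v 1) (v 2) [] (m (v 1) (v 4)) (v 3) (v 4) [],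
  .cyc 873775822644121450656 0 (m (m (v 0) (v 1)) (v 4)) (m (v 2) (v 4)) (v 1) [(v 3)],
  .flipA 0 864548702945193278064 (v 0) (v 3) (v 4) [] (m (v 1) (v 2)) (v 4) (v 1) [],
  .flipA 0 781072066202931271224 (v 0) (v 2) (v 4) [(v 3)] (v 1) (v 1) (v 4) [],
  .cyc 714582753230241395136 0 (m (m (v 1) (v 3)) (v 1)) (m (v 0) (v 4)) (v 4) [(v 2)],
  .cyc 0 641622049628644521216 (m (m (v 1) (v 3)) (v 4)) (m (v 1) (v 2)) (v 4) [(v 0)],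
  .flipA 0 625557524291981826312 (v 0) (v 1) (v 3) [] (v 1) (v 4) (v 2) [(v 4)],
  .cyc 0 603311789611264601088 (m (m (v 2) (v 3)) (v 1)) (m (v 1) (v 4)) (v 0) [(v 4)],
  .flipA 601786933479988657088 0 (v 1) (v 2) (v 4) [(v 3)] (v 0) (v 4) (v 1) [],
  .flipA 0 599900200180109996544 (v 0) (v 1) (v 2) [] (v 1) (v 4) (m (v 3) (v 4)) [],
  .cyc 0 553624317294658329000 (m (v 1) (v 3)) (m (v 1) (v 4)) (v 2) [(v 0), (v 4)],
  .flipA 0 546906433706446789560 (v 0) (v 1) (v 4) [] (m (v 1) (v 3)) (v 4) (v 2) [],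
  .flipA 0 541018639139492063760 (v 0) (v 1) (v 4) [] (v 1) (v 3) (v 4) [(v 2)],
  .flipA 532765051362511211256 0 (v 0) (v 1) (v 3) [(v 1)] (v 2) (v 4) (v 4) [],
  .cyc 531272058700786071552 0 (m (m (m (v 0) (v 4)) (v 4)) (v 1)) (m (v 1) (v 3)) (v 2) [],
  .cyc 519493038259451192304 0 (m (v 0) (v 2)) (m (v 1) (v 4)) (v 3) [(m (v 1) (v 4))],
  .cyc 0 498645807434144949504 (m (v 1) (v 2)) (m (v 0) (v 3)) (v 4) [(v 1), (v 4)],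
  .cyc 0 495407749444096886184 (m (v 1) (v 2)) (m (v 1) (v 3)) (v 4) [(v 4), (v 0)],
  .flipA 489341921193767191968 0 (v 0) (v 1) (v 4) [(v 4)] (v 1) (v 2) (v 3) [],
  .flipA 0 487185223228395002928 (v 1) (v 3) (v 4) [] (v 0) (v 1) (v 4) [(v 2)],
  .flipA 0 460501204626186056408 (v 0) (v 1) (v 4) [(v 2)] (v 1) (v 4) (v 3) [],
  .flipA 0 455521771187323418464 (v 1) (v 3) (v 4) [] (m (v 1) (v 2)) (v 4) (v 0) [],
  .flipA 451289036880389020240 0 (v 1) (v 3) (v 4) [(v 4)] (v 0) (v 1) (v 2) [],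
  .cyc 367072320043787819277 0 (m (v 0) (v 3)) (m (v 1) (v 4)) (v 4) [(v 2), (v 1)],
  .flipA 363217150408037365152 0 (v 0) (v 1) (v 4) [(v 2)] (v 1) (v 3) (v 4) [],
  .flipA 0 283367838403680915144 (v 0) (v 3) (v 4) [(v 1)] (v 1) (v 4) (v 2) [],
  .flipA 269571822697290790016 0 (v 1) (v 3) (v 4) [] (m (v 2) (v 4)) (v 1) (v 0) [],
  .cyc 262651151739433025088 0 (m (v 1) (v 2)) (m (v 3) (v 4)) (v 4) [(v 1), (v 0)],
  .cyc 0 250405560056485831380 (m (v 1) (v 2)) (m (v 3) (v 4)) (v 4) [(v 0), (v 1)],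
  .flipA 231198515216494730304 0 (v 1) (v 3) (v 4) [(v 1)] (v 0) (v 4) (v 2) [],
  .cyc 163654591483488995136 0 (m (v 1) (v 2)) (m (v 1) (v 3)) (v 0) [(v 4), (v 4)],
  .flipA 133368472525827497760 0 (v 0) (v 2) (v 4) [] (m (v 1) (v 4)) (v 3) (v 1) [],
  .flipA 128093737551828223672 0 (v 0) (v 1) (v 4) [] (v 1) (v 4) (v 3) [(v 2)],
  .flipA 0 127846900797014855984 (v 0) (v 1) (v 4) [(v 1)] (v 2) (v 4) (v 3) [],
  .cyc 0 112626375573163303059 (m (v 0) (v 1)) (m (v 3) (v 4)) (v 4) [(v 2), (v 1)],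
  .cyc 98686014678170210304 0 (m (m (v 0) (v 4)) (v 1)) (m (v 1) (v 2)) (v 3) [(v 4)]]

theorem chk_K1 : check 4 0 (fsc 8205079821804079329024 tgt_K1) crt_K1 = true := by decide +kernel

end Pool.Agent.H1.Mal
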