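import Pool.Agent.H1.Mal.Formal3

set_option autoImplicit false
set_option maxRecDepth 100000
namespace Pool.Agent.H1.Mal
open Tr

def tgt_P1 : List Tm :=
  (fsc 3 (fmul (fJ (v 0) (v 1) (v 2)) (m (v 0) (v 1)))) ++ (fh (v 0) (v 1) (v 2) (v 0) (v 1))

def crt_P1 : List Ce := [
  .cyc 81 0 (m (v 0) (v 1)) (m (v 0) (v 1)) (v 2) []]

theorem chk_P1 : check 2 1 (fsc 2 tgt_P1) crt_P1 = true := by decide +kernel

end Pool.Agent.H1.Mal
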