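import Pool.Agent.H1.Mal.Formal3

set_option autoImplicit false
set_option maxRecDepth 100000
namespace Pool.Agent.H1.Mal
open Tr

def tgt_P2 : List Tm :=
  (fsc 3 (fmul (fJ (v 0) (v 1) (v 2)) (m (v 0) (v 3)))) ++ ((fsc 3 (fq (fJ (v 1) (v 2) (v 3)) (v 0) (v 0))) ++ ((fneg (fsc 3 (fq (fJ (v 0) (v 2) (v 3)) (v 0) (v 1)))) ++ ((fsc 3 (fq (fJ (v 0) (v 1) (v 3)) (v 0) (v 2))) ++ ((fneg (fsc 3 (fq (fJ (v 0) (v 1) (v 2)) (v 0) (v 3)))) ++ ((fneg (fsc 2 (fh (v 0) (v 2) (v 3) (v 0) (v 1)))) ++ ((fsc 2 (fh (v 0) (v 1) (v 3) (v 0) (v 2))) ++ (fneg (fh (v 0) (v 1) (v 2) (v 0) (v 3)))))))))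

def crt_P2 : List Ce := [
  .cyc 81 0 (m (v 1) (v 2)) (m (v 0) (v 3)) (v 0) []]

theorem chk_P2 : check 2 1 (fsc 1 tgt_P2) crt_P2 = true := by decide +kernel

end Pool.Agent.H1.Mal
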