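import Pool.Agent.H1.Mal.Formal3

set_option autoImplicit false
set_option maxRecDepth 100000
namespace Pool.Agent.H1.Mal
open Tr

def tgt_P3 : List Tm :=
  (fmul (fg (v 0) (v 1) (v 2) (v 0)) (m (v 1) (v 2))) ++ ((fsc 3 (fq (fJ (v 0) (v 1) (v 2)) (m (v 0) (v 1)) (v 2))) ++ ((fq (fg (v 0) (v 1) (v 2) (v 1)) (v 0) (v 2)) ++ (fneg (fq (fg (v 0) (v 1) (v 2) (v 2)) (v 0) (v 1)))))

def crt_P3 : List Ce := [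
  .cyc 108 0 (m (m (v 0) (v 2)) (v 0)) (m (v 1) (v 2)) (v 1) [],
  .cyc 90 0 (m (v 0) (v 1)) (m (v 0) (v 2)) (v 2) [(v 1)],
  .cyc 72 0 (m (m (v 0) (v 1)) (v 2)) (m (v 0) (v 1)) (v 2) [],
  .cyc 0 54 (m (m (v 0) (v 1)) (v 0)) (m (v 1) (v 2)) (v 2) [],
  .cyc 48 0 (m (v 0) (v 1)) (m (v 1) (v 2)) (v 2) [(v 0)],
  .cyc 0 36 (m (m (v 1) (v 2)) (v 0)) (m (v 1) (v 2)) (v 0) [],
  .cyc 0 21 (m (v 0) (v 1)) (m (v 0) (v 1)) (v 2) [(v 2)],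
  .cyc 0 18 (m (m (v 0) (v 1)) (v 1)) (m (v 0) (v 2)) (v 2) []]

theorem chk_P3 : check 3 1 (fsc 2 tgt_P3) crt_P3 = true := by decide +kernel

end Pool.Agent.H1.Mal
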