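import Pool.Agent.H1.Mal.Formal3

set_option autoImplicit false
set_option maxRecDepth 100000
namespace Pool.Agent.H1.Mal
open Tr

def tgt_P4 : List Tm :=
  (fmul (fg (v 0) (v 1) (v 2) (v 0)) (m (v 1) (v 3))) ++ ((fsc 3 (fq (fJ (v 0) (v 1) (v 3)) (m (v 0) (v 1)) (v 2))) ++ ((fneg (fq (fg (v 1) (v 2) (v 3) (v 0)) (v 0) (v 1))) ++ ((fsc 2 (fq (fg (v 1) (v 2) (v 3) (v 1)) (v 0) (v 0))) ++ ((fneg (fq (fg (v 0) (v 2) (v 3) (v 1)) (v 0) (v 1))) ++ ((fsc 2 (fq (fg (v 0) (v 1) (v 3) (v 1)) (v 0) (v 2))) ++ ((fneg (fq (fg (v 0) (v 1) (v 3) (v 2)) (v 0) (v 1))) ++ ((fneg (fq (fg (v 0) (v 1) (v 2) (v 1)) (v 0) (v 3))) ++ (fneg (fB (v 0) (v 1) (v 2) (v 0) (v 1) (v 3))))))))))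

def crt_P4 : List Ce := [
  .cyc 774 0 (m (m (v 0) (v 2)) (v 0)) (m (v 1) (v 3)) (v 1) [],
  .cyc 420 0 (m (v 0) (v 2)) (m (v 1) (v 3)) (v 0) [(v 1)],
  .cyc 0 279 (m (v 0) (v 1)) (m (v 0) (v 1)) (v 2) [(v 3)],
  .cyc 0 252 (m (m (v 1) (v 3)) (v 0)) (m (v 0) (v 1)) (v 2) [],
  .cyc 0 237 (m (v 0) (v 1)) (m (v 0) (v 1)) (v 3) [(v 2)],
  .cyc 234 0 (m (m (v 0) (v 3)) (v 0)) (m (v 1) (v 2)) (v 1) [],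
  .cyc 0 216 (m (m (v 0) (v 3)) (v 2)) (m (v 0) (v 1)) (v 1) [],
  .cyc 198 0 (m (m (v 1) (v 3)) (v 1)) (m (v 0) (v 2)) (v 0) [],
  .cyc 198 0 (m (m (v 1) (v 2)) (v 1)) (m (v 0) (v 3)) (v 0) [],
  .cyc 0 144 (m (v 0) (v 2)) (m (v 1) (v 3)) (v 1) [(v 0)],
  .flipA 0 126 (v 0) (v 1) (v 2) [] (v 1) (v 3) (v 0) [],
  .flipA 102 0 (v 0) (v 1) (v 2) [] (v 0) (v 3) (v 1) [],
  .flipA 0 96 (v 0) (v 2) (v 3) [] (v 0) (v 1) (v 1) [],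
  .flipA 0 90 (v 0) (v 1) (v 3) [] (v 0) (v 1) (v 2) [],
  .cyc 84 0 (m (v 0) (v 1)) (m (v 0) (v 2)) (v 3) [(v 1)],
  .cyc 0 72 (m (v 0) (v 2)) (m (v 0) (v 3)) (v 1) [(v 1)],
  .flipA 60 0 (v 1) (v 2) (v 3) [] (v 0) (v 0) (v 1) [],
  .cyc 36 0 (m (v 1) (v 2)) (m (v 1) (v 3)) (v 0) [(v 0)],
  .flipA 36 0 (v 0) (v 1) (v 3) [] (v 1) (v 2) (v 0) [],
  .cyc 36 0 (m (v 0) (v 1)) (m (v 2) (v 3)) (v 1) [(v 0)],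
  .cyc 18 0 (m (m (v 2) (v 3)) (v 0)) (m (v 0) (v 1)) (v 1) []]

theorem chk_P4 : check 3 1 (fsc 8 tgt_P4) crt_P4 = true := by decide +kernel

end Pool.Agent.H1.Mal
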