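import Pool.Agent.H1.Mal.Formal3

set_option autoImplicit false
set_option maxRecDepth 100000
namespace Pool.Agent.H1.Mal
open Tr

def tgt_P5 : List Tm :=
  (fmul (fh (v 0) (v 1) (v 2) (v 0) (v 3)) (m (v 1) (v 2))) ++ ((fneg (fsc 3 (fq (fq (fJ (v 0) (v 1) (v 2)) (v 0) (v 1)) (v 2) (v 3)))) ++ ((fsc 3 (fq (fq (fJ (v 0) (v 1) (v 2)) (v 0) (v 2)) (v 1) (v 3))) ++ ((fq (fg (v 1) (v 2) (v 3) (v 0)) (m (v 0) (v 1)) (v 2)) ++ ((fq (fg (v 0) (v 1) (v 2) (v 1)) (m (v 0) (v 2)) (v 3)) ++ ((fneg (fq (fg (v 0) (v 1) (v 2) (v 2)) (m (v 0) (v 1)) (v 3))) ++ ((fneg (fq (fg (v 0) (v 1) (v 2) (v 3)) (m (v 0) (v 1)) (v 2))) ++ ((fq (fh (v 0) (v 2) (v 3) (v 0) (v 1)) (v 1) (v 2)) ++ ((fneg (fq (fh (v 0) (v 2) (v 3) (v 0) (v 2)) (v 1) (v 1))) ++ ((fq (fh (v 0) (v 2) (v 3) (v 1) (v 2))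 (v 0) (v 1)) ++ ((fneg (fq (fh (v 0) (v 1) (v 3) (v 0) (v 1)) (v 2) (v 2))) ++ ((fq (fh (v 0) (v 1) (v 3) (v 0) (v 2)) (v 1) (v 2)) ++ ((fneg (fq (fh (v 0) (v 1) (v 3) (v 1) (v 2)) (v 0) (v 2))) ++ (fsc 2 (fC (v 0) (v 1) (v 2) (v 3) (v 0) (v 1) (v 2)))))))))))))))

def crt_P5 : List Ce := [
  .cyc 55500633 0 (m (v 0) (v 1)) (m (v 0) (v 1)) (v 2) [(v 3), (v 2)],
  .cyc 38265534 0 (m (m (v 1) (v 2)) (v 2)) (m (v 0) (v 3)) (v 0) [(v 1)],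
  .cyc 37787202 0 (m (v 0) (v 1)) (m (v 0) (v 1)) (v 3) [(v 2), (v 2)],
  .cyc 0 33689682 (m (m (v 2) (v 3)) (v 2)) (m (v 0) (v 1)) (v 0) [(v 1)],
  .flipA 32152518 0 (v 0) (v 1) (v 2) [] (v 1) (v 3) (v 0) [(v 2)],
  .cyc 0 30452850 (m (v 1) (v 2)) (m (v 1) (v 2)) (m (v 0) (v 3)) [(v 0)],
  .cyc 29629800 0 (m (m (v 1) (v 3)) (v 0)) (m (v 0) (v 1)) (v 2) [(v 2)],
  .cyc 29240568 0 (m (m (v 0) (v 3)) (v 0)) (m (v 1) (v 2)) (v 2) [(v 1)],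
  .cyc 0 26803548 (m (v 0) (v 1)) (m (v 0) (v 2)) (v 2) [(v 3), (v 1)],
  .flipA 0 25949604 (v 0) (v 1) (v 3) [] (v 1) (v 2) (v 2) [(v 0)],
  .cyc 25908498 0 (m (v 0) (v 1)) (m (v 0) (v 2)) (m (v 1) (v 3)) [(v 2)],
  .cyc 0 23748390 (m (v 1) (v 2)) (m (v 2) (v 3)) (v 0) [(v 0), (v 1)],
  .cyc 0 22624110 (m (m (m (v 0) (v 3)) (v 2)) (v 0)) (m (v 1) (v 2)) (v 1) [],
  .cyc 0 21152664 (m (v 0) (v 1)) (m (v 2) (v 3)) (v 0) [(m (v 1) (v 2))],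
  .cyc 20581272 0 (m (m (v 1) (v 3)) (v 1)) (m (v 0) (v 2)) (v 2) [(v 0)],
  .flipA 18608184 0 (v 0) (v 1) (v 2) [(v 3)] (v 0) (v 2) (v 1) [],
  .cyc 17387838 0 (m (v 1) (v 2)) (m (v 0) (v 3)) (v 2) [(m (v 0) (v 1))],
  .cyc 0 16145730 (m (m (m (v 0) (v 3)) (v 2)) (v 1)) (m (v 0) (v 1)) (v 2) [],
  .cyc 16080606 0 (m (m (v 0) (v 3)) (v 2)) (m (v 0) (v 1)) (v 2) [(v 1)],
  .cyc 15975540 0 (m (m (v 0) (v 1)) (v 1)) (m (v 2) (v 3)) (v 2) [(v 0)],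
  .cyc 0 15831018 (m (v 0) (v 1)) (m (v 0) (v 2)) (m (v 1) (v 2)) [(v 3)],
  .cyc 0 15690402 (m (m (v 1) (v 2)) (v 1)) (m (v 0) (v 3)) (v 0) [(v 2)],
  .cyc 15459669 0 (m (v 0) (v 1)) (m (v 1) (v 2)) (v 3) [(v 2), (v 0)],
  .cyc 0 15337188 (m (m (m (v 2) (v 3)) (v 2)) (v 0)) (m (v 0) (v 1)) (v 1) [],
  .cyc 14704416 0 (m (v 0) (v 2)) (m (v 1) (v 3)) (v 1) [(v 0), (v 2)],
  .cyc 0 13492161 (m (v 0) (v 2)) (m (v 0) (v 3)) (v 1) [(v 1), (v 2)],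
  .flipA 0 12692592 (v 0) (v 2) (v 3) [] (v 0) (v 2) (v 1) [(v 1)],
  .cyc 12676179 0 (m (v 1) (v 2)) (m (v 0) (v 3)) (v 2) [(v 1), (v 0)],
  .flipA 12518172 0 (v 0) (v 2) (v 3) [] (m (v 1) (v 2)) (v 0) (v 1) [],
  .cyc 11649096 0 (m (m (v 1) (v 2)) (v 3)) (m (v 0) (v 2)) (v 0) [(v 1)],
  .cyc 11590776 0 (m (m (m (v 1) (v 3)) (v 1)) (v 2)) (m (v 0) (v 2)) (v 0) [],
  .cyc 11590776 0 (m (m (m (v 0) (v 3)) (v 0)) (v 1)) (m (v 1) (v 2)) (v 2) [],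
  .cyc 0 11249280 (m (m (v 0) (v 1)) (v 1)) (m (m (v 0) (v 3)) (v 2)) (v 2) [],
  .flipA 0 11120382 (v 0) (v 1) (v 2) [] (v 0) (v 3) (v 1) [(v 2)],
  .cyc 10596420 0 (m (m (m (v 0) (v 3)) (v 2)) (v 2)) (m (v 0) (v 1)) (v 1) [],
  .cyc 10495980 0 (m (m (v 0) (v 2)) (v 0)) (m (m (v 2) (v 3)) (v 1)) (v 1) [],
  .flipA 0 9771417 (v 1) (v 2) (v 3) [] (v 0) (v 0) (v 1) [(v 2)],
  .cyc 9351522 0 (m (m (v 0) (v 2)) (v 3)) (m (v 1) (v 2)) (v 1) [(v 0)],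
  .cyc 0 9161802 (m (m (v 0) (v 2)) (v 0)) (m (v 1) (v 3)) (v 1) [(v 2)],
  .cyc 8943345 0 (m (v 0) (v 2)) (m (v 2) (v 3)) (v 1) [(v 1), (v 0)],
  .cyc 8875548 0 (m (m (v 0) (v 2)) (v 0)) (m (v 1) (v 2)) (v 1) [(v 3)],
  .flipA 8708706 0 (v 0) (v 1) (v 3) [(v 2)] (v 0) (v 2) (v 1) [],
  .flipA 8614776 0 (v 1) (v 2) (v 3) [] (v 1) (v 2) (v 0) [(v 0)],
  .cyc 0 8576460 (m (v 0) (v 1)) (m (v 1) (v 2)) (v 2) [(v 0), (v 3)],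
  .flipA 0 8523090 (v 0) (v 2) (v 3) [(v 2)] (v 0) (v 1) (v 1) [],
  .cyc 8170794 0 (m (v 0) (v 1)) (m (v 1) (v 2)) (v 2) [(m (v 0) (v 3))],
  .cyc 0 8079282 (m (m (v 0) (v 1)) (v 3)) (m (v 1) (v 2)) (v 2) [(v 0)],
  .cyc 7844364 0 (m (m (m (v 2) (v 3)) (v 1)) (v 2)) (m (v 0) (v 1)) (v 0) [],
  .cyc 7797123 0 (m (v 1) (v 2)) (m (v 0) (v 3)) (v 0) [(v 2), (v 1)],
  .cyc 7776000 0 (m (v 0) (v 2)) (m (v 0) (v 2)) (v 3) [(v 1), (v 1)],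
  .cyc 7744482 0 (m (m (v 1) (v 3)) (v 0)) (m (v 1) (v 2)) (v 2) [(v 0)],
  .cyc 0 7612083 (m (v 0) (v 1)) (m (v 0) (v 2)) (v 3) [(v 2), (v 1)],
  .flipA 0 7432560 (v 0) (v 1) (v 2) [(v 1)] (v 2) (v 3) (v 0) [],
  .cyc 7221078 0 (m (v 0) (v 1)) (m (v 1) (v 2)) (v 2) [(v 3), (v 0)],
  .flipA 0 6873444 (v 1) (v 2) (v 3) [(v 0)] (v 0) (v 2) (v 1) [],
  .cyc 6756543 0 (m (v 0) (v 2)) (m (v 1) (v 3)) (v 1) [(v 2), (v 0)],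
  .flipA 0 6629499 (v 0) (v 2) (v 3) [(v 0)] (v 1) (v 1) (v 2) [],
  .flipA 0 6618996 (v 0) (v 1) (v 3) [(v 1)] (v 0) (v 2) (v 2) [],
  .flipA 6084792 0 (v 0) (v 2) (v 3) [(v 1)] (v 1) (v 2) (v 0) [],
  .flipA 0 6050592 (v 0) (v 1) (v 2) [] (v 2) (v 3) (v 0) [(v 1)],
  .cyc 5997942 0 (m (m (v 2) (v 3)) (v 1)) (m (v 0) (v 1)) (v 2) [(v 0)],
  .flipA 5644170 0 (v 0) (v 1) (v 3) [] (v 0) (v 2) (m (v 1) (v 2)) [],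
  .cyc 0 5626314 (m (m (v 1) (v 3)) (v 2)) (m (v 0) (v 1)) (v 0) [(v 2)],
  .flipA 0 5316624 (v 0) (v 1) (v 2) [] (m (v 0) (v 3)) (v 2) (v 1) [],
  .cyc 5194701 0 (m (v 0) (v 1)) (m (v 0) (v 1)) (v 2) [(v 2), (v 3)],
  .flipA 0 5102352 (v 0) (v 1) (v 2) [(v 2)] (v 1) (v 3) (v 0) [],
  .cyc 4822794 0 (m (v 0) (v 2)) (m (v 1) (v 2)) (v 3) [(v 1), (v 0)],
  .cyc 0 4624332 (m (v 1) (v 2)) (m (v 0) (v 3)) (v 1) [(v 2), (v 0)],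
  .flipA 4511232 0 (v 0) (v 2) (v 3) [] (v 0) (v 1) (v 1) [(v 2)],
  .flipA 4438890 0 (v 1) (v 2) (v 3) [(v 0)] (v 1) (v 2) (v 0) [],
  .flipA 0 4413036 (v 0) (v 1) (v 2) [] (v 1) (v 3) (v 2) [(v 0)],
  .flipA 4380300 0 (v 0) (v 1) (v 3) [] (v 1) (v 2) (v 0) [(v 2)],
  .cyc 0 4379184 (m (v 0) (v 2)) (m (v 1) (v 3)) (v 2) [(m (v 0) (v 1))],
  .cyc 0 4297158 (m (v 1) (v 2)) (m (v 0) (v 3)) (v 0) [(m (v 1) (v 2))],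
  .cyc 0 3901257 (m (m (v 1) (v 2)) (v 2)) (m (v 0) (v 1)) (v 0) [(v 3)],
  .cyc 3887028 0 (m (m (m (v 0) (v 1)) (v 1)) (v 2)) (m (v 0) (v 2)) (v 3) [],
  .cyc 3574611 0 (m (m (v 0) (v 1)) (v 3)) (m (v 0) (v 2)) (v 2) [(v 1)],
  .flipA 3357288 0 (v 0) (v 1) (v 2) [] (v 0) (v 2) (v 3) [(v 1)],
  .flipA 0 3234726 (v 0) (v 1) (v 3) [] (v 0) (v 1) (v 2) [(v 2)],
  .cyc 3155490 0 (m (v 0) (v 2)) (m (v 1) (v 3)) (v 1) [(m (v 0) (v 2))],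
  .cyc 0 3136239 (m (m (v 1) (v 2)) (v 0)) (m (v 0) (v 2)) (v 1) [(v 3)],
  .flipA 3087414 0 (v 0) (v 1) (v 2) [(v 3)] (v 1) (v 2) (v 0) [],
  .cyc 3073464 0 (m (m (m (v 2) (v 3)) (v 0)) (v 0)) (m (v 1) (v 2)) (v 1) [],
  .flipA 3019896 0 (v 0) (v 1) (v 3) [(v 0)] (v 1) (v 2) (v 2) [],
  .flipA 2919456 0 (v 1) (v 2) (v 3) [] (m (v 0) (v 1)) (v 2) (v 0) [],
  .cyc 2862540 0 (m (m (v 0) (v 1)) (v 0)) (m (m (v 1) (v 3)) (v 2)) (v 2) [],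
  .cyc 2738448 0 (m (v 0) (v 2)) (m (v 0) (v 3)) (v 1) [(v 2), (v 1)],
  .flipA 2606976 0 (v 0) (v 1) (v 2) [] (v 0) (v 2) (v 1) [(v 3)],
  .cyc 2574342 0 (m (v 0) (v 2)) (m (v 0) (v 2)) (m (v 1) (v 3)) [(v 1)],
  .cyc 2497608 0 (m (v 1) (v 2)) (m (v 2) (v 3)) (v 0) [(m (v 0) (v 1))],
  .flipB 2460780 0 (v 0) (v 1) (v 2) [] (m (v 0) (v 3)) (m (v 1) (v 2)) [],
  .flipA 0 2409102 (v 1) (v 2) (v 3) [] (v 0) (v 0) (v 2) [(v 1)],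
  .cyc 2406654 0 (m (v 1) (v 2)) (m (v 1) (v 2)) (v 3) [(v 0), (v 0)],
  .cyc 0 2383263 (m (m (v 0) (v 1)) (v 2)) (m (v 2) (v 3)) (v 0) [(v 1)],
  .flipA 2378754 0 (v 0) (v 1) (v 2) [] (v 1) (v 2) (m (v 0) (v 3)) [],
  .cyc 2375406 0 (m (v 0) (v 1)) (m (v 0) (v 2)) (v 3) [(m (v 1) (v 2))],
  .cyc 2375406 0 (m (v 0) (v 1)) (m (v 1) (v 2)) (v 3) [(m (v 0) (v 2))],
  .flipA 2300454 0 (v 0) (v 2) (v 3) [] (v 1) (v 1) (v 2) [(v 0)],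
  .cyc 0 2171178 (m (m (v 0) (v 3)) (v 0)) (m (v 1) (v 2)) (v 1) [(v 2)],
  .cyc 1832193 0 (m (v 0) (v 1)) (m (v 1) (v 2)) (v 3) [(v 0), (v 2)],
  .cyc 1815732 0 (m (v 0) (v 1)) (m (v 0) (v 2)) (v 3) [(v 1), (v 2)],
  .flipA 0 1638468 (v 0) (v 2) (v 3) [] (v 1) (v 1) (m (v 0) (v 2)) [],
  .cyc 0 1606482 (m (v 1) (v 2)) (m (v 0) (v 3)) (v 0) [(v 1), (v 2)],
  .flipA 0 1583604 (v 0) (v 1) (v 3) [] (m (v 1) (v 2)) (v 0) (v 2) [],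
  .cyc 1578582 0 (m (m (v 0) (v 2)) (v 2)) (m (v 0) (v 1)) (v 1) [(v 3)],
  .flipA 0 1535895 (v 1) (v 2) (v 3) [(v 1)] (v 0) (v 0) (v 2) [],
  .flipA 0 1277262 (v 1) (v 2) (v 3) [] (v 0) (v 0) (m (v 1) (v 2)) [],
  .flipA 0 1232901 (v 1) (v 2) (v 3) [(v 2)] (v 0) (v 0) (v 1) [],
  .flipA 0 964224 (v 0) (v 1) (v 2) [] (v 0) (v 2) (m (v 1) (v 3)) [],
  .flipA 964224 0 (v 0) (v 1) (v 2) [(v 0)] (v 2) (v 3) (v 1) [],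
  .flipA 964224 0 (v 0) (v 1) (v 2) [(v 2)] (v 0) (v 3) (v 1) [],
  .flipB 959958 0 (v 0) (v 2) (v 3) [] (m (v 0) (v 1)) (m (v 1) (v 2)) [],
  .cyc 0 864621 (m (v 0) (v 1)) (m (v 1) (v 3)) (v 2) [(v 0), (v 2)],
  .flipA 825930 0 (v 0) (v 1) (v 3) [] (v 0) (v 2) (v 2) [(v 1)],
  .cyc 0 708102 (m (v 0) (v 1)) (m (v 1) (v 3)) (v 2) [(m (v 0) (v 2))],
  .flipA 654348 0 (v 1) (v 2) (v 3) [] (v 0) (v 2) (v 1) [(v 0)],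
  .cyc 0 596052 (m (v 0) (v 1)) (m (v 2) (v 3)) (v 2) [(v 0), (v 1)],
  .flipA 401016 0 (v 0) (v 1) (v 2) [] (v 2) (v 3) (v 1) [(v 0)],
  .cyc 205065 0 (m (v 0) (v 1)) (m (v 0) (v 1)) (m (v 2) (v 3)) [(v 2)],
  .flipA 0 15624 (v 0) (v 1) (v 3) [] (m (v 0) (v 1)) (v 2) (v 2) []]

theorem chk_P5 : check 4 2 (fsc 43772 tgt_P5) crt_P5 = true := by decide +kernel

end Pool.Agent.H1.Mal
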