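import Pool.Agent.H1.Mal.Formal2

set_option autoImplicit false
set_option maxRecDepth 100000
namespace Pool.Agent.H1.Mal
open Tr

def tgt_c11 : List Tm :=
  (fsc 2 (fE (m (v 0) (v 1)) (v 1) (v 2) (v 3) (v 4))) ++ ((fmul (fE (v 1) (v 1) (v 2) (v 3) (v 4)) (v 0)) ++ (fneg (fsc 3 (fG (v 1) (v 1) (fJ (v 2) (v 3) (v 4)) (v 0)))))

def crt_c11 : List Ce := [
  .flipA 0 3552 (v 2) (v 3) (v 4) [] (v 0) (v 1) (v 1) [],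
  .cyc 3444 0 (m (m (v 0) (v 1)) (v 1)) (m (v 2) (v 3)) (v 4) [],
  .cyc 0 2478 (m (m (v 2) (v 4)) (v 1)) (m (v 0) (v 1)) (v 3) [],
  .cyc 2451 0 (m (m (v 0) (v 1)) (v 1)) (m (v 3) (v 4)) (v 2) [],
  .cyc 0 2061 (m (v 0) (v 3)) (m (v 2) (v 4)) (v 1) [(v 1)],
  .cyc 0 1932 (m (m (v 1) (v 3)) (v 0)) (m (v 1) (v 4)) (v 2) [],
  .cyc 0 1728 (m (m (v 0) (v 4)) (v 1)) (m (v 1) (v 2)) (v 3) [],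
  .cyc 0 1514 (m (v 1) (v 2)) (m (v 0) (v 4)) (v 1) [(v 3)],
  .cyc 0 1446 (m (v 0) (v 1)) (m (v 1) (v 4)) (v 2) [(v 3)],
  .cyc 1443 0 (m (v 1) (v 2)) (m (v 0) (v 4)) (v 3) [(v 1)],
  .flipA 1435 0 (v 0) (v 1) (v 3) [] (v 1) (v 4) (v 2) [],
  .cyc 0 1407 (m (m (v 1) (v 2)) (v 1)) (m (v 3) (v 4)) (v 0) [],
  .cyc 1366 0 (m (v 0) (v 1)) (m (v 1) (v 2)) (v 4) [(v 3)],
  .cyc 1354 0 (m (v 1) (v 2)) (m (v 0) (v 3)) (v 1) [(v 4)],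
  .cyc 0 1336 (m (v 0) (v 1)) (m (v 2) (v 3)) (v 4) [(v 1)],
  .cyc 1332 0 (m (m (v 0) (v 1)) (v 4)) (m (v 2) (v 3)) (v 1) [],
  .flipA 0 1228 (v 1) (v 2) (v 3) [] (v 0) (v 4) (v 1) [],
  .cyc 0 1221 (m (v 0) (v 1)) (m (v 3) (v 4)) (v 2) [(v 1)],
  .cyc 0 1134 (m (m (v 1) (v 2)) (v 1)) (m (v 0) (v 4)) (v 3) [],
  .cyc 0 1088 (m (v 0) (v 1)) (m (v 1) (v 2)) (v 3) [(v 4)],
  .cyc 1068 0 (m (v 2) (v 3)) (m (v 1) (v 4)) (v 1) [(v 0)],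
  .cyc 1047 0 (m (v 0) (v 2)) (m (v 3) (v 4)) (v 1) [(v 1)],
  .cyc 0 1005 (m (m (v 0) (v 2)) (v 1)) (m (v 1) (v 3)) (v 4) [],
  .cyc 990 0 (m (v 1) (v 2)) (m (v 3) (v 4)) (v 0) [(v 1)],
  .cyc 0 975 (m (v 0) (v 2)) (m (v 1) (v 4)) (v 3) [(v 1)],
  .cyc 0 828 (m (v 0) (v 1)) (m (v 3) (v 4)) (v 1) [(v 2)],
  .flipA 0 825 (v 0) (v 1) (v 4) [] (v 1) (v 3) (v 2) [],
  .cyc 0 741 (m (v 0) (v 1)) (m (v 1) (v 3)) (v 4) [(v 2)],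
  .cyc 0 732 (m (m (v 1) (v 2)) (v 0)) (m (v 1) (v 3)) (v 4) [],
  .flipA 726 0 (v 0) (v 1) (v 3) [] (v 1) (v 2) (v 4) [],
  .flipA 666 0 (v 0) (v 1) (v 2) [] (v 1) (v 3) (v 4) [],
  .flipA 0 660 (v 1) (v 3) (v 4) [] (v 0) (v 2) (v 1) [],
  .cyc 655 0 (m (v 2) (v 3)) (m (v 1) (v 4)) (v 0) [(v 1)],
  .cyc 0 555 (m (m (v 2) (v 3)) (v 1)) (m (v 1) (v 4)) (v 0) [],
  .flipA 430 0 (v 1) (v 3) (v 4) [] (v 1) (v 2) (v 0) [],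
  .flipA 415 0 (v 1) (v 2) (v 3) [] (v 1) (v 4) (v 0) [],
  .flipA 356 0 (v 0) (v 1) (v 4) [] (v 1) (v 2) (v 3) [],
  .cyc 353 0 (m (v 1) (v 3)) (m (v 1) (v 4)) (v 2) [(v 0)],
  .flipA 313 0 (v 0) (v 3) (v 4) [] (v 1) (v 1) (v 2) [],
  .cyc 296 0 (m (v 0) (v 1)) (m (v 2) (v 4)) (v 3) [(v 1)],
  .cyc 285 0 (m (m (v 0) (v 2)) (v 1)) (m (v 1) (v 4)) (v 3) [],
  .cyc 234 0 (m (m (v 3) (v 4)) (v 1)) (m (v 0) (v 1)) (v 2) [],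
  .cyc 171 0 (m (v 0) (v 1)) (m (v 1) (v 4)) (v 3) [(v 2)],
  .flipA 168 0 (v 0) (v 2) (v 3) [] (v 1) (v 1) (v 4) [],
  .cyc 156 0 (m (m (v 1) (v 3)) (v 1)) (m (v 2) (v 4)) (v 0) [],
  .flipA 0 152 (v 0) (v 2) (v 4) [] (v 1) (v 1) (v 3) [],
  .flipA 152 0 (v 1) (v 2) (v 4) [] (v 0) (v 3) (v 1) [],
  .cyc 150 0 (m (m (v 2) (v 3)) (v 1)) (m (v 0) (v 1)) (v 4) [],
  .cyc 0 138 (m (m (v 1) (v 4)) (v 1)) (m (v 2) (v 3)) (v 0) [],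
  .cyc 0 129 (m (m (v 0) (v 3)) (v 1)) (m (v 1) (v 4)) (v 2) [],
  .cyc 0 114 (m (v 1) (v 2)) (m (v 1) (v 3)) (v 4) [(v 0)],
  .flipA 0 108 (v 0) (v 1) (v 2) [] (v 1) (v 4) (v 3) [],
  .cyc 0 87 (m (m (v 0) (v 4)) (v 1)) (m (v 1) (v 3)) (v 2) [],
  .cyc 0 74 (m (v 1) (v 3)) (m (v 2) (v 4)) (v 0) [(v 1)],
  .cyc 48 0 (m (v 0) (v 1)) (m (v 1) (v 3)) (v 2) [(v 4)],
  .flipA 0 43 (v 1) (v 2) (v 4) [] (v 1) (v 3) (v 0) [],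
  .cyc 39 0 (m (m (v 2) (v 4)) (v 1)) (m (v 1) (v 3)) (v 0) []]

theorem chk_c11 : check 3 0 (fsc 444 tgt_c11) crt_c11 = true := by decide +kernel

end Pool.Agent.H1.Mal
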